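import Pool.Agent.Helper18.CA.BVhalf

/-!
# Project CA: the closed forms of the theorems on primes in arithmetic progressions
-/

set_option autoImplicit false

namespace Pool.Agent.Helper18.CA

open Pool.Agent.Helper18.BV

/-- Siegel-Walfisz for primitive characters, smooth logarithmic weights. -/
theorem small : Small := by
  have hB := Pool.Agent.Helper85.BV.lBound
  have hU := Pool.Agent.Helper85.BV.lUpper
  have hC := Pool.Agent.Helper30.BV.lComplex hU
  have hE := Pool.Agent.Helper18.BV.estermann
  have hAP := Pool.Agent.Helper79.BV.altProd
  have hAO := Pool.Agent.Helper79.BV.altOne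
  have hSi := Pool.Agent.Helper37.BV.siegelReal hB hU hE hAP hAO
  have hF := Pool.Agent.Helper46.BV.fourierRep
  have hN := Pool.Agent.Helper79.BV.nearOne hU hC hSi
  exact Pool.Agent.Helper81.BV.small hN hF

/-- Large conductors, twisted by a fixed character. -/
theorem largeTwMain : LargeTw :=
  largeTw Pool.Agent.Helper18.BV.vaughanId Pool.Agent.Helper18.BV.coefFacts typeOneE
    (typeTwoE mls Pool.Agent.Helper46.BV.fourierRep)

/-- The Bombieri-Vinogradov theorem, level `1/2 - ε`, weights supported in `[x ^ (1 - ε), x]`. -/
theorem bvMain : BVhalf := bvhalf small largeTwMain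

end Pool.Agent.Helper18.CA
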