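import Pool.Agent.Helper18.CA.SelClass

/-!
# Project CA: Brun-Titchmarsh with the constant `2`, logarithmic form
-/

set_option autoImplicit false

open Finset

namespace Pool.Agent.Helper18.CA

theorem bt_count (δ : ℝ) (hδ : 0 < δ) (hδ1 : δ ≤ 1) : ∃ T0 : ℝ, 3 ≤ T0 ∧ ∀ m n c : ℕ, 1 ≤ n →
    T0 * n ≤ m →
    (((Ico 0 (m + 1)).filter (fun p => p.Prime ∧ p ≡ c [MOD n])).card : ℝ) ≤
      (2 + δ) * m / (n.totient * Real.log ((m : ℝ) / n)) := by
  set τ : ℝ := δ / 8 with hτ
  have hτ0 : 0 < τ := by positivity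
  have hτ1 : τ ≤ 1 / 8 := by rw [hτ]; linarith
  have hev : ∀ᶠ T : ℝ in Filter.atTop, 2 * Real.log T ≤ τ * T ^ τ := by
    have h := isLittleO_log_rpow_atTop hτ0
    have h' := h.bound (by positivity : (0 : ℝ) < τ / 2)
    filter_upwards [h', Filter.eventually_ge_atTop (1 : ℝ)] with T hT hT1
    rw [Real.norm_of_nonneg (Real.log_nonneg hT1),
      Real.norm_of_nonneg (Real.rpow_nonneg (by linarith) _)] at hT
    linarith
  obtain ⟨T1, hT1⟩ := Filter.eventually_atTop.1 hev
  set K : ℝ := 8 / τ with hK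
  have hK0 : 0 < K := by positivity
  refine ⟨max (max 3 T1) (Real.exp K), (le_max_left _ _).trans (le_max_left _ _), ?_⟩
  intro m n c hn hmn
  have hn0 : (0 : ℝ) < n := by exact_mod_cast hn
  set T : ℝ := (m : ℝ) / n with hT
  have hTT : max (max 3 T1) (Real.exp K) ≤ T := by
    rw [hT, le_div_iff₀ hn0]; exact hmn
  have hT3 : 3 ≤ T := ((le_max_left _ _).trans (le_max_left _ _)).trans hTT
  have hT11 : T1 ≤ T := ((le_max_right _ _).trans (le_max_left _ _)).trans hTT
  have hTK : Real.exp K ≤ T := (le_max_right _ _).trans hTT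
  have hT0 : 0 < T := by linarith
  have hlK : K ≤ Real.log T := (Real.le_log_iff_exp_le hT0).2 hTK
  have hl0 : 0 < Real.log T := by linarith
  have he := hT1 T hT11
  have hφ : (0 : ℝ) < n.totient := by exact_mod_cast Nat.totient_pos.2 hn
  have hφn : (n.totient : ℝ) ≤ n := by exact_mod_cast Nat.totient_le n
  have hm : (m : ℝ) = T * n := by rw [hT]; field_simp
  have hm0 : (0 : ℝ) < m := by rw [hm]; positivity
  have hm1 : 1 ≤ m := by exact_mod_cast hm0
  set R : ℕ := ⌊T ^ ((1 - τ) / 2)⌋₊ with hR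
  have hRle : (R : ℝ) ≤ T ^ ((1 - τ) / 2) := Nat.floor_le (by positivity)
  have hlogR : (1 - τ) / 2 * Real.log T - Real.log 2 ≤ Real.log R := by
    have h1 : T ^ ((1 - τ) / 2) / 2 ≤ R := by
      have h2 : T ^ ((1 - τ) / 2) < R + 1 := Nat.lt_floor_add_one _
      have h3 : 2 ≤ T ^ ((1 - τ) / 2) := by
        rw [← Real.log_le_log_iff (by norm_num) (by positivity), Real.log_rpow hT0]
        have h4 : Real.log 2 < 1 := by have := Real.log_two_lt_d9; linarith
        have h5 : (8 : ℝ) ≤ K := by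
          rw [hK, le_div_iff₀ hτ0]; linarith
        nlinarith
      linarith
    have h2 : 0 < T ^ ((1 - τ) / 2) / 2 := by positivity
    have h3 := Real.log_le_log h2 h1
    rw [Real.log_div (by positivity) (by norm_num), Real.log_rpow hT0] at h3
    exact h3
  have h8K : (64 : ℝ) ≤ K := by
    rw [hK, le_div_iff₀ hτ0]; linarith
  have hlog2 : Real.log 2 ≤ 1 := by have := Real.log_two_lt_d9; linarith
  have hR2 : 2 ≤ R := by
    have h1 : (1 : ℝ) < Real.log R := by nlinarith
    by_contra hcon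
    push Not at hcon
    have h2 : (R : ℝ) ≤ 1 := by exact_mod_cast (by omega : R ≤ 1)
    have h3 : Real.log R ≤ 0 := Real.log_nonpos (Nat.cast_nonneg _) h2
    linarith
  have hs := sieve_class2 0 (m + 1) n c R hn hR2
  rw [zero_add] at hs
  refine hs.trans ?_
  have hlR0 : 0 < Real.log R := Real.log_pos (by exact_mod_cast hR2)
  have hR1 : (1 : ℝ) ≤ R := by exact_mod_cast (by omega : 1 ≤ R)
  -- the error
  have e1 : (R : ℝ) + (R : ℝ) ^ 2 ≤ τ * m / (n.totient * Real.log T) := by
    have h1 : (R : ℝ) ^ 2 ≤ T ^ (1 - τ) := by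
      calc (R : ℝ) ^ 2 ≤ (T ^ ((1 - τ) / 2)) ^ 2 := pow_le_pow_left₀ (by positivity) hRle 2
        _ = T ^ (1 - τ) := by
          rw [← Real.rpow_natCast, ← Real.rpow_mul hT0.le]; congr 1; push_cast; ring
    have h2 : (R : ℝ) ≤ (R : ℝ) ^ 2 := by nlinarith
    have h3 : T ^ (1 - τ) * T ^ τ = T := by
      rw [← Real.rpow_add hT0, sub_add_cancel, Real.rpow_one]
    have h4 : 2 * T ^ (1 - τ) * Real.log T ≤ τ * T := by
      calc 2 * T ^ (1 - τ) * Real.log T = T ^ (1 - τ) * (2 * Real.log T) := by ring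
        _ ≤ T ^ (1 - τ) * (τ * T ^ τ) := mul_le_mul_of_nonneg_left he (by positivity)
        _ = τ * (T ^ (1 - τ) * T ^ τ) := by ring
        _ = τ * T := by rw [h3]
    have h5 : 2 * T ^ (1 - τ) ≤ τ * T / Real.log T := by
      rw [le_div_iff₀ hl0]; exact h4
    have h6 : τ * T / Real.log T ≤ τ * m / (n.totient * Real.log T) := by
      rw [div_le_div_iff₀ hl0 (by positivity)]
      have h7 : T * n.totient ≤ m := by
        rw [hm]; exact mul_le_mul_of_nonneg_left hφn hT0.le
      calc τ * T * (n.totient * Real.log T) = (T * n.totient) * (τ * Real.log T) := by ring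
        _ ≤ m * (τ * Real.log T) := mul_le_mul_of_nonneg_right h7 (by positivity)
        _ = _ := by ring
    linarith
  have e2 : (((m + 1 : ℕ) : ℝ)) / (n.totient * Real.log R) ≤
      (2 + 7 * τ) * m / (n.totient * Real.log T) := by
    rw [div_le_div_iff₀ (by positivity) (by positivity)]
    have h1 : (m + 1 : ℝ) * Real.log T ≤ (2 + 7 * τ) * m * Real.log R := by
      have h2 : (2 + 7 * τ) * m * ((1 - τ) / 2 * Real.log T - 1) ≤ (2 + 7 * τ) * m * Real.log R := by
        apply mul_le_mul_of_nonneg_left _ (by positivity)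
        linarith
      refine le_trans ?_ h2
      have h3 : Real.log T ≤ T := (Real.log_le_sub_one_of_pos hT0).trans (by linarith)
      have h4 : T ≤ m := by
        rw [hm]
        have : (1 : ℝ) ≤ n := by exact_mod_cast hn
        nlinarith
      have h5 : 8 ≤ τ * Real.log T := by
        have := mul_le_mul_of_nonneg_left hlK hτ0.le
        rw [hK, mul_div_cancel₀ _ hτ0.ne'] at this
        exact this
      have h6 : (2 + 7 * τ) * m * ((1 - τ) / 2 * Real.log T - 1) - (m + 1 : ℝ) * Real.log T =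
          m * ((τ * Real.log T) * (5 / 2 - 7 / 2 * τ) - (2 + 7 * τ)) - Real.log T := by ring
      have h7 : 1 ≤ (τ * Real.log T) * (5 / 2 - 7 / 2 * τ) - (2 + 7 * τ) := by nlinarith
      have h8 : (m : ℝ) ≤ m * ((τ * Real.log T) * (5 / 2 - 7 / 2 * τ) - (2 + 7 * τ)) :=
        le_mul_of_one_le_right hm0.le h7
      linarith
    push_cast
    calc (m + 1 : ℝ) * (n.totient * Real.log T) = n.totient * ((m + 1 : ℝ) * Real.log T) := by ring
      _ ≤ n.totient * ((2 + 7 * τ) * m * Real.log R) := mul_le_mul_of_nonneg_left h1 hφ.le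
      _ = _ := by ring
  have e3 : (2 + δ) * m / (n.totient * Real.log T) = (2 + 7 * τ) * m / (n.totient * Real.log T) +
      τ * m / (n.totient * Real.log T) := by
    rw [hτ]; ring
  rw [e3]
  linarith

/-- Brun-Titchmarsh in logarithmic form. -/
theorem bt_log (δ κ α β : ℝ) (hδ : 0 < δ) (hδ1 : δ ≤ 1) (hκ0 : 0 ≤ κ) (hκ : κ < α) (hαβ : α ≤ β) :
    ∃ X0 : ℝ, 3 ≤ X0 ∧ ∀ x : ℝ, X0 ≤ x → ∀ n c : ℕ, 1 ≤ n → (n : ℝ) ≤ x ^ κ →
    ∑ p ∈ (Ioc ⌊x ^ α⌋₊ ⌊x ^ β⌋₊).filter (fun p => p.Prime ∧ p ≡ c [MOD n]),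
      Real.log p / p ≤ (2 + δ) * (α / (α - κ)) * ((β - α) * Real.log x + 2) / n.totient := by
  classical
  obtain ⟨T0, hT0, hbt⟩ := bt_count δ hδ hδ1
  have hακ : 0 < α - κ := by linarith
  have hα0 : 0 < α := by linarith
  refine ⟨max (max 3 (T0 ^ (1 / (α - κ)))) ((3 : ℝ) ^ (1 / α)), (le_max_left _ _).trans (le_max_left _ _), ?_⟩
  intro x hx n c hn hnx
  have hx3 : 3 ≤ x := ((le_max_left _ _).trans (le_max_left _ _)).trans hx
  have hxT : T0 ^ (1 / (α - κ)) ≤ x := ((le_max_right _ _).trans (le_max_left _ _)).trans hx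
  have hx3α : (3 : ℝ) ^ (1 / α) ≤ x := (le_max_right _ _).trans hx
  have hx0 : 0 < x := by linarith
  set L := Real.log x with hL
  have hL1 : 1 ≤ L := by
    rw [hL, Real.le_log_iff_exp_le hx0]
    linarith [Real.exp_one_lt_d9]
  have hxT' : T0 ≤ x ^ (α - κ) := by
    calc T0 = (T0 ^ (1 / (α - κ))) ^ (α - κ) := by
          rw [← Real.rpow_mul (by linarith), one_div_mul_cancel hακ.ne', Real.rpow_one]
      _ ≤ x ^ (α - κ) := Real.rpow_le_rpow (by positivity) hxT hακ.le
  have hxα3 : 3 ≤ x ^ α := by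
    calc (3 : ℝ) = ((3 : ℝ) ^ (1 / α)) ^ α := by
          rw [← Real.rpow_mul (by norm_num), one_div_mul_cancel hα0.ne', Real.rpow_one]
      _ ≤ x ^ α := Real.rpow_le_rpow (by positivity) hx3α hα0.le
  set a := ⌊x ^ α⌋₊ with ha
  set b := ⌊x ^ β⌋₊ with hb
  have ha3 : 3 ≤ a := Nat.le_floor (by simpa using hxα3)
  have hxa : x ^ α < a + 1 := Nat.lt_floor_add_one _
  have hab : a ≤ b := Nat.floor_le_floor (Real.rpow_le_rpow_of_exponent_le (by linarith) hαβ)
  have hφ : (0 : ℝ) < n.totient := by exact_mod_cast Nat.totient_pos.2 hn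
  have hn0 : (0 : ℝ) < n := by exact_mod_cast hn
  -- the counting function
  set P : ℕ → ℝ := fun m => (((Ico 0 (m + 1)).filter (fun p => p.Prime ∧ p ≡ c [MOD n])).card : ℝ)
    with hP
  set K : ℝ := (2 + δ) * (α / (α - κ)) / n.totient with hK
  have hK0 : 0 ≤ K := by positivity
  have hPm : ∀ m : ℕ, a + 1 ≤ m → P m * Real.log m ≤ K * m := by
    intro m hm
    have hmx : x ^ α < m := hxa.trans_le (by exact_mod_cast hm)
    have hm0 : (0 : ℝ) < m := by
      have : (0 : ℝ) < x ^ α := by positivity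
      linarith
    have h1 : T0 * n ≤ m := by
      calc T0 * n ≤ x ^ (α - κ) * x ^ κ := mul_le_mul hxT' hnx hn0.le (by positivity)
        _ = x ^ α := by rw [← Real.rpow_add hx0]; congr 1; ring
        _ ≤ m := hmx.le
    have h2 := hbt m n c hn h1
    have h3 : Real.log ((m : ℝ) / n) = Real.log m - Real.log n := Real.log_div hm0.ne' hn0.ne'
    have h4 : Real.log n ≤ κ * L := by
      rw [hL, ← Real.log_rpow hx0]
      exact Real.log_le_log hn0 hnx
    have h5 : α * L ≤ Real.log m := by
      rw [hL, ← Real.log_rpow hx0]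
      exact Real.log_le_log (by positivity) hmx.le
    have h6 : 0 < Real.log ((m : ℝ) / n) := by
      rw [h3]
      nlinarith
    have h7 : Real.log m ≤ (α / (α - κ)) * Real.log ((m : ℝ) / n) := by
      rw [div_mul_eq_mul_div, le_div_iff₀ hακ, h3]
      nlinarith
    have h8 : 0 ≤ Real.log m := by nlinarith
    calc P m * Real.log m ≤ ((2 + δ) * m / (n.totient * Real.log ((m : ℝ) / n))) * Real.log m :=
          mul_le_mul_of_nonneg_right h2 h8
      _ ≤ ((2 + δ) * m / (n.totient * Real.log ((m : ℝ) / n))) *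
            ((α / (α - κ)) * Real.log ((m : ℝ) / n)) :=
          mul_le_mul_of_nonneg_left h7 (by positivity)
      _ = K * m := by
          rw [hK]
          field_simp
  have hP0 : ∀ m, 0 ≤ P m := fun m => Nat.cast_nonneg _
  have hPs : ∀ m : ℕ, P (m + 1) - P m = if (m + 1).Prime ∧ (m + 1) ≡ c [MOD n] then 1 else 0 := by
    intro m
    simp only [hP]
    have h1 : Ico 0 (m + 1 + 1) = insert (m + 1) (Ico 0 (m + 1)) := by
      ext k
      simp only [Finset.mem_Ico, Finset.mem_insert]
      omega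
    rw [h1, Finset.filter_insert]
    split_ifs with h
    · rw [Finset.card_insert_of_notMem (by simp)]
      push_cast
      ring
    · ring
  -- summation by parts by induction on the upper limit
  set f : ℕ → ℝ := fun m => Real.log m / m with hf
  have hfm : ∀ m : ℕ, 3 ≤ m → f m - f (m + 1) ≤ Real.log m / (m * (m + 1)) := by
    intro m hm
    have hm0 : (0 : ℝ) < m := by exact_mod_cast (by omega : 0 < m)
    have h1 : Real.log m ≤ Real.log ((m + 1 : ℕ) : ℝ) :=
      Real.log_le_log hm0 (by push_cast; linarith)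
    have h2 : Real.log m / ((m : ℝ) + 1) ≤ Real.log ((m + 1 : ℕ) : ℝ) / ((m : ℝ) + 1) :=
      div_le_div_of_nonneg_right h1 (by linarith)
    have h3 : Real.log m / (m * ((m : ℝ) + 1)) = Real.log m / m - Real.log m / ((m : ℝ) + 1) := by
      field_simp
      ring
    simp only [hf]
    rw [h3]
    push_cast at h2 ⊢
    linarith
  set S : ℕ → ℝ := fun m => ∑ p ∈ (Ioc a m).filter (fun p => p.Prime ∧ p ≡ c [MOD n]),
    Real.log p / p with hS
  have hSs : ∀ m : ℕ, a ≤ m → S (m + 1) = S m + (P (m + 1) - P m) * f (m + 1) := by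
    intro m hm
    rw [hPs]
    simp only [hS, hf]
    have h1 : Ioc a (m + 1) = insert (m + 1) (Ioc a m) := by
      ext k
      simp only [Finset.mem_Ioc, Finset.mem_insert]
      omega
    rw [h1, Finset.filter_insert]
    split_ifs with h
    · rw [Finset.sum_insert (by simp)]
      push_cast
      ring
    · ring
  have hf0 : ∀ m : ℕ, 0 ≤ f m := fun m => div_nonneg (Real.log_natCast_nonneg m) (Nat.cast_nonneg m)
  have hmain : ∀ k : ℕ, S (a + k + 1) ≤ P (a + k + 1) * f (a + k + 1) +
      K * (Real.log ((a + k + 1 : ℕ) : ℝ) - Real.log ((a + 1 : ℕ) : ℝ)) := by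
    intro k
    induction k with
    | zero =>
      rw [add_zero, hSs a le_rfl, sub_self, mul_zero, add_zero]
      have h1 : S a = 0 := by
        simp only [hS]
        rw [Finset.Ioc_self, Finset.filter_empty, Finset.sum_empty]
      rw [h1, zero_add]
      apply mul_le_mul_of_nonneg_right _ (hf0 _)
      linarith [hP0 a]
    | succ k ih =>
      have h1 := hSs (a + k + 1) (by omega)
      rw [show a + (k + 1) + 1 = a + k + 1 + 1 by ring, h1]
      set j := a + k + 1 with hj
      have hj0 : (0 : ℝ) < j := by exact_mod_cast (by omega : 0 < j)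
      have h2 : P j * (f j - f (j + 1)) ≤ K * (Real.log ((j + 1 : ℕ) : ℝ) - Real.log j) := by
        have h3 := hfm j (by omega)
        have h4 := hPm j (by omega)
        have h5 : 1 / ((j : ℝ) + 1) ≤ Real.log ((j + 1 : ℕ) : ℝ) - Real.log j := by
          have h6 : Real.log j - Real.log ((j + 1 : ℕ) : ℝ) ≤ (j : ℝ) / (j + 1) - 1 := by
            rw [← Real.log_div hj0.ne' (by positivity)]
            have := Real.log_le_sub_one_of_pos (show 0 < (j : ℝ) / ((j + 1 : ℕ) : ℝ) by positivity)
            push_cast at this ⊢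
            exact this
          have h7 : (j : ℝ) / (j + 1) - 1 = -(1 / ((j : ℝ) + 1)) := by
            field_simp
            ring
          linarith
        calc P j * (f j - f (j + 1)) ≤ P j * (Real.log j / (j * (j + 1))) :=
              mul_le_mul_of_nonneg_left h3 (hP0 j)
          _ = (P j * Real.log j) / (j * (j + 1)) := by ring
          _ ≤ (K * j) / (j * (j + 1)) := div_le_div_of_nonneg_right h4 (by positivity)
          _ = K * (1 / ((j : ℝ) + 1)) := by field_simp
          _ ≤ _ := mul_le_mul_of_nonneg_left h5 hK0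
      linarith
  have hfin : (2 + δ) * (α / (α - κ)) * ((β - α) * L + 2) / n.totient =
      K * ((β - α) * L + 2) := by
    rw [hK]; ring
  rw [hfin]
  show S b ≤ _
  rcases eq_or_lt_of_le hab with h | h
  · have h1 : S b = 0 := by
      simp only [hS]
      rw [← h, Finset.Ioc_self, Finset.filter_empty, Finset.sum_empty]
    rw [h1]
    have : 0 ≤ (β - α) * L := mul_nonneg (by linarith) (by linarith)
    positivity
  · obtain ⟨k, hk⟩ := Nat.exists_eq_add_of_lt h
    have h1 := hmain k
    rw [← hk] at h1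
    refine h1.trans ?_
    have hb0 : (0 : ℝ) < b := by exact_mod_cast (by omega : 0 < b)
    have h2 : P b * f b ≤ K := by
      simp only [hf]
      rw [← mul_div_assoc, div_le_iff₀ hb0]
      exact hPm b (by omega)
    have h3 : Real.log b ≤ β * L := by
      rw [hL, ← Real.log_rpow hx0]
      exact Real.log_le_log hb0 (Nat.floor_le (by positivity))
    have h4 : α * L ≤ Real.log ((a + 1 : ℕ) : ℝ) := by
      rw [hL, ← Real.log_rpow hx0]
      exact Real.log_le_log (by positivity) (by push_cast; exact hxa.le)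
    have h5 : K * (Real.log b - Real.log ((a + 1 : ℕ) : ℝ)) ≤ K * ((β - α) * L) :=
      mul_le_mul_of_nonneg_left (by linarith) hK0
    linarith

end Pool.Agent.Helper18.CA
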