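import Pool.Agent.Helper18.CA.St
import Pool.Agent.Helper44.BV.TypeOne

/-!
# Project CA: Type I sums, weights supported in `[x^η, x]`
-/

set_option autoImplicit false

open Finset Filter Topology
open scoped ArithmeticFunction.vonMangoldt ArithmeticFunction.Moebius ArithmeticFunction.zeta

namespace Pool.Agent.Helper18.CA

open Pool.Agent.Helper18.BV Pool.Agent.Helper44.BV

section Var

variable {A : ℕ → ℝ} {g : ℝ → ℝ} {G L x η : ℝ} {m : ℕ}

theorem FF_zero_of_le' (hη : ∀ v, v ≤ η → g v = 0) (hx : 3 ≤ x) (hm : 1 ≤ m) {k : ℕ} (hk1 : 1 ≤ k)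
    (hk : ((m * k : ℕ) : ℝ) ≤ x ^ η) : FF A g x m k = 0 := by
  unfold FF
  have hlog0 : 0 < Real.log x := Real.log_pos (by linarith)
  rw [hη]
  · simp
  · rw [div_le_iff₀ hlog0, ← Real.log_rpow (by linarith)]
    have : 1 ≤ m * k := Nat.mul_pos hm hk1
    exact Real.log_le_log (by exact_mod_cast this) hk

theorem FF_total_var' (hη : ∀ v, v ≤ η → g v = 0) (hG : ∀ v, |g v| ≤ G) (hG0 : 0 < G) (hL0 : 0 < L)
    (hL : ∀ u v, |g u - g v| ≤ L * |u - v|) (hx : 3 ≤ x) (hm : 1 ≤ m) (K : ℕ)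
    (hA : ∀ k ∈ Icc 1 K, |A k| ≤ Real.log x)
    (hA' : ∀ k ∈ Icc 1 K, |A (k + 1) - A k| ≤ 1 / k) :
    ∑ k ∈ Icc 1 K, |FF A g x m (k + 1) - FF A g x m k| ≤
      (2 * G + L) * Real.log x * (4 * m * x ^ (-η)) := by
  have hx0 : 0 < x := by linarith
  have hlog0 : 0 < Real.log x := Real.log_pos (by linarith)
  have hm0 : (0 : ℝ) < m := by exact_mod_cast hm
  set y : ℝ := x ^ η / m with hy
  have hy0 : 0 < y := by positivity
  have h1 : ∑ k ∈ Icc 1 K, |FF A g x m (k + 1) - FF A g x m k| =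
      ∑ k ∈ (Icc 1 K).filter (fun k : ℕ => y < k + 1), |FF A g x m (k + 1) - FF A g x m k| := by
    symm
    apply Finset.sum_filter_of_ne
    intro k hk hne
    by_contra hcon
    push Not at hcon
    apply hne
    have hk1 := (Finset.mem_Icc.1 hk).1
    have h2 : ((m * (k + 1) : ℕ) : ℝ) ≤ x ^ η := by
      rw [hy, le_div_iff₀ hm0] at hcon
      push_cast
      linarith
    have h3 : ((m * k : ℕ) : ℝ) ≤ x ^ η := by
      refine le_trans ?_ h2
      exact_mod_cast Nat.mul_le_mul_left m (Nat.le_succ k)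
    rw [FF_zero_of_le' hη hx hm (by omega) h2, FF_zero_of_le' hη hx hm hk1 h3]
    simp
  rw [h1]
  calc ∑ k ∈ (Icc 1 K).filter (fun k : ℕ => y < k + 1), |FF A g x m (k + 1) - FF A g x m k|
      ≤ ∑ k ∈ (Icc 1 K).filter (fun k : ℕ => y < k + 1),
          (2 * G + L) * Real.log x * ((k : ℝ) ^ 2)⁻¹ := by
        apply Finset.sum_le_sum
        intro k hk
        have hk' := (Finset.mem_filter.1 hk).1
        exact FF_var_le hG hG0 hL0 hL hx hm (Finset.mem_Icc.1 hk').1 (hA k hk') (hA' k hk')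
    _ = (2 * G + L) * Real.log x *
          ∑ k ∈ (Icc 1 K).filter (fun k : ℕ => y < k + 1), ((k : ℝ) ^ 2)⁻¹ := by
        rw [Finset.mul_sum]
    _ ≤ (2 * G + L) * Real.log x * (4 / y) := by
        gcongr
        exact sum_inv_sq y hy0 K
    _ = (2 * G + L) * Real.log x * (4 * m * x ^ (-η)) := by
        rw [hy, Real.rpow_neg hx0.le]
        field_simp

end Var

/-- The general estimate. -/
theorem typeOne_aux' {g : ℝ → ℝ} (hg : IsWt g) {η : ℝ} (hη : ∀ v, v ≤ η → g v = 0) {G L : ℝ} (hG : ∀ v, |g v| ≤ G) (hG0 : 0 < G)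
    (hL0 : 0 < L) (hL : ∀ u v, |g u - g v| ≤ L * |u - v|) {x : ℝ} (hx : 3 ≤ x) {q : ℕ} [NeZero q]
    {χ : DirichletCharacter ℂ q} (hχ : χ ≠ 1) (M : ℕ) (c z : ArithmeticFunction ℂ) (Kc : ℝ)
    (hc : ∀ m ≤ M, ‖c m‖ ≤ Kc) (hc0 : ∀ m, M < m → c m = 0) (A : ℕ → ℝ)
    (hz : ∀ k : ℕ, 1 ≤ k → z k = (A k : ℂ))
    (hA : ∀ k : ℕ, 1 ≤ k → (k : ℝ) ≤ x → |A k| ≤ Real.log x)
    (hA' : ∀ k : ℕ, 1 ≤ k → |A (k + 1) - A k| ≤ 1 / k) :
    ‖SS (c * z : ArithmeticFunction ℂ) g x χ‖ ≤
      (4 * (2 * G + L)) * q * M * Kc * Real.log x * x ^ (-η) := by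
  have hx0 : 0 < x := by linarith
  have hlog0 : 0 < Real.log x := Real.log_pos (by linarith)
  set N := ⌊x⌋₊ with hN
  have hNx : (N : ℝ) ≤ x := Nat.floor_le hx0.le
  have hxN : x < N + 1 := Nat.lt_floor_add_one x
  have hKc : 0 ≤ Kc := (norm_nonneg _).trans (hc 0 (Nat.zero_le _))
  have h1 : SS (c * z : ArithmeticFunction ℂ) g x χ =
      ∑ m ∈ Icc 1 N, c m * χ (m : ZMod q) / m *
        ∑ k ∈ Icc 1 (N / m), (FF A g x m k : ℂ) * χ (k : ZMod q) := by
    unfold SS
    rw [← hN]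
    have h2 : ∀ n ∈ Icc 1 N, (c * z : ArithmeticFunction ℂ) n * χ (n : ZMod q) *
        ((wt g x n : ℝ) : ℂ) = ∑ p ∈ n.divisorsAntidiagonal,
          c p.1 * z p.2 * χ ((p.1 * p.2 : ℕ) : ZMod q) * ((wt g x (p.1 * p.2) : ℝ) : ℂ) := by
      intro n _
      rw [ArithmeticFunction.mul_apply, Finset.sum_mul, Finset.sum_mul]
      refine Finset.sum_congr rfl fun p hp => ?_
      rw [(Nat.mem_divisorsAntidiagonal.1 hp).1]
    rw [Finset.sum_congr rfl h2, sum_antidiagonal
      (fun a b => c a * z b * χ ((a * b : ℕ) : ZMod q) * ((wt g x (a * b) : ℝ) : ℂ))]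
    refine Finset.sum_congr rfl fun m hm => ?_
    rw [Finset.mul_sum]
    refine Finset.sum_congr rfl fun k hk => ?_
    rw [hz k (Finset.mem_Icc.1 hk).1]
    unfold wt FF
    rw [Nat.cast_mul (α := ZMod q), map_mul]
    push_cast
    ring
  rw [h1]
  calc ‖∑ m ∈ Icc 1 N, c m * χ (m : ZMod q) / m *
        ∑ k ∈ Icc 1 (N / m), (FF A g x m k : ℂ) * χ (k : ZMod q)‖
      ≤ ∑ m ∈ Icc 1 N, ‖c m‖ * (4 * (2 * G + L) * q * Real.log x * x ^ (-η)) := by
        refine norm_sum_le_of_le _ fun m hm => ?_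
        rw [Finset.mem_Icc] at hm
        have hm0 : (0 : ℝ) < m := by exact_mod_cast hm.1
        rw [norm_mul, norm_div, norm_mul, Complex.norm_natCast]
        have h3 : FF A g x m (N / m + 1) = 0 := by
          apply FF_zero_of_ge hg hx
          have h4 : N + 1 ≤ m * (N / m + 1) := by
            have := Nat.lt_mul_div_succ N (by omega : 0 < m)
            simpa using this
          have h5 : ((N + 1 : ℕ) : ℝ) ≤ ((m * (N / m + 1) : ℕ) : ℝ) := by exact_mod_cast h4
          push_cast at h5 ⊢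
          linarith
        have h6 := abel_char hχ (FF A g x m) (N / m) h3
        have h7 := FF_total_var' (A := A) (m := m) hη hG hG0 hL0 hL hx hm.1 (N / m)
          (fun k hk => hA k (Finset.mem_Icc.1 hk).1 (le_trans (by
            exact_mod_cast (Finset.mem_Icc.1 hk).2.trans (Nat.div_le_self N m)) hNx))
          (fun k hk => hA' k (Finset.mem_Icc.1 hk).1)
        have h8 : ‖∑ k ∈ Icc 1 (N / m), (FF A g x m k : ℂ) * χ (k : ZMod q)‖ ≤
            q * ((2 * G + L) * Real.log x * (4 * m * x ^ (-η))) :=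
          h6.trans (mul_le_mul_of_nonneg_left h7 (Nat.cast_nonneg q))
        have h9 : ‖χ (m : ZMod q)‖ ≤ 1 := χ.norm_le_one _
        calc ‖c m‖ * ‖χ (m : ZMod q)‖ / m *
              ‖∑ k ∈ Icc 1 (N / m), (FF A g x m k : ℂ) * χ (k : ZMod q)‖
            ≤ ‖c m‖ * 1 / m * (q * ((2 * G + L) * Real.log x * (4 * m * x ^ (-η)))) := by
              gcongr
          _ = ‖c m‖ * (4 * (2 * G + L) * q * Real.log x * x ^ (-η)) := by
              field_simp
    _ = (∑ m ∈ Icc 1 N, ‖c m‖) * (4 * (2 * G + L) * q * Real.log x * x ^ (-η)) := by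
        rw [Finset.sum_mul]
    _ ≤ (M * Kc) * (4 * (2 * G + L) * q * Real.log x * x ^ (-η)) := by
        apply mul_le_mul_of_nonneg_right _ (by positivity)
        calc ∑ m ∈ Icc 1 N, ‖c m‖ = ∑ m ∈ (Icc 1 N).filter (fun m => m ≤ M), ‖c m‖ := by
              symm
              apply Finset.sum_filter_of_ne
              intro m _ hne
              by_contra hcon
              push Not at hcon
              apply hne
              rw [hc0 m hcon, norm_zero]
          _ ≤ ∑ m ∈ Icc 1 M, Kc := by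
              refine (Finset.sum_le_sum_of_subset_of_nonneg (t := Icc 1 M) ?_ ?_).trans ?_
              · intro m hm
                rw [Finset.mem_filter, Finset.mem_Icc] at hm
                rw [Finset.mem_Icc]
                exact ⟨hm.1.1, hm.2⟩
              · intro m _ _
                exact norm_nonneg _
              · exact Finset.sum_le_sum fun m hm => hc m (Finset.mem_Icc.1 hm).2
          _ = M * Kc := by simp
    _ = (4 * (2 * G + L)) * q * M * Kc * Real.log x * x ^ (-η) := by ring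

theorem typeOneE : TypeOneE := by
  intro g hg η _ _ hη
  obtain ⟨G, hG0, hG⟩ := IsWt_bdd hg
  obtain ⟨L, hL0, hL⟩ := IsWt_lip hg
  refine ⟨4 * (2 * G + L), by positivity, ?_⟩
  intro x hx q _ χ hχ M c Kc hc hc0
  have hlog1 : 1 ≤ Real.log x := by
    rw [Real.le_log_iff_exp_le (by linarith)]
    exact (Real.exp_one_lt_d9.le.trans (by norm_num)).trans hx
  constructor
  · refine typeOne_aux' hg hη hG hG0 hL0 hL hx hχ M c zeC Kc hc hc0 (fun _ => 1) ?_ ?_ ?_
    · intro k hk
      have hk0 : k ≠ 0 := by omega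
      simp [zeC, ArithmeticFunction.zeta_apply, hk0]
    · intro k _ _
      simpa using hlog1
    · intro k _
      simp
  · refine typeOne_aux' hg hη hG hG0 hL0 hL hx hχ M c (D zeC) Kc hc hc0 (fun k => Real.log k) ?_ ?_ ?_
    · intro k hk
      have hk0 : k ≠ 0 := by omega
      rw [D_apply]
      simp [zeC, ArithmeticFunction.zeta_apply, hk0]
    · intro k hk hkx
      have hk0 : (1 : ℝ) ≤ k := by exact_mod_cast hk
      rw [abs_of_nonneg (Real.log_nonneg hk0)]
      exact Real.log_le_log (by linarith) hkx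
    · intro k hk
      have hk0 : (1 : ℝ) ≤ k := by exact_mod_cast hk
      have h1 : Real.log ((k + 1 : ℕ) : ℝ) - Real.log k = Real.log (1 + 1 / k) := by
        rw [← Real.log_div (by positivity) (by positivity)]
        congr 1
        push_cast
        field_simp
      have h2 : 0 ≤ Real.log (1 + 1 / (k : ℝ)) := Real.log_nonneg (by
        have : 0 < 1 / (k : ℝ) := by positivity
        linarith)
      have h3 := Real.log_le_sub_one_of_pos (show 0 < 1 + 1 / (k : ℝ) by positivity)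
      rw [h1, abs_of_nonneg h2]
      linarith

end Pool.Agent.Helper18.CA
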