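import Pool.Agent.Helper18.CA.St
import Pool.Agent.Helper96.BV.TypeTwo
import Pool.Agent.Helper51.BV.Average

/-!
# Project CA: Type II sums, level `1/2`
-/

set_option autoImplicit false

open Finset Filter Topology

namespace Pool.Agent.Helper18.CA

open Pool.Agent.Helper18.BV Pool.Agent.Helper96.BV

/-- Linear forms over a finite set. -/
noncomputable def FS (a : ℕ → ℂ) (l : ℝ) (S : Finset ℕ) (x : Σ q : ℕ, DirichletCharacter ℂ q)
    (t : ℝ) : ℂ :=
  ∑ m ∈ S, (a m * uu l m t) * x.2 (m : ZMod x.1) / m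

theorem continuous_FS (a : ℕ → ℂ) (l : ℝ) (S : Finset ℕ) (x : Σ q : ℕ, DirichletCharacter ℂ q) :
    Continuous (FS a l S x) := by
  unfold FS
  refine continuous_finsetSum _ (fun m _ => ?_)
  have := continuous_uu l m
  fun_prop

theorem norm_FS_le (a : ℕ → ℂ) (l : ℝ) (S : Finset ℕ) (x : Σ q : ℕ, DirichletCharacter ℂ q)
    (t : ℝ) : ‖FS a l S x t‖ ≤ ∑ m ∈ S, ‖a m‖ / m := by
  unfold FS
  refine (norm_sum_le _ _).trans (Finset.sum_le_sum (fun m _ => ?_))
  rw [norm_div, norm_mul, norm_mul, norm_uu, mul_one, Complex.norm_natCast]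
  apply div_le_div_of_nonneg_right _ (Nat.cast_nonneg m)
  have := x.2.norm_le_one (m : ZMod x.1)
  nlinarith [norm_nonneg (a m)]

/-- Integral representation of a double sum. -/
theorem int_rep {g : ℝ → ℝ} {h : ℝ → ℂ} (hc : Continuous h) (hinth : MeasureTheory.Integrable h)
    (hrep : ∀ v : ℝ, (g v : ℂ) = ∫ t : ℝ, h t * Complex.exp (t * v * Complex.I))
    (x : ℝ) (a b : ℕ → ℂ) (S T : Finset ℕ) (hS : ∀ d ∈ S, 0 < d) (hT : ∀ d ∈ T, 0 < d)
    (y : Σ q : ℕ, DirichletCharacter ℂ q) :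
    ∑ d ∈ S, ∑ e ∈ T, a d * b e * (y.2 (d : ZMod y.1) * y.2 (e : ZMod y.1)) *
        (wt g x (d * e) : ℂ) =
      ∫ t, h t * (FS a (Real.log x) S y t * FS b (Real.log x) T y t) := by
  set l := Real.log x with hl
  have h3 : ∀ d ∈ S, ∀ e ∈ T, a d * b e *
      (y.2 (d : ZMod y.1) * y.2 (e : ZMod y.1)) * (wt g x (d * e) : ℂ) =
      ∫ t, h t * ((a d * uu l d t) * y.2 (d : ZMod y.1) / d *
        ((b e * uu l e t) * y.2 (e : ZMod y.1) / e)) := by
    intro d hd e he
    have hd0 : (d : ℝ) ≠ 0 := by exact_mod_cast (hS d hd).ne'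
    have he0 : (e : ℝ) ≠ 0 := by exact_mod_cast (hT e he).ne'
    have h4 : (wt g x (d * e) : ℂ) = (∫ t : ℝ, h t * (uu l d t * uu l e t)) / (d * e) := by
      unfold wt
      push_cast
      rw [hrep]
      congr 1
      refine MeasureTheory.integral_congr_ae (Filter.Eventually.of_forall (fun t => ?_))
      simp only
      congr 1
      unfold uu
      rw [← Complex.exp_add]
      congr 1
      push_cast
      rw [Real.log_mul hd0 he0]
      push_cast
      ring
    rw [h4]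
    rw [mul_div_assoc', ← MeasureTheory.integral_const_mul, ← MeasureTheory.integral_div]
    refine MeasureTheory.integral_congr_ae (Filter.Eventually.of_forall (fun t => ?_))
    simp only
    ring
  have hint2 : ∀ d e : ℕ, MeasureTheory.Integrable (fun t => h t *
      ((a d * uu l d t) * y.2 (d : ZMod y.1) / d *
        ((b e * uu l e t) * y.2 (e : ZMod y.1) / e))) := by
    intro d e
    have h5 : MeasureTheory.Integrable (fun t => (a d * y.2 (d : ZMod y.1) / d *
        (b e * y.2 (e : ZMod y.1) / e)) * (h t * (uu l d t * uu l e t))) := by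
      apply MeasureTheory.Integrable.const_mul
      refine MeasureTheory.Integrable.mono hinth ?_ ?_
      · have := continuous_uu l d
        have := continuous_uu l e
        exact (by fun_prop : Continuous (fun t => h t * (uu l d t * uu l e t))).aestronglyMeasurable
      · refine Filter.Eventually.of_forall (fun t => ?_)
        rw [norm_mul, norm_mul, norm_uu, norm_uu]
        simp
    refine h5.congr (Filter.Eventually.of_forall (fun t => ?_))
    simp only
    ring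
  rw [Finset.sum_congr rfl (fun d hd => Finset.sum_congr rfl (fun e he => h3 d hd e he))]
  rw [Finset.sum_congr rfl (fun d _ =>
    (MeasureTheory.integral_finsetSum T (fun e _ => hint2 d e)).symm)]
  rw [← MeasureTheory.integral_finsetSum]
  · refine MeasureTheory.integral_congr_ae (Filter.Eventually.of_forall (fun t => ?_))
    simp only
    unfold FS
    rw [Finset.sum_mul_sum, Finset.mul_sum]
    refine Finset.sum_congr rfl (fun d _ => ?_)
    rw [Finset.mul_sum]
  · intro d _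
    exact MeasureTheory.integrable_finsetSum _ (fun e _ => hint2 d e)

/-- A dyadic block. -/
def Bl (N i : ℕ) : Finset ℕ := (Icc 1 N).filter (fun n => Nat.log 2 n = i)

theorem mem_Bl {N i n : ℕ} : n ∈ Bl N i ↔ (1 ≤ n ∧ n ≤ N) ∧ Nat.log 2 n = i := by
  unfold Bl
  rw [Finset.mem_filter, Finset.mem_Icc]

theorem Bl_bounds {N i n : ℕ} (h : n ∈ Bl N i) : 2 ^ i ≤ n ∧ n < 2 ^ (i + 1) := by
  rw [mem_Bl] at h
  obtain ⟨⟨h1, _⟩, h2⟩ := h
  constructor
  · rw [← h2]; exact Nat.pow_log_le_self 2 (by omega)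
  · rw [← h2]; exact Nat.lt_pow_succ_log_self (by norm_num) n

theorem card_Bl_le (N i : ℕ) : (Bl N i).card ≤ 2 ^ i := by
  have h : Bl N i ⊆ Ico (2 ^ i) (2 ^ (i + 1)) := by
    intro n hn
    exact Finset.mem_Ico.2 (Bl_bounds hn)
  refine (Finset.card_le_card h).trans (le_of_eq ?_)
  rw [Nat.card_Ico, pow_succ]
  omega

theorem sum_Bl {α : Type*} [AddCommMonoid α] (N : ℕ) (f : ℕ → α) :
    ∑ n ∈ Icc 1 N, f n = ∑ i ∈ range (Nat.log 2 N + 1), ∑ n ∈ Bl N i, f n := by
  unfold Bl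
  rw [Finset.sum_fiberwise_of_maps_to]
  intro n hn
  rw [Finset.mem_Icc] at hn
  rw [Finset.mem_range]
  have := Nat.log_mono_right (b := 2) hn.2
  omega

/-- The large sieve on a dyadic block. -/
theorem mls_block {C : ℝ} (hC : 0 < C) (hM : ∀ (Q N : ℕ) (a : ℕ → ℂ),
    ∑ q ∈ Icc 1 Q, ((q : ℝ) / q.totient) * ∑ χ ∈ prim q,
      ‖∑ n ∈ Icc 1 N, a n * χ (n : ZMod q)‖ ^ 2 ≤ C * ((N : ℝ) + (Q : ℝ) ^ 2) *
        ∑ n ∈ Icc 1 N, ‖a n‖ ^ 2) (N i k : ℕ) (a : ℕ → ℂ) (l K : ℝ)
    (ha : ∀ n ∈ Bl N i, ‖a n‖ ≤ K) (t : ℝ) :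
    ∑ y ∈ (Icc 1 (2 ^ (k + 1))).sigma (fun q => prim q), ((y.1 : ℝ) / y.1.totient) *
      ‖FS a l (Bl N i) y t‖ ^ 2 ≤ C * K ^ 2 * (2 * (1 + 2 ^ k / Real.sqrt (2 ^ i))) ^ 2 := by
  classical
  set α : ℕ → ℂ := fun n => if n ∈ Bl N i then a n * uu l n t / n else 0 with hα
  have h1 := hM (2 ^ (k + 1)) (2 ^ (i + 1)) α
  have hsub : Bl N i ⊆ Icc 1 (2 ^ (i + 1)) := by
    intro n hn
    have h2 := Bl_bounds hn
    have h3 := (mem_Bl.1 hn).1
    exact Finset.mem_Icc.2 ⟨h3.1, h2.2.le⟩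
  have h2 : ∀ (q : ℕ) (χ : DirichletCharacter ℂ q),
      ∑ n ∈ Icc 1 (2 ^ (i + 1)), α n * χ (n : ZMod q) = FS a l (Bl N i) ⟨q, χ⟩ t := by
    intro q χ
    unfold FS
    rw [← Finset.sum_subset hsub]
    · refine Finset.sum_congr rfl fun n hn => ?_
      simp only [hα]
      rw [if_pos hn]
      ring
    · intro n _ hn
      simp only [hα]
      rw [if_neg hn, zero_mul]
  have h3 : ∑ n ∈ Icc 1 (2 ^ (i + 1)), ‖α n‖ ^ 2 ≤ K ^ 2 / 2 ^ i := by
    have h4 : ∑ n ∈ Icc 1 (2 ^ (i + 1)), ‖α n‖ ^ 2 = ∑ n ∈ Bl N i, ‖α n‖ ^ 2 := by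
      symm
      refine Finset.sum_subset hsub ?_
      intro n _ hn
      simp only [hα]
      rw [if_neg hn]
      simp
    rw [h4]
    have h5 : ∀ n ∈ Bl N i, ‖α n‖ ^ 2 ≤ K ^ 2 / (2 ^ i) ^ 2 := by
      intro n hn
      simp only [hα]
      rw [if_pos hn, norm_div, norm_mul, norm_uu, mul_one, Complex.norm_natCast, div_pow]
      have h6 := (Bl_bounds hn).1
      have h7 : ((2 : ℝ) ^ i) ≤ n := by exact_mod_cast h6
      have h8 : (0 : ℝ) < 2 ^ i := by positivity
      apply div_le_div₀ (by positivity)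
      · exact pow_le_pow_left₀ (norm_nonneg _) (ha n hn) 2
      · positivity
      · exact pow_le_pow_left₀ h8.le h7 2
    refine (Finset.sum_le_card_nsmul _ _ _ h5).trans ?_
    rw [nsmul_eq_mul]
    have h6 : ((Bl N i).card : ℝ) ≤ 2 ^ i := by exact_mod_cast card_Bl_le N i
    calc ((Bl N i).card : ℝ) * (K ^ 2 / (2 ^ i) ^ 2) ≤ 2 ^ i * (K ^ 2 / (2 ^ i) ^ 2) :=
          mul_le_mul_of_nonneg_right h6 (by positivity)
      _ = K ^ 2 / 2 ^ i := by field_simp
  rw [Finset.sum_sigma]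
  simp only [h2] at h1
  have h4 : ∑ q ∈ (Icc 1 (2 ^ (k + 1)) : Finset ℕ), ∑ χ ∈ prim q, ((q : ℝ) / q.totient) *
      ‖FS a l (Bl N i) ⟨q, χ⟩ t‖ ^ 2 =
      ∑ q ∈ (Icc 1 (2 ^ (k + 1)) : Finset ℕ), ((q : ℝ) / q.totient) *
      ∑ χ ∈ prim q, ‖FS a l (Bl N i) ⟨q, χ⟩ t‖ ^ 2 := by
    refine Finset.sum_congr rfl fun q _ => ?_
    rw [Finset.mul_sum]
  refine (le_of_eq h4).trans (h1.trans ?_)
  have hD : (0 : ℝ) < 2 ^ i := by positivity
  have hs : 0 < Real.sqrt (2 ^ i) := Real.sqrt_pos.2 hD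
  have hss : Real.sqrt (2 ^ i) ^ 2 = 2 ^ i := Real.sq_sqrt hD.le
  push_cast
  calc C * ((2 : ℝ) ^ (i + 1) + (2 ^ (k + 1)) ^ 2) * ∑ n ∈ Icc 1 (2 ^ (i + 1)), ‖α n‖ ^ 2
      ≤ C * ((2 : ℝ) ^ (i + 1) + (2 ^ (k + 1)) ^ 2) * (K ^ 2 / 2 ^ i) :=
        mul_le_mul_of_nonneg_left h3 (by positivity)
    _ = C * K ^ 2 * (2 + 4 * (2 ^ k / Real.sqrt (2 ^ i)) ^ 2) := by
        rw [div_pow, hss, pow_succ, pow_succ]
        field_simp
        ring
    _ ≤ C * K ^ 2 * (2 * (1 + 2 ^ k / Real.sqrt (2 ^ i))) ^ 2 := by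
        apply mul_le_mul_of_nonneg_left _ (by positivity)
        have : 0 ≤ 2 ^ k / Real.sqrt (2 ^ i) := by positivity
        nlinarith

/-- Cauchy-Schwarz and the large sieve for two dyadic blocks. -/
theorem two_blocks {C : ℝ} (hC : 0 < C) (hM : ∀ (Q N : ℕ) (a : ℕ → ℂ),
    ∑ q ∈ Icc 1 Q, ((q : ℝ) / q.totient) * ∑ χ ∈ prim q,
      ‖∑ n ∈ Icc 1 N, a n * χ (n : ZMod q)‖ ^ 2 ≤ C * ((N : ℝ) + (Q : ℝ) ^ 2) *
        ∑ n ∈ Icc 1 N, ‖a n‖ ^ 2) (N i j k : ℕ) (a b : ℕ → ℂ) (l K : ℝ) (hK : 0 ≤ K)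
    (ha : ∀ n ∈ Bl N i, ‖a n‖ ≤ 1) (hb : ∀ n ∈ Bl N j, ‖b n‖ ≤ K) (t : ℝ)
    (S : Finset ℕ) (hS : ∀ q ∈ S, 2 ^ k ≤ q ∧ q < 2 ^ (k + 1)) :
    ∑ y ∈ S.sigma (fun q => prim q), (1 / (y.1.totient : ℝ)) *
      (‖FS a l (Bl N i) y t‖ * ‖FS b l (Bl N j) y t‖) ≤ 4 * C * K *
        (1 / 2 ^ k + 1 / Real.sqrt (2 ^ i) + 1 / Real.sqrt (2 ^ j) +
          2 ^ k / (Real.sqrt (2 ^ i) * Real.sqrt (2 ^ j))) := by
  set X : Finset (Σ q : ℕ, DirichletCharacter ℂ q) :=
    (Icc 1 (2 ^ (k + 1))).sigma (fun q => prim q) with hX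
  set F : (Σ q : ℕ, DirichletCharacter ℂ q) → ℝ := fun y => ‖FS a l (Bl N i) y t‖ with hF
  set G : (Σ q : ℕ, DirichletCharacter ℂ q) → ℝ := fun y => ‖FS b l (Bl N j) y t‖ with hG
  set R : ℝ := 2 ^ k with hR
  have hR0 : 0 < R := by positivity
  set D : ℝ := Real.sqrt (2 ^ i) with hD
  set E : ℝ := Real.sqrt (2 ^ j) with hE
  have hD0 : 0 < D := Real.sqrt_pos.2 (by positivity)
  have hE0 : 0 < E := Real.sqrt_pos.2 (by positivity)
  have h1 : ∑ y ∈ X, ((y.1 : ℝ) / y.1.totient) * F y ^ 2 ≤ C * 1 ^ 2 * (2 * (1 + R / D)) ^ 2 :=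
    mls_block hC hM N i k a l 1 ha t
  have h2 : ∑ y ∈ X, ((y.1 : ℝ) / y.1.totient) * G y ^ 2 ≤ C * K ^ 2 * (2 * (1 + R / E)) ^ 2 :=
    mls_block hC hM N j k b l K hb t
  have h3 : ∑ y ∈ X, ((y.1 : ℝ) / y.1.totient) * (F y * G y) ≤
      4 * C * K * (1 + R / D) * (1 + R / E) := by
    have h4 := Finset.sum_mul_sq_le_sq_mul_sq X (fun y => Real.sqrt ((y.1 : ℝ) / y.1.totient) * F y)
      (fun y => Real.sqrt ((y.1 : ℝ) / y.1.totient) * G y)
    have e1 : ∀ y : (Σ q : ℕ, DirichletCharacter ℂ q),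
        (Real.sqrt ((y.1 : ℝ) / y.1.totient) * F y) * (Real.sqrt ((y.1 : ℝ) / y.1.totient) * G y) =
        ((y.1 : ℝ) / y.1.totient) * (F y * G y) := by
      intro y
      have : Real.sqrt ((y.1 : ℝ) / y.1.totient) * Real.sqrt ((y.1 : ℝ) / y.1.totient) =
          (y.1 : ℝ) / y.1.totient := Real.mul_self_sqrt (by positivity)
      calc _ = (Real.sqrt ((y.1 : ℝ) / y.1.totient) * Real.sqrt ((y.1 : ℝ) / y.1.totient)) *
            (F y * G y) := by ring
        _ = _ := by rw [this]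
    have e2 : ∀ (H : (Σ q : ℕ, DirichletCharacter ℂ q) → ℝ) (y : (Σ q : ℕ, DirichletCharacter ℂ q)),
        (Real.sqrt ((y.1 : ℝ) / y.1.totient) * H y) ^ 2 = ((y.1 : ℝ) / y.1.totient) * H y ^ 2 := by
      intro H y
      rw [mul_pow, Real.sq_sqrt (by positivity)]
    simp only [e1, e2] at h4
    have h5 : (∑ y ∈ X, ((y.1 : ℝ) / y.1.totient) * (F y * G y)) ^ 2 ≤
        (4 * C * K * (1 + R / D) * (1 + R / E)) ^ 2 := by
      refine h4.trans ?_
      calc _ ≤ (C * 1 ^ 2 * (2 * (1 + R / D)) ^ 2) * (C * K ^ 2 * (2 * (1 + R / E)) ^ 2) :=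
            mul_le_mul h1 h2 (Finset.sum_nonneg (fun _ _ => by positivity)) (by positivity)
        _ = _ := by ring
    have h6 := abs_le_of_sq_le_sq h5 (by positivity)
    exact (le_abs_self _).trans h6
  have hFG : ∀ y, 0 ≤ F y * G y := fun y => mul_nonneg (norm_nonneg _) (norm_nonneg _)
  calc ∑ y ∈ S.sigma (fun q => prim q), (1 / (y.1.totient : ℝ)) * (F y * G y)
      ≤ ∑ y ∈ S.sigma (fun q => prim q), (1 / R) * (((y.1 : ℝ) / y.1.totient) * (F y * G y)) := by
        refine Finset.sum_le_sum fun y hy => ?_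
        rw [Finset.mem_sigma] at hy
        have h7 := (hS _ hy.1).1
        have h8 : R ≤ y.1 := by rw [hR]; exact_mod_cast h7
        have h9 : 1 / (y.1.totient : ℝ) ≤ (1 / R) * ((y.1 : ℝ) / y.1.totient) := by
          have h10 : (1 : ℝ) ≤ y.1 / R := (one_le_div hR0).2 h8
          calc 1 / (y.1.totient : ℝ) ≤ (y.1 / R) / (y.1.totient : ℝ) :=
                div_le_div_of_nonneg_right h10 (Nat.cast_nonneg _)
            _ = _ := by ring
        calc (1 / (y.1.totient : ℝ)) * (F y * G y) ≤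
              ((1 / R) * ((y.1 : ℝ) / y.1.totient)) * (F y * G y) :=
              mul_le_mul_of_nonneg_right h9 (hFG y)
          _ = _ := by ring
    _ ≤ ∑ y ∈ X, (1 / R) * (((y.1 : ℝ) / y.1.totient) * (F y * G y)) := by
        refine Finset.sum_le_sum_of_subset_of_nonneg ?_ ?_
        · rw [hX]
          refine Finset.sigma_mono ?_ (fun _ => le_rfl)
          intro q hq
          have := hS q hq
          have h9 : 0 < 2 ^ k := by positivity
          exact Finset.mem_Icc.2 ⟨by omega, this.2.le⟩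
        · intro y _ _
          have := hFG y
          positivity
    _ = (1 / R) * ∑ y ∈ X, ((y.1 : ℝ) / y.1.totient) * (F y * G y) := by rw [Finset.mul_sum]
    _ ≤ (1 / R) * (4 * C * K * (1 + R / D) * (1 + R / E)) :=
        mul_le_mul_of_nonneg_left h3 (by positivity)
    _ = 4 * C * K * (1 / R + 1 / D + 1 / E + R / (D * E)) := by
        field_simp
        ring

/-- Type II sums, level `1/2`. -/
theorem typeTwoE (h1 : MLS) (h2 : FourierRep) : TypeTwoE := by
  classical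
  obtain ⟨C, hC, hM⟩ := h1
  intro g hg
  have hcs : HasCompactSupport g :=
    IsCompact.of_isClosed_subset isCompact_Icc (isClosed_tsupport _)
      (hg.supp.trans Set.Ioo_subset_Icc_self)
  obtain ⟨h, hc, hint, hrep⟩ := h2 g hg.smooth hcs
  have hint0 : MeasureTheory.Integrable (fun t : ℝ => ‖h t‖) := by
    have := hint 0
    simpa using this
  have hinth : MeasureTheory.Integrable h := by
    rwa [MeasureTheory.integrable_norm_iff hc.aestronglyMeasurable] at hint0
  set H : ℝ := ∫ t, ‖h t‖ with hH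
  have hH0 : 0 ≤ H := MeasureTheory.integral_nonneg (fun t => norm_nonneg _)
  refine ⟨27 * (H * (12 * C)) + 1, by positivity, ?_⟩
  intro η hη0 hη1 hη x hx Q0 Q U hQ0 hU hQx a b ha hb ha1 hb1
  set N := ⌊x⌋₊ with hN
  set l := Real.log x with hl
  have hx0 : 0 < x := by linarith
  have hl1 : 1 ≤ l := by
    rw [hl, Real.le_log_iff_exp_le (by linarith)]
    have := Real.exp_one_lt_d9
    linarith
  have hNx : (N : ℝ) ≤ x := Nat.floor_le (by linarith)
  have hJ : ((Nat.log 2 N : ℕ) : ℝ) ≤ 2 * l := Helper51.BV.natlog_le hx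
  have hQN : Q ≤ N := Nat.le_floor hQx
  have hK : ((Nat.log 2 Q : ℕ) : ℝ) ≤ 2 * l := by
    refine le_trans ?_ hJ
    exact_mod_cast Nat.log_mono_right hQN
  set J := Nat.log 2 N + 1 with hJdef
  -- the error term
  set Er : ℝ := 1 / (Q0 : ℝ) + 1 / Real.sqrt U + (Q : ℝ) * x ^ (-(η / 2)) with hEr
  have hEr0 : 0 ≤ Er := by positivity
  -- the pieces
  set T : ℕ → ℕ → (Σ q : ℕ, DirichletCharacter ℂ q) → ℂ := fun i j y =>
    ∑ d ∈ Bl N i, ∑ e ∈ Bl N j, a d * b e *
        (y.2 (d : ZMod y.1) * y.2 (e : ZMod y.1)) * (wt g x (d * e) : ℂ) with hT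
  have hSS : ∀ y : (Σ q : ℕ, DirichletCharacter ℂ q), SS (a * b : ArithmeticFunction ℂ) g x y.2 =
      ∑ i ∈ range J, ∑ j ∈ range J, T i j y := by
    intro y
    rw [SS_mul hg hx, sum_Bl]
    refine Finset.sum_congr rfl fun i _ => ?_
    simp only [hT]
    symm
    rw [Finset.sum_comm]
    refine Finset.sum_congr rfl fun d _ => ?_
    rw [sum_Bl]
  have hSSn : ∀ y : (Σ q : ℕ, DirichletCharacter ℂ q),
      ‖SS (a * b : ArithmeticFunction ℂ) g x y.2‖ ≤
      ∑ i ∈ range J, ∑ j ∈ range J, ‖T i j y‖ := by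
    intro y
    rw [hSS]
    refine (norm_sum_le _ _).trans (Finset.sum_le_sum fun i _ => norm_sum_le _ _)
  -- vanishing pieces
  have hTz : ∀ i j, ¬ (U < 2 ^ (i + 1) ∧ U < 2 ^ (j + 1) ∧ x ^ η < 2 ^ (i + 1) * 2 ^ (j + 1)) →
      ∀ y, T i j y = 0 := by
    intro i j hij y
    simp only [hT]
    refine Finset.sum_eq_zero fun d hd => Finset.sum_eq_zero fun e he => ?_
    have hd' := Bl_bounds hd
    have he' := Bl_bounds he
    have hd0 : 1 ≤ d := (mem_Bl.1 hd).1.1
    have he0 : 1 ≤ e := (mem_Bl.1 he).1.1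
    by_cases c1 : U < 2 ^ (i + 1)
    · by_cases c2 : U < 2 ^ (j + 1)
      · have c3 : (2 : ℝ) ^ (i + 1) * 2 ^ (j + 1) ≤ x ^ η := by
          by_contra hcon
          exact hij ⟨c1, c2, not_le.1 hcon⟩
        have h4 : wt g x (d * e) = 0 := by
          unfold wt
          rw [hη, zero_div]
          rw [div_le_iff₀ (by linarith), ← hl, hl, ← Real.log_rpow hx0]
          have h5 : 1 ≤ d * e := Nat.mul_pos hd0 he0
          apply Real.log_le_log (by exact_mod_cast h5)
          have h6 : d * e ≤ 2 ^ (i + 1) * 2 ^ (j + 1) := Nat.mul_le_mul hd'.2.le he'.2.le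
          refine le_trans ?_ c3
          exact_mod_cast h6
        rw [h4]
        simp
      · rw [hb e (by omega)]
        simp
    · rw [ha d (by omega)]
      simp
  -- one block of moduli and one pair of blocks
  have hmain : ∀ k i j, ∑ y ∈ ((Ioc Q0 Q).filter (fun q => Nat.log 2 q = k)).sigma
      (fun q => prim q), (1 / (y.1.totient : ℝ)) * ‖T i j y‖ ≤ H * (12 * C * l * Er) := by
    intro k i j
    set S := (Ioc Q0 Q).filter (fun q => Nat.log 2 q = k) with hS
    by_cases hij : U < 2 ^ (i + 1) ∧ U < 2 ^ (j + 1) ∧ x ^ η < 2 ^ (i + 1) * 2 ^ (j + 1)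
    swap
    · have h5 := hTz i j hij
      rw [Finset.sum_eq_zero (fun y _ => by rw [h5 y]; simp)]
      positivity
    rcases S.eq_empty_or_nonempty with hSe | hSne
    · rw [hSe]
      have : ((∅ : Finset ℕ).sigma (fun q => prim q)) = ∅ := by
        ext y; simp
      rw [this, Finset.sum_empty]
      positivity
    have hSk : ∀ q ∈ S, 2 ^ k ≤ q ∧ q < 2 ^ (k + 1) := by
      intro q hq
      rw [hS, Finset.mem_filter, Finset.mem_Ioc] at hq
      constructor
      · rw [← hq.2]; exact Nat.pow_log_le_self 2 (by omega)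
      · rw [← hq.2]; exact Nat.lt_pow_succ_log_self (by norm_num) q
    obtain ⟨c1, c2, c3⟩ := hij
    -- bound for the geometric quantity
    have hgeo : 4 * C * l * (1 / 2 ^ k + 1 / Real.sqrt (2 ^ i) + 1 / Real.sqrt (2 ^ j) +
          2 ^ k / (Real.sqrt (2 ^ i) * Real.sqrt (2 ^ j))) ≤ 12 * C * l * Er := by
      obtain ⟨q, hq⟩ := hSne
      have hqk := hSk q hq
      have hqS : Q0 < q ∧ q ≤ Q := Finset.mem_Ioc.1 (Finset.mem_filter.1 hq).1
      have hQ00 : (0 : ℝ) < Q0 := by exact_mod_cast hQ0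
      have hU0 : (0 : ℝ) < U := by exact_mod_cast hU
      have hsU : 0 < Real.sqrt U := Real.sqrt_pos.2 hU0
      -- first
      have g1 : 1 / (2 : ℝ) ^ k ≤ 2 * (1 / Q0) := by
        have h6 : (Q0 : ℝ) ≤ 2 * 2 ^ k := by
          have h7 : Q0 ≤ 2 ^ (k + 1) := by omega
          have h8 : (Q0 : ℝ) ≤ 2 ^ (k + 1) := by exact_mod_cast h7
          rw [pow_succ] at h8
          linarith
        rw [mul_one_div, div_le_div_iff₀ (by positivity) hQ00]
        linarith
      have g2 : ∀ i' : ℕ, U < 2 ^ (i' + 1) → 1 / Real.sqrt ((2 : ℝ) ^ i') ≤ (3 / 2) * (1 / Real.sqrt U) := by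
        intro i' hi'
        have h6 : (U : ℝ) ≤ 2 * 2 ^ i' := by
          have h8 : (U : ℝ) ≤ 2 ^ (i' + 1) := by exact_mod_cast hi'.le
          rw [pow_succ] at h8
          linarith
        have h7 : 0 < Real.sqrt ((2 : ℝ) ^ i') := Real.sqrt_pos.2 (by positivity)
        rw [mul_one_div, div_le_div_iff₀ h7 hsU, one_mul]
        have h8 : Real.sqrt U ≤ Real.sqrt ((3 / 2) ^ 2 * 2 ^ i') := by
          apply Real.sqrt_le_sqrt
          have : (0 : ℝ) < 2 ^ i' := by positivity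
          nlinarith
        rwa [Real.sqrt_mul (by norm_num), Real.sqrt_sq (by norm_num)] at h8
      have g3 : 2 ^ k / (Real.sqrt (2 ^ i) * Real.sqrt (2 ^ j)) ≤ 2 * ((Q : ℝ) * x ^ (-(η / 2))) := by
        have h6 : (2 : ℝ) ^ k ≤ Q := by
          have : 2 ^ k ≤ Q := hqk.1.trans hqS.2
          exact_mod_cast this
        have h7 : x ^ (η / 2) ≤ 2 * (Real.sqrt (2 ^ i) * Real.sqrt (2 ^ j)) := by
          have h8 : x ^ (η / 2) = Real.sqrt (x ^ η) := by
            rw [Real.sqrt_eq_rpow, ← Real.rpow_mul hx0.le]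
            congr 1
            ring
          rw [h8, ← Real.sqrt_mul (by positivity)]
          have h9 : (2 : ℝ) = Real.sqrt (2 ^ 2) := by rw [Real.sqrt_sq (by norm_num)]
          rw [h9, ← Real.sqrt_mul (by positivity)]
          apply Real.sqrt_le_sqrt
          rw [← h9]
          have h10 : (2 : ℝ) ^ (i + 1) * 2 ^ (j + 1) = 2 ^ 2 * (2 ^ i * 2 ^ j) := by ring
          linarith
        have h8 : 0 < x ^ (η / 2) := Real.rpow_pos_of_pos hx0 _
        have h9 : 0 < Real.sqrt ((2 : ℝ) ^ i) * Real.sqrt (2 ^ j) := by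
          have h10 : 0 < Real.sqrt ((2 : ℝ) ^ i) := Real.sqrt_pos.2 (by positivity)
          have h11 : 0 < Real.sqrt ((2 : ℝ) ^ j) := Real.sqrt_pos.2 (by positivity)
          positivity
        rw [Real.rpow_neg hx0.le, div_le_iff₀ h9]
        calc (2 : ℝ) ^ k ≤ Q := h6
          _ = (Q * (x ^ (η / 2))⁻¹) * x ^ (η / 2) := by field_simp
          _ ≤ (Q * (x ^ (η / 2))⁻¹) * (2 * (Real.sqrt (2 ^ i) * Real.sqrt (2 ^ j))) :=
              mul_le_mul_of_nonneg_left h7 (by positivity)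
          _ = _ := by ring
      have g4 := g2 i c1
      have g5 := g2 j c2
      have h6 : 1 / (2 : ℝ) ^ k + 1 / Real.sqrt (2 ^ i) + 1 / Real.sqrt (2 ^ j) +
          2 ^ k / (Real.sqrt (2 ^ i) * Real.sqrt (2 ^ j)) ≤ 3 * Er := by
        have h7 : 0 ≤ 1 / (Q0 : ℝ) := by positivity
        have h8 : 0 ≤ (Q : ℝ) * x ^ (-(η / 2)) := by positivity
        rw [hEr]
        linarith
      calc _ ≤ 4 * C * l * (3 * Er) := mul_le_mul_of_nonneg_left h6 (by positivity)
        _ = _ := by ring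
    have hpt : ∀ t, ∑ y ∈ S.sigma (fun q => prim q), (1 / (y.1.totient : ℝ)) *
      (‖FS a l (Bl N i) y t‖ * ‖FS b l (Bl N j) y t‖) ≤ 12 * C * l * Er := by
      intro t
      refine (two_blocks hC hM N i j k a b l l (by linarith) (fun n _ => ha1 n) ?_ t S hSk).trans
        hgeo
      intro n hn
      apply hb1
      have := (mem_Bl.1 hn).1.2
      have h6 : (n : ℝ) ≤ N := by exact_mod_cast this
      linarith
    have hintF : ∀ y, MeasureTheory.Integrable
        (fun t => ‖h t‖ * (‖FS a l (Bl N i) y t‖ * ‖FS b l (Bl N j) y t‖)) := by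
      intro y
      refine MeasureTheory.Integrable.mono' (hint0.mul_const
        ((∑ m ∈ Bl N i, ‖a m‖ / m) * (∑ m ∈ Bl N j, ‖b m‖ / m))) ?_ ?_
      · have := continuous_FS a l (Bl N i) y
        have := continuous_FS b l (Bl N j) y
        exact (by fun_prop : Continuous (fun t => ‖h t‖ *
          (‖FS a l (Bl N i) y t‖ * ‖FS b l (Bl N j) y t‖))).aestronglyMeasurable
      · refine Filter.Eventually.of_forall (fun t => ?_)
        rw [Real.norm_of_nonneg (by positivity)]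
        apply mul_le_mul_of_nonneg_left _ (norm_nonneg _)
        exact mul_le_mul (norm_FS_le _ _ _ _ _) (norm_FS_le _ _ _ _ _) (norm_nonneg _)
          (Finset.sum_nonneg (fun _ _ => by positivity))
    calc ∑ y ∈ S.sigma (fun q => prim q), (1 / (y.1.totient : ℝ)) * ‖T i j y‖
        ≤ ∑ y ∈ S.sigma (fun q => prim q), ∫ t, (1 / (y.1.totient : ℝ)) *
            (‖h t‖ * (‖FS a l (Bl N i) y t‖ * ‖FS b l (Bl N j) y t‖)) := by
          refine Finset.sum_le_sum (fun y _ => ?_)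
          simp only [hT]
          rw [int_rep hc hinth hrep x a b (Bl N i) (Bl N j) (fun d hd => (mem_Bl.1 hd).1.1)
            (fun d hd => (mem_Bl.1 hd).1.1) y, MeasureTheory.integral_const_mul]
          apply mul_le_mul_of_nonneg_left _ (by positivity)
          refine (MeasureTheory.norm_integral_le_integral_norm _).trans (le_of_eq ?_)
          refine MeasureTheory.integral_congr_ae (Filter.Eventually.of_forall (fun t => ?_))
          simp only
          rw [norm_mul, norm_mul]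
      _ = ∫ t, ∑ y ∈ S.sigma (fun q => prim q), (1 / (y.1.totient : ℝ)) *
            (‖h t‖ * (‖FS a l (Bl N i) y t‖ * ‖FS b l (Bl N j) y t‖)) :=
          (MeasureTheory.integral_finsetSum _ (fun y _ => (hintF y).const_mul _)).symm
      _ ≤ ∫ t, ‖h t‖ * (12 * C * l * Er) := by
          apply MeasureTheory.integral_mono
          · exact MeasureTheory.integrable_finsetSum _ (fun y _ => (hintF y).const_mul _)
          · exact hint0.mul_const _
          · intro t
            simp only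
            have h7 : ∑ y ∈ S.sigma (fun q => prim q), (1 / (y.1.totient : ℝ)) *
                (‖h t‖ * (‖FS a l (Bl N i) y t‖ * ‖FS b l (Bl N j) y t‖)) = ‖h t‖ *
                ∑ y ∈ S.sigma (fun q => prim q), (1 / (y.1.totient : ℝ)) *
                (‖FS a l (Bl N i) y t‖ * ‖FS b l (Bl N j) y t‖) := by
              rw [Finset.mul_sum]
              refine Finset.sum_congr rfl fun y _ => by ring
            rw [h7]
            exact mul_le_mul_of_nonneg_left (hpt t) (norm_nonneg _)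
      _ = H * (12 * C * l * Er) := by rw [MeasureTheory.integral_mul_const]
  -- summation
  have hfib : ∑ q ∈ Ioc Q0 Q, (1 / (q.totient : ℝ)) * ∑ χ ∈ prim q,
      ‖SS (a * b : ArithmeticFunction ℂ) g x χ‖ =
      ∑ k ∈ range (Nat.log 2 Q + 1), ∑ y ∈ ((Ioc Q0 Q).filter (fun q => Nat.log 2 q = k)).sigma
      (fun q => prim q), (1 / (y.1.totient : ℝ)) *
        ‖SS (a * b : ArithmeticFunction ℂ) g x y.2‖ := by
    rw [← Finset.sum_fiberwise_of_maps_to (s := Ioc Q0 Q) (t := range (Nat.log 2 Q + 1))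
      (g := fun q => Nat.log 2 q)]
    · refine Finset.sum_congr rfl fun k _ => ?_
      rw [Finset.sum_sigma]
      refine Finset.sum_congr rfl fun q _ => ?_
      rw [Finset.mul_sum]
    · intro q hq
      rw [Finset.mem_Ioc] at hq
      rw [Finset.mem_range]
      have := Nat.log_mono_right (b := 2) hq.2
      omega
  rw [hfib]
  calc _ ≤ ∑ k ∈ range (Nat.log 2 Q + 1), ∑ i ∈ range J, ∑ j ∈ range J, H * (12 * C * l * Er) := by
        refine Finset.sum_le_sum fun k _ => ?_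
        set X := ((Ioc Q0 Q).filter (fun q => Nat.log 2 q = k)).sigma (fun q => prim q) with hX
        calc ∑ y ∈ X, (1 / (y.1.totient : ℝ)) * ‖SS (a * b : ArithmeticFunction ℂ) g x y.2‖
            ≤ ∑ y ∈ X, ∑ i ∈ range J, ∑ j ∈ range J, (1 / (y.1.totient : ℝ)) * ‖T i j y‖ := by
              refine Finset.sum_le_sum fun y _ => ?_
              refine (mul_le_mul_of_nonneg_left (hSSn y) (by positivity)).trans (le_of_eq ?_)
              rw [Finset.mul_sum]
              refine Finset.sum_congr rfl fun i _ => ?_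
              rw [Finset.mul_sum]
          _ = ∑ i ∈ range J, ∑ j ∈ range J, ∑ y ∈ X, (1 / (y.1.totient : ℝ)) * ‖T i j y‖ := by
              rw [Finset.sum_comm]
              refine Finset.sum_congr rfl fun i _ => ?_
              rw [Finset.sum_comm]
          _ ≤ _ := Finset.sum_le_sum fun i _ => Finset.sum_le_sum fun j _ => hmain k i j
    _ = ((Nat.log 2 Q : ℕ) + 1 : ℝ) * ((J : ℝ) * ((J : ℝ) * (H * (12 * C * l * Er)))) := by
        rw [Finset.sum_const, Finset.sum_const, Finset.sum_const, Finset.card_range,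
          Finset.card_range]
        simp only [nsmul_eq_mul]
        push_cast
        ring
    _ ≤ (3 * l) * ((3 * l) * ((3 * l) * (H * (12 * C * l * Er)))) := by
        have hJ3 : (J : ℝ) ≤ 3 * l := by
          rw [hJdef]
          push_cast
          linarith
        have hQ3 : ((Nat.log 2 Q : ℕ) + 1 : ℝ) ≤ 3 * l := by linarith
        have hb0 : 0 ≤ H * (12 * C * l * Er) := by positivity
        gcongr
    _ = (27 * (H * (12 * C))) * l ^ 4 * Er := by ring
    _ ≤ (27 * (H * (12 * C)) + 1) * l ^ 4 * Er := by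
        have : 0 ≤ l ^ 4 * Er := by positivity
        nlinarith

end Pool.Agent.Helper18.CA
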