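import Pool.Agent.Helper18.CA.Large
import Pool.Agent.Helper18.CA.TypeOne
import Pool.Agent.Helper18.CA.TypeTwo
import Pool.Agent.Helper18.BV.Final
import Pool.Agent.Helper51.BV.Average
import Pool.Agent.Helper61.CA.MLS

/-!
# Project CA: primes in arithmetic progressions, level `1/2 - ε`
-/

set_option autoImplicit false

open Finset Filter Topology
open scoped ArithmeticFunction.vonMangoldt

namespace Pool.Agent.Helper18.CA

open Pool.Agent.Helper18.BV Pool.Agent.Helper51.BV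

theorem mls : MLS := by
  obtain ⟨C, hC, h⟩ := Helper61.CA.mls_finset
  refine ⟨C, hC, ?_⟩
  intro Q N a
  rcases Nat.eq_zero_or_pos Q with hQ | hQ
  · subst hQ
    simp only [Finset.Icc_eq_empty (by norm_num : ¬ 1 ≤ 0), Finset.sum_empty]
    have : 0 ≤ ∑ n ∈ Icc 1 N, ‖a n‖ ^ 2 := Finset.sum_nonneg fun _ _ => by positivity
    positivity
  · rcases Nat.eq_zero_or_pos N with hN | hN
    · subst hN
      simp
    · exact h Q N hQ hN (Icc 1 N) a (fun n hn => Finset.mem_Icc.1 hn)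

theorem EE_le' {g : ℝ → ℝ} (hg : IsWt g) {G : ℝ} (hG : ∀ v, g v ≤ G) (hG0 : 0 < G) {η : ℝ}
    (hη : ∀ v, v ≤ η → g v = 0) {x : ℝ} (hx : 3 ≤ x) (d : ℕ) (hd : 0 < d) :
    EE g x d ≤ d * (2 * Real.log x) * (Real.log x * (G / x ^ η)) := by
  have hx1 : 1 < x := by linarith
  have hlog : 0 < Real.log x := Real.log_pos hx1
  have hxs : 0 < x ^ η := Real.rpow_pos_of_pos (by linarith) _
  set T := (Icc 1 ⌊x⌋₊).filter (fun n => ¬ Nat.Coprime n d ∧ IsPrimePow n) with hT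
  have h1 : EE g x d = ∑ n ∈ T, Λ n * wt g x n := by
    unfold EE
    symm
    refine Finset.sum_subset ?_ ?_
    · intro n hn
      rw [hT, Finset.mem_filter] at hn
      exact Finset.mem_filter.mpr ⟨hn.1, hn.2.1⟩
    · intro n hn hn'
      rw [Finset.mem_filter] at hn
      have h2 : ¬ IsPrimePow n := fun h => hn' (by
        rw [hT]; exact Finset.mem_filter.mpr ⟨hn.1, hn.2, h⟩)
      rw [ArithmeticFunction.vonMangoldt_eq_zero_iff.mpr h2, zero_mul]
  have h2 : ∀ n ∈ T, Λ n * wt g x n ≤ Real.log x * (G / x ^ η) := by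
    intro n hn
    rw [hT, Finset.mem_filter, Finset.mem_Icc] at hn
    have hn1 : (1 : ℝ) ≤ n := by exact_mod_cast hn.1.1
    have hnx : (n : ℝ) ≤ x := (Nat.cast_le.mpr hn.1.2).trans (Nat.floor_le (by linarith))
    have hL : Λ n ≤ Real.log x := by
      refine (ArithmeticFunction.vonMangoldt_le_log (n := n)).trans ?_
      exact Real.log_le_log (by linarith) hnx
    have hw : wt g x n ≤ G / x ^ η := by
      by_cases h : (n : ℝ) ≤ x ^ η
      · have h3 : wt g x n = 0 := by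
          unfold wt
          rw [hη, zero_div]
          rw [div_le_iff₀ hlog, ← Real.log_rpow (by linarith)]
          exact Real.log_le_log (by linarith) h
        rw [h3]; positivity
      · rw [not_le] at h
        unfold wt
        exact div_le_div₀ hG0.le (hG _) hxs h.le
    exact mul_le_mul hL hw (wt_nonneg hg _ _) hlog.le
  rw [h1]
  refine (Finset.sum_le_sum h2).trans ?_
  rw [Finset.sum_const, nsmul_eq_mul]
  refine mul_le_mul_of_nonneg_right ?_ (by positivity)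
  have h3 : (T.card : ℝ) ≤ d.primeFactors.card * (Nat.log 2 ⌊x⌋₊ : ℕ) := by
    exact_mod_cast card_primePow_le ⌊x⌋₊ d hd
  have h4 : (d.primeFactors.card : ℝ) ≤ d := by exact_mod_cast card_primeFactors_le d
  refine h3.trans (mul_le_mul h4 (natlog_le hx) (Nat.cast_nonneg _) (Nat.cast_nonneg _))

theorem tw_one (f : ArithmeticFunction ℂ) : tw (1 : DirichletCharacter ℂ 1) f = f := by
  ext n
  rw [tw_apply, MulChar.one_apply (isUnit_of_subsingleton _), mul_one]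

theorem bvhalf (h1 : Small) (h2 : LargeTw) : BVhalf := by
  intro ε hε hε2 g hg hη A hA
  obtain ⟨G, hG0, hG⟩ := hg.exists_bound
  obtain ⟨B, C1, X1, hB, hC1, hX1, hL⟩ := h2 ε hε hε2 g hg hη (A + 2) (by linarith)
  obtain ⟨C2, X2, hC2, hX2, hS⟩ := h1 g hg (A + 2 + B) B (by linarith) hB
  have hev : ∀ᶠ x : ℝ in atTop, ‖Real.log x ^ (A + 2)‖ ≤ 1 * ‖x ^ ε‖ :=
    (isLittleO_log_rpow_rpow_atTop (A + 2) hε).bound one_pos
  obtain ⟨X3, hX3⟩ := Filter.eventually_atTop.mp hev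
  refine ⟨4 * (C1 + C2) + 2 * G, max (max X1 X2) X3, by positivity,
    hX1.trans ((le_max_left _ _).trans (le_max_left _ _)), ?_⟩
  intro x hx c hc
  have hx1 : X1 ≤ x := ((le_max_left _ _).trans (le_max_left _ _)).trans hx
  have hx2 : X2 ≤ x := ((le_max_right _ _).trans (le_max_left _ _)).trans hx
  have hx3 : X3 ≤ x := (le_max_right _ _).trans hx
  have h3x : 3 ≤ x := hX1.trans hx1
  have hx0 : 0 < x := by linarith
  set l : ℝ := Real.log x with hl
  have hl1 : 1 ≤ l := by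
    rw [hl, Real.le_log_iff_exp_le hx0]
    linarith [Real.exp_one_lt_d9]
  have hl0 : 0 < l := by linarith
  set D : ℕ := ⌊x ^ (1 / 2 - ε)⌋₊ with hD
  have hDx : (D : ℝ) ≤ x ^ (1 / 2 - ε) := Nat.floor_le (Real.rpow_nonneg hx0.le _)
  -- the large conductors
  have hLx : ∑ q ∈ Ioc ⌊l ^ B⌋₊ D, (1 / (q.totient : ℝ)) * ∑ ψ ∈ prim q, ‖SS LaC g x ψ‖ ≤
      C1 / l ^ (A + 2) := by
    have h5 := hL x hx1 1 (1 : DirichletCharacter ℂ 1) (by
      rw [Nat.cast_one]
      exact Real.one_le_rpow (by linarith) (by positivity))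
    rw [Finset.filter_true_of_mem (fun q _ => Nat.coprime_one_right q)] at h5
    simp only [tw_one] at h5
    exact h5
  -- the small conductors
  set T : ℕ → ℝ := fun q => ∑ ψ ∈ prim q, ‖SS LaC g x ψ‖ with hT
  have hT0 : ∀ q, 0 ≤ T q := fun q => Finset.sum_nonneg fun _ _ => norm_nonneg _
  have hSx : ∑ q ∈ Ioc 1 ⌊l ^ B⌋₊, (1 / (q.totient : ℝ)) * T q ≤ C2 / l ^ (A + 2) := by
    have hterm : ∀ q ∈ Ioc 1 ⌊l ^ B⌋₊, (1 / (q.totient : ℝ)) * T q ≤ C2 / l ^ (A + 2 + B) := by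
      intro q hq
      rw [Finset.mem_Ioc] at hq
      have hq0 : 0 < q := by omega
      have hqB : (q : ℝ) ≤ l ^ B :=
        (Nat.cast_le.mpr hq.2).trans (Nat.floor_le (Real.rpow_nonneg hl0.le _))
      have p1 : (0 : ℝ) < q.totient := by exact_mod_cast Nat.totient_pos.2 hq0
      have h4 : T q ≤ (prim q).card • (C2 / l ^ (A + 2 + B)) :=
        Finset.sum_le_card_nsmul _ _ _ fun ψ hψ => hS x hx2 q hq.1 hqB ψ hψ
      rw [nsmul_eq_mul] at h4
      have h5 : T q ≤ q.totient * (C2 / l ^ (A + 2 + B)) :=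
        h4.trans (mul_le_mul_of_nonneg_right (card_prim_le q hq0) (by positivity))
      calc 1 / (q.totient : ℝ) * T q ≤ 1 / (q.totient : ℝ) * (q.totient * (C2 / l ^ (A + 2 + B))) :=
            mul_le_mul_of_nonneg_left h5 (by positivity)
        _ = C2 / l ^ (A + 2 + B) := by field_simp
    refine (Finset.sum_le_card_nsmul _ _ _ hterm).trans ?_
    rw [nsmul_eq_mul, Nat.card_Ioc]
    have h6 : ((⌊l ^ B⌋₊ - 1 : ℕ) : ℝ) ≤ l ^ B := by
      have h7 : ((⌊l ^ B⌋₊ - 1 : ℕ) : ℝ) ≤ (⌊l ^ B⌋₊ : ℕ) := by exact_mod_cast Nat.sub_le _ _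
      exact h7.trans (Nat.floor_le (Real.rpow_nonneg hl0.le _))
    calc ((⌊l ^ B⌋₊ - 1 : ℕ) : ℝ) * (C2 / l ^ (A + 2 + B)) ≤ l ^ B * (C2 / l ^ (A + 2 + B)) :=
          mul_le_mul_of_nonneg_right h6 (by positivity)
      _ = C2 / l ^ (A + 2) := by
          rw [Real.rpow_add hl0 (A + 2) B]
          have : 0 < l ^ B := Real.rpow_pos_of_pos hl0 _
          have : 0 < l ^ (A + 2) := Real.rpow_pos_of_pos hl0 _
          field_simp
  have hall : ∑ q ∈ Ioc 1 D, (1 / (q.totient : ℝ)) * T q ≤ (C1 + C2) / l ^ (A + 2) := by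
    have hsub : Ioc 1 D ⊆ Ioc 1 ⌊l ^ B⌋₊ ∪ Ioc ⌊l ^ B⌋₊ D := by
      intro q hq
      rw [Finset.mem_Ioc] at hq
      rw [Finset.mem_union, Finset.mem_Ioc, Finset.mem_Ioc]
      by_cases h : q ≤ ⌊l ^ B⌋₊
      · exact Or.inl ⟨hq.1, h⟩
      · exact Or.inr ⟨by omega, hq.2⟩
    have hnn : ∀ q, 0 ≤ (1 / (q.totient : ℝ)) * T q := fun q => mul_nonneg (by positivity) (hT0 q)
    calc ∑ q ∈ Ioc 1 D, (1 / (q.totient : ℝ)) * T q
        ≤ ∑ q ∈ Ioc 1 ⌊l ^ B⌋₊ ∪ Ioc ⌊l ^ B⌋₊ D, (1 / (q.totient : ℝ)) * T q :=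
          Finset.sum_le_sum_of_subset_of_nonneg hsub fun q _ _ => hnn q
      _ ≤ (∑ q ∈ Ioc 1 ⌊l ^ B⌋₊, (1 / (q.totient : ℝ)) * T q) +
          ∑ q ∈ Ioc ⌊l ^ B⌋₊ D, (1 / (q.totient : ℝ)) * T q := by
          rw [← Finset.sum_union_inter]
          exact le_add_of_nonneg_right (Finset.sum_nonneg fun q _ => hnn q)
      _ ≤ C2 / l ^ (A + 2) + C1 / l ^ (A + 2) := add_le_add hSx hLx
      _ = (C1 + C2) / l ^ (A + 2) := by ring
  -- the sum of 1 / φ
  have hphi : ∑ m ∈ Icc 1 D, (1 : ℝ) / m.totient ≤ 4 * l ^ 2 := by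
    refine (sum_inv_totient_le D).trans ?_
    have h7 : Real.log D ≤ l := by
      rcases Nat.eq_zero_or_pos D with h0 | h0
      · rw [h0]; simp; exact hl0.le
      · have h8 : (D : ℝ) ≤ x := by
          refine hDx.trans ?_
          calc x ^ (1 / 2 - ε) ≤ x ^ (1 : ℝ) :=
                Real.rpow_le_rpow_of_exponent_le (by linarith) (by linarith)
            _ = x := Real.rpow_one x
        exact Real.log_le_log (by exact_mod_cast h0) h8
    have h9 : 0 ≤ Real.log D := Real.log_natCast_nonneg D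
    nlinarith
  -- the integers not coprime to the modulus
  have hEE : ∑ d ∈ Icc 1 D, EE g x d ≤ 2 * G / l ^ A := by
    have h7 : ∀ d ∈ Icc 1 D, EE g x d ≤ D * (2 * l) * (l * (G / x ^ (1 - ε))) := by
      intro d hd
      rw [Finset.mem_Icc] at hd
      refine (EE_le' hg hG hG0 hη h3x d hd.1).trans ?_
      have : (d : ℝ) ≤ D := by exact_mod_cast hd.2
      have hxs : 0 < x ^ (1 - ε) := Real.rpow_pos_of_pos hx0 _
      gcongr
    refine (Finset.sum_le_card_nsmul _ _ _ h7).trans ?_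
    rw [nsmul_eq_mul, Nat.card_Icc, Nat.add_sub_cancel]
    have hxs : 0 < x ^ (1 - ε) := Real.rpow_pos_of_pos hx0 _
    have h8 : (D : ℝ) * D ≤ x ^ (1 - 2 * ε) := by
      calc (D : ℝ) * D ≤ x ^ (1 / 2 - ε) * x ^ (1 / 2 - ε) :=
            mul_le_mul hDx hDx (Nat.cast_nonneg _) (Real.rpow_nonneg hx0.le _)
        _ = x ^ (1 - 2 * ε) := by rw [← Real.rpow_add hx0]; congr 1; ring
    have h9 := hX3 x hx3
    rw [one_mul, Real.norm_of_nonneg (Real.rpow_nonneg hl0.le _),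
      Real.norm_of_nonneg (Real.rpow_nonneg hx0.le _)] at h9
    have h10 : x ^ (1 - 2 * ε) * x ^ ε = x ^ (1 - ε) := by
      rw [← Real.rpow_add hx0]; congr 1; ring
    have hlA : 0 < l ^ A := Real.rpow_pos_of_pos hl0 _
    have h11 : l ^ (A + 2) = l ^ A * l ^ 2 := by
      rw [Real.rpow_add hl0]; norm_num
    have h12 : (D : ℝ) * D * l ^ (A + 2) ≤ x ^ (1 - ε) := by
      rw [← h10]
      exact mul_le_mul h8 h9 (Real.rpow_nonneg hl0.le _) (Real.rpow_nonneg hx0.le _)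
    rw [h11] at h12
    rw [le_div_iff₀ hlA]
    have h13 : (D : ℝ) * (D * (2 * l) * (l * (G / x ^ (1 - ε)))) * l ^ A =
        2 * G * ((D : ℝ) * D * (l ^ A * l ^ 2)) / x ^ (1 - ε) := by
      field_simp
    rw [h13, div_le_iff₀ hxs]
    exact mul_le_mul_of_nonneg_left h12 (by positivity)
  -- conclusion
  have hlA : 0 < l ^ A := Real.rpow_pos_of_pos hl0 _
  have h11 : l ^ (A + 2) = l ^ A * l ^ 2 := by
    rw [Real.rpow_add hl0]; norm_num
  calc ∑ d ∈ Icc 1 D,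
        |∑ n ∈ (Icc 1 ⌊x⌋₊).filter (fun n => n ≡ c d [MOD d]), Λ n * wt g x n -
          (1 / (d.totient : ℝ)) * ∑ n ∈ Icc 1 ⌊x⌋₊, Λ n * wt g x n|
      ≤ ∑ d ∈ Icc 1 D, ((1 / (d.totient : ℝ)) * ∑ q ∈ d.divisors.filter (fun q => 1 < q),
        ∑ ψ ∈ prim q, ‖SS LaC g x ψ‖ + EE g x d) := by
        refine Finset.sum_le_sum fun d hd => ?_
        exact one_modulus hg x (Finset.mem_Icc.mp hd).1 (hc d)
    _ = (∑ d ∈ Icc 1 D, (1 / (d.totient : ℝ)) * ∑ q ∈ d.divisors.filter (fun q => 1 < q),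
        ∑ ψ ∈ prim q, ‖SS LaC g x ψ‖) + ∑ d ∈ Icc 1 D, EE g x d := Finset.sum_add_distrib
    _ ≤ (C1 + C2) / l ^ (A + 2) * (4 * l ^ 2) + 2 * G / l ^ A := by
        refine add_le_add ((swap g x D).trans ?_) hEE
        refine mul_le_mul hall hphi (Finset.sum_nonneg fun m _ => by positivity) (by positivity)
    _ = (4 * (C1 + C2) + 2 * G) / l ^ A := by
        rw [h11]
        field_simp

end Pool.Agent.Helper18.CA
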