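import Pool.Agent.Helper34.CA.St
import Pool.Agent.Helper44.BV.Mass
import Pool.Agent.Helper18.BV.WtLemmas

/-!
# Project CA: weights close to the indicator function of `(1 - ε, 1)`
-/

set_option autoImplicit false

open Finset Filter Topology
open scoped ArithmeticFunction.vonMangoldt

namespace Pool.Agent.Helper18.CA

open Pool.Agent.Helper18.BV Pool.Agent.Helper44.BV

theorem gw : Helper34.CA.GoodWt := by
  intro ε ρ hε hε4 hρ hρ1
  have hρε : 0 < ρ * ε := by positivity
  have hρε1 : ρ * ε < ε := by nlinarith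
  let f : ContDiffBump (1 - ε / 2 : ℝ) :=
    { rIn := ε / 2 - ρ * ε / 4
      rOut := ε / 2 - ρ * ε / 8
      rIn_pos := by linarith
      rIn_lt_rOut := by linarith }
  have hfI : f.rIn = ε / 2 - ρ * ε / 4 := rfl
  have hfO : f.rOut = ε / 2 - ρ * ε / 8 := rfl
  have hnn : ∀ v, 0 ≤ f v := fun v => f.nonneg
  refine ⟨fun v => f v, ⟨f.contDiff, ?_, hnn⟩, fun v => f.le_one, ?_⟩
  · have h1 : tsupport (fun v => f v) = Metric.closedBall (1 - ε / 2 : ℝ) f.rOut := f.tsupport_eq
    rw [h1, hfO, Real.closedBall_eq_Icc]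
    intro v hv
    rw [Set.mem_Icc] at hv
    rw [Set.mem_Ioo]
    constructor <;> linarith [hv.1, hv.2]
  · refine ⟨max 3 (Real.exp (26 / (ρ * ε))), le_max_left _ _, ?_⟩
    intro x hx
    have hx3 : 3 ≤ x := (le_max_left _ _).trans hx
    have hx0 : 0 < x := by linarith
    have hx1 : 1 ≤ x := by linarith
    set L := Real.log x with hL
    have hLL : 26 / (ρ * ε) ≤ L := (Real.le_log_iff_exp_le hx0).2 ((le_max_right _ _).trans hx)
    have hL0 : 0 < L := Real.log_pos (by linarith)
    set A : ℝ := x ^ (1 - ε + ρ * ε / 4) with hA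
    set B : ℝ := x ^ (1 - ρ * ε / 4) with hB
    have hA1 : 1 ≤ A := Real.one_le_rpow hx1 (by nlinarith)
    have hB1 : 1 ≤ B := Real.one_le_rpow hx1 (by nlinarith)
    have hAB : A ≤ B := Real.rpow_le_rpow_of_exponent_le hx1 (by nlinarith)
    have hBx : B ≤ x := by
      calc B ≤ x ^ (1 : ℝ) := Real.rpow_le_rpow_of_exponent_le hx1 (by linarith)
        _ = x := Real.rpow_one x
    have h1 := sum_Lambda_Ioc_le hA1
    have h2 := le_sum_Lambda_Ioc hB1
    have hlA : Real.log A = (1 - ε + ρ * ε / 4) * L := Real.log_rpow hx0 _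
    have hlB : Real.log B = (1 - ρ * ε / 4) * L := Real.log_rpow hx0 _
    have h3 : ∑ n ∈ Ioc 0 ⌊B⌋₊, Λ n / n = ∑ n ∈ Ioc 0 ⌊A⌋₊, Λ n / n +
        ∑ n ∈ Ioc ⌊A⌋₊ ⌊B⌋₊, Λ n / n := by
      rw [← Finset.sum_union]
      · congr 1
        rw [Finset.Ioc_union_Ioc_eq_Ioc (Nat.zero_le _) (Nat.floor_le_floor hAB)]
      · rw [Finset.disjoint_left]
        intro n hn hn'
        rw [Finset.mem_Ioc] at hn hn'
        omega
    have h4 : ∑ n ∈ Ioc ⌊A⌋₊ ⌊B⌋₊, Λ n / n ≤
        ∑ n ∈ Icc 1 ⌊x⌋₊, Λ n * wt (fun v => f v) x n := by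
      have h5 : ∀ n ∈ Ioc ⌊A⌋₊ ⌊B⌋₊, Λ n / n = Λ n * wt (fun v => f v) x n := by
        intro n hn
        rw [Finset.mem_Ioc] at hn
        have hnA : A < n := (Nat.floor_lt (by linarith)).1 hn.1
        have hnB : (n : ℝ) ≤ B := (Nat.cast_le.2 hn.2).trans (Nat.floor_le (by linarith))
        have hn0 : (0 : ℝ) < n := by linarith
        have e1 : 1 - ε + ρ * ε / 4 ≤ Real.log n / L := by
          rw [le_div_iff₀ hL0, ← hlA]
          exact Real.log_le_log (by linarith) hnA.le
        have e2 : Real.log n / L ≤ 1 - ρ * ε / 4 := by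
          rw [div_le_iff₀ hL0, ← hlB]
          exact Real.log_le_log hn0 hnB
        have e3 : f (Real.log n / L) = 1 := by
          apply f.one_of_mem_closedBall
          rw [hfI, Real.closedBall_eq_Icc, Set.mem_Icc]
          constructor <;> linarith
        unfold wt
        simp only
        rw [← hL, e3]
        ring
      rw [Finset.sum_congr rfl h5]
      refine Finset.sum_le_sum_of_subset_of_nonneg ?_ ?_
      · intro n hn
        rw [Finset.mem_Ioc] at hn
        have := Nat.floor_le_floor hBx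
        exact Finset.mem_Icc.2 ⟨by omega, by omega⟩
      · intro n _ _
        exact mul_nonneg ArithmeticFunction.vonMangoldt_nonneg
          (div_nonneg (hnn _) (Nat.cast_nonneg _))
    refine le_trans ?_ h4
    have h6 : 26 ≤ ρ * ε * L := by
      rw [div_le_iff₀ hρε] at hLL
      linarith
    have h7 : (1 - ρ) * ε * L ≤ (1 - ρ * ε / 4) * L - 7 - ((1 - ε + ρ * ε / 4) * L + 6) := by
      nlinarith
    linarith

end Pool.Agent.Helper18.CA
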