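import Pool.Agent.Helper18.CA.Tw
import Pool.Agent.Helper18.BV.WtLemmas

/-!
# Project CA: primitive characters of large conductor, twisted, level `1/2`
-/

set_option autoImplicit false

open Finset Filter Topology

namespace Pool.Agent.Helper18.CA

open Pool.Agent.Helper18.BV Pool.Agent.Helper96.BV

theorem SS_lo' {g : ℝ → ℝ} (hg : IsWt g) {x : ℝ} (hx : 3 ≤ x) {V : ℕ}
    (hV : (V : ℝ) ≤ x ^ (1 / 2 : ℝ)) (f : ArithmeticFunction ℂ) {q : ℕ}
    (χ : DirichletCharacter ℂ q) : SS (lo V f) g x χ = 0 := by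
  unfold SS
  refine Finset.sum_eq_zero (fun n _ => ?_)
  rw [lo_apply]
  by_cases h : n ≤ V
  · have h1 : (n : ℝ) ≤ x ^ (1 / 2 : ℝ) := le_trans (by exact_mod_cast h) hV
    rw [wt_zero hg (by linarith) h1]
    simp
  · rw [if_neg h]; simp

theorem largeTw (h1 : VaughanId) (h2 : CoefFacts) (h3 : TypeOneE) (h4 : TypeTwoE) : LargeTw := by
  intro ε hε hε2 g hg hη A hA
  obtain ⟨C3, hC3, h3'⟩ := h3 g hg (1 - ε) (by linarith) (by linarith) hη
  obtain ⟨C4, hC4, h4'⟩ := h4 g hg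
  -- choice of X0
  have hev : ∀ᶠ x : ℝ in Filter.atTop, Real.log x ^ (A + 4) ≤ x ^ (ε / 8) := by
    have h := isLittleO_log_rpow_rpow_atTop (A + 4) (by positivity : (0 : ℝ) < ε / 8)
    have h' := h.bound (by norm_num : (0 : ℝ) < 1)
    filter_upwards [h', Filter.eventually_ge_atTop (1 : ℝ)] with x hx hx1
    rw [one_mul, Real.norm_of_nonneg (Real.rpow_nonneg (Real.log_nonneg hx1) _),
      Real.norm_of_nonneg (Real.rpow_nonneg (by linarith) _)] at hx
    exact hx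
  obtain ⟨X1, hX1⟩ := Filter.eventually_atTop.1 hev
  refine ⟨A + 4, 2 * C3 + 5 * C4, max 3 X1, by positivity, by positivity,
    le_max_left _ _, ?_⟩
  intro x hx M _ χ hMx
  have hx3 : 3 ≤ x := (le_max_left _ _).trans hx
  have hxe := hX1 x ((le_max_right _ _).trans hx)
  set l := Real.log x with hl
  have hx0 : 0 < x := by linarith
  have hx1 : 1 ≤ x := by linarith
  have hl1 : 1 ≤ l := by
    rw [hl, Real.le_log_iff_exp_le (by linarith)]
    have := Real.exp_one_lt_d9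
    linarith
  have hl0 : 0 < l := by linarith
  set Q := ⌊x ^ (1 / 2 - ε)⌋₊ with hQ
  have hQx : (Q : ℝ) ≤ x ^ (1 / 2 - ε) := Nat.floor_le (by positivity)
  have hQ0 : (0 : ℝ) ≤ Q := Nat.cast_nonneg _
  have hQxx : (Q : ℝ) ≤ x := by
    refine hQx.trans ?_
    calc x ^ (1 / 2 - ε) ≤ x ^ (1 : ℝ) :=
          Real.rpow_le_rpow_of_exponent_le hx1 (by linarith)
      _ = x := Real.rpow_one x
  set U := ⌊x ^ (ε / 4)⌋₊ with hU
  have hUx4 : 1 ≤ x ^ (ε / 4) := Real.one_le_rpow hx1 (by positivity)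
  have hUx : (U : ℝ) ≤ x ^ (ε / 4) := Nat.floor_le (by positivity)
  have hU1 : 1 ≤ U := Nat.le_floor (by simpa using hUx4)
  have hU1' : (1 : ℝ) ≤ U := by exact_mod_cast hU1
  have hU0 : (0 : ℝ) ≤ U := Nat.cast_nonneg _
  have hUx2 : (U : ℝ) ≤ x ^ (1 / 2 : ℝ) :=
    hUx.trans (Real.rpow_le_rpow_of_exponent_le hx1 (by linarith))
  have hUUx : (U : ℝ) * U ≤ x ^ (ε / 2) := by
    calc (U : ℝ) * U ≤ x ^ (ε / 4) * x ^ (ε / 4) :=
          mul_le_mul hUx hUx hU0 (by positivity)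
      _ = x ^ (ε / 2) := by rw [← Real.rpow_add hx0]; congr 1; ring
  have hUle : (U : ℝ) ≤ (U : ℝ) * U := by nlinarith
  set Q0 := ⌊l ^ (A + 4)⌋₊ with hQ0def
  have hlB1 : 1 ≤ l ^ (A + 4) := Real.one_le_rpow hl1 (by positivity)
  have hQ01 : 1 ≤ Q0 := Nat.le_floor (by simpa using hlB1)
  -- Vaughan
  have hV := h1 U U zeC muC LaC h2.inv h2.log
  set b : ArithmeticFunction ℂ := hi U LaC * zeC with hb
  set a : ArithmeticFunction ℂ := hi U muC with ha
  have htw : ∀ (f : ArithmeticFunction ℂ) (n : ℕ), ‖tw χ f n‖ ≤ ‖f n‖ := by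
    intro f n
    rw [tw_apply, norm_mul]
    exact mul_le_of_le_one_right (norm_nonneg _) (χ.norm_le_one _)
  have htw0 : ∀ (f : ArithmeticFunction ℂ) (n : ℕ), f n = 0 → tw χ f n = 0 := by
    intro f n h
    rw [tw_apply, h, zero_mul]
  have hT2 := h4' (1 - ε) (by linarith) (by linarith) hη x hx3 Q0 Q U hQ01 hU1 hQxx
    (tw χ a) (tw χ b)
    (by intro n hn; apply htw0; rw [ha, hi_apply, if_pos hn])
    (by intro n hn; apply htw0; exact h2.hi_mul_zero U n hn)
    (by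
      intro n
      refine (htw a n).trans ?_
      rw [ha, hi_apply]
      split_ifs
      · simp
      · exact h2.mu_le n)
    (by
      intro n hn
      refine (htw b n).trans ((h2.hi_mul_le U n).trans ?_)
      rcases Nat.eq_zero_or_pos n with h0 | h0
      · subst h0; simp; linarith
      · exact Real.log_le_log (by exact_mod_cast h0) hn)
  -- pointwise estimate
  have hM0 : (0 : ℝ) ≤ M := Nat.cast_nonneg _
  have hpt : ∀ q : ℕ, 1 < q → q.Coprime M → ∀ ψ ∈ prim q, ‖SS (tw χ LaC) g x ψ‖ ≤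
      2 * (C3 * (M * q) * x ^ (ε / 2) * l ^ 2 * x ^ (-(1 - ε))) +
        ‖SS (tw χ a * tw χ b : ArithmeticFunction ℂ) g x ψ‖ := by
    intro q hq hqM ψ hψ
    have hq0 : NeZero q := ⟨by omega⟩
    have hMq0 : NeZero (M * q) := ⟨Nat.mul_ne_zero (NeZero.ne M) (by omega)⟩
    have hne := pr_ne_one hq hqM χ hψ
    have hq0' : (0 : ℝ) ≤ q := Nat.cast_nonneg _
    have hxh : 0 ≤ x ^ (-(1 - ε)) := by positivity
    set ρ := pr χ ψ with hρ
    have e1 : ‖SS (lo U muC * D zeC : ArithmeticFunction ℂ) g x ρ‖ ≤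
        C3 * (M * q) * x ^ (ε / 2) * l ^ 2 * x ^ (-(1 - ε)) := by
      have h5 := (h3' x hx3 (M * q) ρ hne U (lo U muC) 1 (by
        intro m hm
        rw [lo_apply, if_pos hm]
        exact h2.mu_le m) (by
        intro m hm
        rw [lo_apply, if_neg (by omega)])).2
      refine h5.trans ?_
      apply mul_le_mul_of_nonneg_right _ hxh
      have h6 : (U : ℝ) * 1 * l ≤ x ^ (ε / 2) * l ^ 2 := by
        calc (U : ℝ) * 1 * l ≤ x ^ (ε / 2) * l := by
              rw [mul_one]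
              exact mul_le_mul_of_nonneg_right (hUle.trans hUUx) hl0.le
          _ ≤ x ^ (ε / 2) * l ^ 2 := by
              apply mul_le_mul_of_nonneg_left _ (by positivity)
              nlinarith
      push_cast
      calc C3 * (M * q) * U * 1 * l = C3 * (M * q) * (U * 1 * l) := by ring
        _ ≤ C3 * (M * q) * (x ^ (ε / 2) * l ^ 2) := mul_le_mul_of_nonneg_left h6 (by positivity)
        _ = _ := by ring
    have e2 : ‖SS (lo U muC * lo U LaC * zeC : ArithmeticFunction ℂ) g x ρ‖ ≤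
        C3 * (M * q) * x ^ (ε / 2) * l ^ 2 * x ^ (-(1 - ε)) := by
      have h5 := (h3' x hx3 (M * q) ρ hne (U * U) (lo U muC * lo U LaC) l (by
        intro m hm
        refine (h2.lo_mul_lo_le U U m).trans ?_
        rcases Nat.eq_zero_or_pos m with h0 | h0
        · subst h0; simp; linarith
        · apply Real.log_le_log (by exact_mod_cast h0)
          have h6 : (m : ℝ) ≤ (U : ℝ) * U := by exact_mod_cast hm
          refine h6.trans (hUUx.trans ?_)
          calc x ^ (ε / 2) ≤ x ^ (1 : ℝ) :=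
                Real.rpow_le_rpow_of_exponent_le hx1 (by linarith)
            _ = x := Real.rpow_one x) (by
        intro m hm
        exact h2.lo_mul_lo_zero U U m hm)).1
      refine h5.trans ?_
      apply mul_le_mul_of_nonneg_right _ hxh
      push_cast
      calc C3 * (M * q) * (U * U) * l * l = C3 * (M * q) * ((U * U) * l ^ 2) := by ring
        _ ≤ C3 * (M * q) * (x ^ (ε / 2) * l ^ 2) := by
            apply mul_le_mul_of_nonneg_left _ (by positivity)
            exact mul_le_mul_of_nonneg_right hUUx (by positivity)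
        _ = _ := by ring
    have e3 : SS (tw χ LaC) g x ψ = SS (lo U muC * D zeC : ArithmeticFunction ℂ) g x ρ -
        SS (lo U muC * lo U LaC * zeC : ArithmeticFunction ℂ) g x ρ +
        SS (tw χ a * tw χ b : ArithmeticFunction ℂ) g x ψ := by
      rw [← tw_mul, SS_tw, SS_tw, ← hρ]
      conv_lhs => rw [hV]
      rw [SS_add, SS_sub, SS_add, SS_lo' hg hx3 hUx2, zero_add]
    rw [e3]
    calc _ ≤ ‖SS (lo U muC * D zeC : ArithmeticFunction ℂ) g x ρ -
          SS (lo U muC * lo U LaC * zeC : ArithmeticFunction ℂ) g x ρ‖ +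
          ‖SS (tw χ a * tw χ b : ArithmeticFunction ℂ) g x ψ‖ := norm_add_le _ _
      _ ≤ _ := by
          have := norm_sub_le (SS (lo U muC * D zeC : ArithmeticFunction ℂ) g x ρ)
            (SS (lo U muC * lo U LaC * zeC : ArithmeticFunction ℂ) g x ρ)
          linarith
  -- sum over q
  set E' : ℝ := 2 * (C3 * (M * x ^ (1 / 2 - ε)) * x ^ (ε / 2) * l ^ 2 * x ^ (-(1 - ε)))
    with hE'
  have hE'0 : 0 ≤ E' := by positivity
  have hterm : ∀ q ∈ (Ioc Q0 Q).filter (fun q => q.Coprime M),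
      (1 / (q.totient : ℝ)) * ∑ ψ ∈ prim q, ‖SS (tw χ LaC) g x ψ‖ ≤
      E' + (1 / (q.totient : ℝ)) * ∑ ψ ∈ prim q,
        ‖SS (tw χ a * tw χ b : ArithmeticFunction ℂ) g x ψ‖ := by
    intro q hq
    rw [Finset.mem_filter, Finset.mem_Ioc] at hq
    obtain ⟨⟨hq1, hqQ⟩, hqM⟩ := hq
    have hq1' : 1 < q := by omega
    have hq0 : NeZero q := ⟨by omega⟩
    have hφ : (0 : ℝ) < q.totient := by exact_mod_cast Nat.totient_pos.2 (by omega : 0 < q)
    set E : ℝ := 2 * (C3 * (M * q) * x ^ (ε / 2) * l ^ 2 * x ^ (-(1 - ε))) with hE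
    have hE0 : 0 ≤ E := by positivity
    have h5 : ∑ ψ ∈ prim q, ‖SS (tw χ LaC) g x ψ‖ ≤ q.totient * E +
        ∑ ψ ∈ prim q, ‖SS (tw χ a * tw χ b : ArithmeticFunction ℂ) g x ψ‖ := by
      calc ∑ ψ ∈ prim q, ‖SS (tw χ LaC) g x ψ‖
          ≤ ∑ ψ ∈ prim q, (E + ‖SS (tw χ a * tw χ b : ArithmeticFunction ℂ) g x ψ‖) :=
            Finset.sum_le_sum (fun ψ hψ => hpt q hq1' hqM ψ hψ)
        _ = (prim q).card * E +
            ∑ ψ ∈ prim q, ‖SS (tw χ a * tw χ b : ArithmeticFunction ℂ) g x ψ‖ := by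
            rw [Finset.sum_add_distrib]; simp
        _ ≤ _ := by
            have : ((prim q).card : ℝ) ≤ q.totient := by exact_mod_cast card_prim_le q
            have := mul_le_mul_of_nonneg_right this hE0
            linarith
    calc (1 / (q.totient : ℝ)) * ∑ ψ ∈ prim q, ‖SS (tw χ LaC) g x ψ‖
        ≤ (1 / (q.totient : ℝ)) * (q.totient * E +
          ∑ ψ ∈ prim q, ‖SS (tw χ a * tw χ b : ArithmeticFunction ℂ) g x ψ‖) :=
          mul_le_mul_of_nonneg_left h5 (by positivity)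
      _ = E + (1 / (q.totient : ℝ)) *
          ∑ ψ ∈ prim q, ‖SS (tw χ a * tw χ b : ArithmeticFunction ℂ) g x ψ‖ := by
          field_simp
      _ ≤ _ := by
          have h8 : (q : ℝ) ≤ x ^ (1 / 2 - ε) := le_trans (by exact_mod_cast hqQ) hQx
          have h9 : C3 * (M * q) ≤ C3 * (M * x ^ (1 / 2 - ε)) :=
            mul_le_mul_of_nonneg_left (mul_le_mul_of_nonneg_left h8 hM0) hC3.le
          have h10 : 0 ≤ x ^ (ε / 2) * l ^ 2 * x ^ (-(1 - ε)) := by positivity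
          have := mul_le_mul_of_nonneg_right h9 h10
          rw [hE, hE']
          linarith
  have hsub : (Ioc Q0 Q).filter (fun q => q.Coprime M) ⊆ Ioc Q0 Q := Finset.filter_subset _ _
  have hcard : (((Ioc Q0 Q).filter (fun q => q.Coprime M)).card : ℝ) ≤ x ^ (1 / 2 - ε) := by
    refine le_trans ?_ hQx
    have h5 := Finset.card_le_card hsub
    rw [Nat.card_Ioc] at h5
    exact_mod_cast (h5.trans (Nat.sub_le _ _))
  -- numerical facts
  have hn1 : x ^ (1 / 2 - ε) * E' ≤ 2 * C3 * l ^ (-A) := by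
    have h5 : x ^ (1 / 2 - ε) * E' = 2 * C3 * (M * l ^ 2 * x ^ (-(ε / 2))) := by
      rw [hE']
      have h6 : x ^ (-(ε / 2)) = x ^ (1 / 2 - ε) * x ^ (1 / 2 - ε) * x ^ (ε / 2) *
          x ^ (-(1 - ε)) := by
        rw [← Real.rpow_add hx0, ← Real.rpow_add hx0, ← Real.rpow_add hx0]
        congr 1
        ring
      rw [h6]
      ring
    rw [h5]
    apply mul_le_mul_of_nonneg_left _ (by positivity)
    have h6 : x ^ (ε / 8) * x ^ (-(ε / 2)) ≤ x ^ (-(ε / 8)) := by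
      rw [← Real.rpow_add hx0]
      exact Real.rpow_le_rpow_of_exponent_le hx1 (by linarith)
    have h7 : l ^ 2 * x ^ (-(ε / 8)) ≤ l ^ (-A) := by
      rw [Real.rpow_neg hx0.le, Real.rpow_neg hl0.le, ← div_eq_mul_inv, ← one_div,
        div_le_div_iff₀ (by positivity) (by positivity), one_mul]
      calc l ^ 2 * l ^ A ≤ l ^ 4 * l ^ A := by
            apply mul_le_mul_of_nonneg_right _ (by positivity)
            exact pow_le_pow_right₀ hl1 (by norm_num)
        _ = l ^ (A + 4) := by rw [Real.rpow_add hl0, mul_comm]; norm_num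
        _ ≤ _ := hxe
    calc (M : ℝ) * l ^ 2 * x ^ (-(ε / 2)) ≤ x ^ (ε / 8) * l ^ 2 * x ^ (-(ε / 2)) := by
          gcongr
      _ = l ^ 2 * (x ^ (ε / 8) * x ^ (-(ε / 2))) := by ring
      _ ≤ l ^ 2 * x ^ (-(ε / 8)) := mul_le_mul_of_nonneg_left h6 (by positivity)
      _ ≤ _ := h7
  have hn2 : l ^ 4 * (1 / (Q0 : ℝ)) ≤ 2 * l ^ (-A) := by
    have h5 : l ^ (A + 4) ≤ 2 * Q0 := by
      have h6 : l ^ (A + 4) < Q0 + 1 := Nat.lt_floor_add_one _
      have h7 : (1 : ℝ) ≤ Q0 := by exact_mod_cast hQ01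
      linarith
    have hQ00 : (0 : ℝ) < Q0 := by exact_mod_cast hQ01
    have h6 : l ^ (A + 4) = l ^ A * l ^ 4 := by
      rw [Real.rpow_add hl0]; norm_num
    rw [Real.rpow_neg hl0.le, mul_one_div, ← div_eq_mul_inv,
      div_le_div_iff₀ hQ00 (by positivity)]
    rw [h6] at h5
    linarith
  have hn3 : l ^ 4 * x ^ (-(ε / 8)) ≤ l ^ (-A) := by
    rw [Real.rpow_neg hx0.le, Real.rpow_neg hl0.le, ← div_eq_mul_inv, ← one_div,
      div_le_div_iff₀ (by positivity) (by positivity), one_mul]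
    calc l ^ 4 * l ^ A = l ^ (A + 4) := by rw [Real.rpow_add hl0, mul_comm]; norm_num
      _ ≤ _ := hxe
  have hn4 : 1 / Real.sqrt U ≤ 2 * x ^ (-(ε / 8)) := by
    have h5 : x ^ (ε / 4) ≤ 4 * U := by
      have h6 : x ^ (ε / 4) < U + 1 := Nat.lt_floor_add_one _
      linarith
    have h6 : x ^ (ε / 8) ≤ 2 * Real.sqrt U := by
      have h7 : x ^ (ε / 8) = Real.sqrt (x ^ (ε / 4)) := by
        rw [Real.sqrt_eq_rpow, ← Real.rpow_mul hx0.le]
        congr 1
        ring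
      rw [h7]
      have h8 : (2 : ℝ) = Real.sqrt 4 := by
        rw [show (4 : ℝ) = 2 ^ 2 by norm_num, Real.sqrt_sq (by norm_num)]
      rw [h8, ← Real.sqrt_mul (by norm_num)]
      exact Real.sqrt_le_sqrt h5
    have hsU : 0 < Real.sqrt U := Real.sqrt_pos.2 (by linarith)
    rw [Real.rpow_neg hx0.le, ← div_eq_mul_inv, div_le_div_iff₀ hsU (by positivity)]
    linarith
  have hn5 : (Q : ℝ) * x ^ (-((1 - ε) / 2)) ≤ x ^ (-(ε / 8)) := by
    calc (Q : ℝ) * x ^ (-((1 - ε) / 2)) ≤ x ^ (1 / 2 - ε) * x ^ (-((1 - ε) / 2)) :=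
          mul_le_mul_of_nonneg_right hQx (by positivity)
      _ = x ^ (-(ε / 2)) := by rw [← Real.rpow_add hx0]; congr 1; ring
      _ ≤ _ := Real.rpow_le_rpow_of_exponent_le hx1 (by linarith)
  calc ∑ q ∈ (Ioc Q0 Q).filter (fun q => q.Coprime M),
        (1 / (q.totient : ℝ)) * ∑ ψ ∈ prim q, ‖SS (tw χ LaC) g x ψ‖
      ≤ ∑ q ∈ (Ioc Q0 Q).filter (fun q => q.Coprime M), (E' +
        (1 / (q.totient : ℝ)) * ∑ ψ ∈ prim q,
          ‖SS (tw χ a * tw χ b : ArithmeticFunction ℂ) g x ψ‖) :=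
        Finset.sum_le_sum hterm
    _ = ((Ioc Q0 Q).filter (fun q => q.Coprime M)).card * E' +
        ∑ q ∈ (Ioc Q0 Q).filter (fun q => q.Coprime M), (1 / (q.totient : ℝ)) *
          ∑ ψ ∈ prim q, ‖SS (tw χ a * tw χ b : ArithmeticFunction ℂ) g x ψ‖ := by
        rw [Finset.sum_add_distrib, Finset.sum_const, nsmul_eq_mul]
    _ ≤ x ^ (1 / 2 - ε) * E' + ∑ q ∈ Ioc Q0 Q, (1 / (q.totient : ℝ)) *
          ∑ ψ ∈ prim q, ‖SS (tw χ a * tw χ b : ArithmeticFunction ℂ) g x ψ‖ := by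
        apply add_le_add
        · exact mul_le_mul_of_nonneg_right hcard hE'0
        · refine Finset.sum_le_sum_of_subset_of_nonneg hsub (fun q _ _ => ?_)
          have : 0 ≤ ∑ ψ ∈ prim q, ‖SS (tw χ a * tw χ b : ArithmeticFunction ℂ) g x ψ‖ :=
            Finset.sum_nonneg (fun _ _ => norm_nonneg _)
          positivity
    _ ≤ 2 * C3 * l ^ (-A) + C4 * l ^ 4 *
          (1 / (Q0 : ℝ) + 1 / Real.sqrt U + (Q : ℝ) * x ^ (-((1 - ε) / 2))) :=
        add_le_add hn1 hT2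
    _ ≤ 2 * C3 * l ^ (-A) + C4 * (5 * l ^ (-A)) := by
        apply add_le_add le_rfl
        rw [mul_assoc]
        apply mul_le_mul_of_nonneg_left _ hC4.le
        have h5 : l ^ 4 * (1 / (Q0 : ℝ) + 1 / Real.sqrt U + (Q : ℝ) * x ^ (-((1 - ε) / 2))) ≤
            l ^ 4 * (1 / (Q0 : ℝ)) + 3 * (l ^ 4 * x ^ (-(ε / 8))) := by
          have h6 : 1 / (Q0 : ℝ) + 1 / Real.sqrt U + (Q : ℝ) * x ^ (-((1 - ε) / 2)) ≤
            1 / (Q0 : ℝ) + 3 * x ^ (-(ε / 8)) := by linarith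
          have h7 := mul_le_mul_of_nonneg_left h6 (by positivity : (0 : ℝ) ≤ l ^ 4)
          linarith
        linarith
    _ = (2 * C3 + 5 * C4) / l ^ A := by
        rw [Real.rpow_neg hl0.le]; ring

end Pool.Agent.Helper18.CA
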