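import Pool.Agent.Helper34.CA.St
import Pool.Agent.Helper5.CA.SmDef

/-!
# Project CA, step 0: the plain form
-/

set_option autoImplicit false

open Finset Filter Topology

namespace Pool.Agent.Helper18.CA

/-- The form with an excluded set of primes implies the plain form. -/
theorem plain_of {θ : ℝ} (hθ : 0 < θ) (h : Helper5.CA.Smooth θ) : Helper34.CA.Smooth θ := by
  classical
  intro η hη
  obtain ⟨q0, z0, hz⟩ := h 0 (min (η / 2) 1) (by positivity)
  set η' : ℝ := min (η / 2) 1 with hη'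
  have hη'1 : η' ≤ η / 2 := min_le_left _ _
  have hη'0 : η' ≤ 1 := min_le_right _ _
  have hη'p : 0 < η' := by positivity
  refine ⟨max ((z0 : ℝ) + 1) (max 2 ((2 : ℝ) ^ (2 / η))), ?_⟩
  intro z hz1 P hP
  have h1 : (z0 : ℝ) + 1 ≤ z := (le_max_left _ _).trans hz1
  have h2 : 2 ≤ z := ((le_max_left _ _).trans (le_max_right _ _)).trans hz1
  have h3 : (2 : ℝ) ^ (2 / η) ≤ z := ((le_max_right _ _).trans (le_max_right _ _)).trans hz1
  have hz0 : 0 < z := by linarith
  set n := ⌊z⌋₊ with hn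
  have hn0 : z0 ≤ n := Nat.le_floor (by linarith)
  have hnz : (n : ℝ) ≤ z := Nat.floor_le hz0.le
  have hnz2 : z / 2 ≤ n := by
    have : z < n + 1 := Nat.lt_floor_add_one z
    linarith
  have h4 := hz n hn0 ∅ (by simp) (by simp)
  have h5 : Helper5.CA.smp n ((n : ℝ) ^ θ) ∅ ⊆ P := by
    intro p hp
    rw [Helper5.CA.mem_smp] at hp
    rw [hP]
    refine ⟨hp.2.1, ?_, ?_⟩
    · exact (Nat.cast_le.2 hp.1.2).trans hnz
    · intro q hq hqd
      exact (hp.2.2 q hq hqd).1.trans (Real.rpow_le_rpow (Nat.cast_nonneg _) hnz hθ.le)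
  have h6 : ((Helper5.CA.smp n ((n : ℝ) ^ θ) ∅).card : ℝ) ≤ P.card := by
    exact_mod_cast Finset.card_le_card h5
  refine le_trans ?_ (h4.trans h6)
  -- `z ^ (1 - η) ≤ (z / 2) ^ (1 - η')`
  have h7 : (z / 2) ^ (1 - η') ≤ (n : ℝ) ^ (1 - η') :=
    Real.rpow_le_rpow (by positivity) hnz2 (by linarith)
  refine le_trans ?_ h7
  have h8 : 2 ≤ z ^ (η / 2) := by
    calc (2 : ℝ) = ((2 : ℝ) ^ (2 / η)) ^ (η / 2) := by
          rw [← Real.rpow_mul (by norm_num)]
          have : 2 / η * (η / 2) = 1 := by field_simp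
          rw [this, Real.rpow_one]
      _ ≤ z ^ (η / 2) := Real.rpow_le_rpow (by positivity) h3 (by positivity)
  rw [Real.div_rpow hz0.le (by norm_num), le_div_iff₀ (by positivity)]
  have h9 : (2 : ℝ) ^ (1 - η') ≤ 2 := by
    calc (2 : ℝ) ^ (1 - η') ≤ (2 : ℝ) ^ (1 : ℝ) :=
          Real.rpow_le_rpow_of_exponent_le (by norm_num) (by linarith)
      _ = 2 := Real.rpow_one 2
  calc z ^ (1 - η) * (2 : ℝ) ^ (1 - η') ≤ z ^ (1 - η) * z ^ (η / 2) :=
        mul_le_mul_of_nonneg_left (h9.trans h8) (by positivity)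
    _ = z ^ (1 - η / 2) := by rw [← Real.rpow_add hz0]; congr 1; ring
    _ ≤ z ^ (1 - η') := Real.rpow_le_rpow_of_exponent_le (by linarith) (by linarith)

end Pool.Agent.Helper18.CA
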