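import Pool.Agent.Helper18.CA.Step0c
import Pool.Agent.Helper18.CA.Plain
import Pool.Agent.Helper18.CA.BVmain
import Pool.Agent.Helper26.CA.PhiSum
import Pool.Agent.Helper18.CA.GW

/-!
# Project CA, step 0: closed form
-/

set_option autoImplicit false

namespace Pool.Agent.Helper18.CA

/-- Smooth shifted primes: for every `θ > exp(-1/5)/2 = 0.4093...`, `z ^ (1 - o(1))` primes `p ≤ z`
have `z ^ θ`-smooth `p - 1`, also if a bounded number of large primes is forbidden. -/
theorem smooth_main (θ : ℝ) (hθ0 : 0 < θ) (hθ : θ < 1 / 2)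
    (hlam : 5 * Real.log (1 / (2 * θ)) < 1) : Helper5.CA.Smooth θ := by
  obtain ⟨c0, C, h⟩ := Helper26.CA.phi_sum
  exact smoothR h gw bvMain θ hθ0 hθ hlam

theorem smooth_plain (θ : ℝ) (hθ0 : 0 < θ) (hθ : θ < 1 / 2)
    (hlam : 5 * Real.log (1 / (2 * θ)) < 1) : Helper34.CA.Smooth θ :=
  plain_of hθ0 (smooth_main θ hθ0 hθ hlam)

end Pool.Agent.Helper18.CA
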