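import Pool.Agent.Helper45.NX2.BtClass
import Pool.Agent.Helper53.AV.SelW

/-!
# Project CA: Brun-Titchmarsh with the constant `2`
-/

set_option autoImplicit false

open Finset

namespace Pool.Agent.Helper18.CA

open Pool.Agent.Helper45.NX2.Bt Pool.Agent.Helper69.EK Helper53AV

theorem sieve_class2 (a N M c R : ℕ) (hM : 1 ≤ M) (hR : 2 ≤ R) :
    (((Ico a (a + N)).filter
      (fun p => p.Prime ∧ p ≡ c [MOD M])).card : ℝ) ≤
      R + (N : ℝ) / (M.totient * Real.log R) + (R : ℝ) ^ 2 := by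
  classical
  set lam := lamW M R with hlam
  have hR1 : 1 ≤ R := by omega
  have hl1 : lam 1 = 1 := lamW_one M R hR1
  have hlc : ∀ d, lam d ≠ 0 → (1 ≤ d ∧ d ≤ R) ∧ Squarefree d ∧ Nat.Coprime d M := by
    intro d hd
    exact mem_AA.1 (lamW_ne hd)
  have hlb : ∀ d, |lam d| ≤ 1 := fun d => abs_lamW_le M R d hR1
  have hlog : 0 < Real.log R := Real.log_pos (by exact_mod_cast hR)
  have hM0 : (0 : ℝ) < M := by exact_mod_cast hM
  have hphi : (0 : ℝ) < M.totient := by exact_mod_cast Nat.totient_pos.2 hM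
  have hq : ∑ d₁ ∈ Finset.Icc 1 R, ∑ d₂ ∈ Finset.Icc 1 R, lam d₁ * lam d₂ / (Nat.lcm d₁ d₂ : ℝ) ≤
      (M : ℝ) / (M.totient * Real.log R) := by
    rw [hlam, quad M R hR1]
    have h1 := GG_lower M R (by omega)
    have h2 := GG_pos M R hR1
    rw [div_le_div_iff₀ h2 (by positivity), one_mul]
    have h3 : Real.log R * M.totient ≤ M * GG M R := by
      have h4 := mul_le_mul_of_nonneg_right h1 hphi.le
      calc Real.log R * M.totient ≤ (M : ℝ) / M.totient * GG M R * M.totient := h4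
        _ = M * GG M R := by field_simp
    linarith
  set S := (Ico a (a + N)).filter (fun n => n ≡ c [MOD M]) with hS
  -- small primes
  have h1 : (((Ico a (a + N)).filter
      (fun p => p.Prime ∧ p ≡ c [MOD M])).card : ℝ) ≤
      R + ∑ n ∈ S, (∑ d ∈ (Icc 1 R).filter (fun d => d ∣ n), lam d) ^ 2 := by
    set T := (Ico a (a + N)).filter
      (fun p => p.Prime ∧ p ≡ c [MOD M]) with hT
    have h2 : T.card = (T.filter (fun p => p ≤ R)).card + (T.filter (fun p => ¬ p ≤ R)).card :=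
      (Finset.card_filter_add_card_filter_not (fun p => p ≤ R)).symm
    have h3 : (T.filter (fun p => p ≤ R)).card ≤ R := by
      have h4 : T.filter (fun p => p ≤ R) ⊆ Icc 1 R := by
        intro p hp
        rw [Finset.mem_filter, hT, Finset.mem_filter] at hp
        rw [Finset.mem_Icc]
        exact ⟨hp.1.2.1.one_le, hp.2⟩
      have h5 := Finset.card_le_card h4
      rwa [Nat.card_Icc, Nat.add_sub_cancel] at h5
    have h6 : ((T.filter (fun p => ¬ p ≤ R)).card : ℝ) ≤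
        ∑ n ∈ S, (∑ d ∈ (Icc 1 R).filter (fun d => d ∣ n), lam d) ^ 2 := by
      have hsub : T.filter (fun p => ¬ p ≤ R) ⊆ S := by
        intro p hp
        rw [Finset.mem_filter, hT, Finset.mem_filter] at hp
        rw [hS, Finset.mem_filter]
        exact ⟨hp.1.1, hp.1.2.2⟩
      rw [Finset.card_eq_sum_ones, Nat.cast_sum]
      refine le_trans (Finset.sum_le_sum ?_) (Finset.sum_le_sum_of_subset_of_nonneg hsub
        (fun _ _ _ => sq_nonneg _))
      intro p hp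
      rw [Finset.mem_filter, hT, Finset.mem_filter] at hp
      have h7 : ∑ d ∈ (Icc 1 R).filter (fun d => d ∣ p), lam d = 1 := by
        rw [Finset.sum_eq_single 1]
        · exact hl1
        · intro d hd hd1
          rw [Finset.mem_filter, Finset.mem_Icc] at hd
          rcases (Nat.dvd_prime hp.1.2.1).1 hd.2 with h | h
          · exact absurd h hd1
          · exact absurd (h ▸ hd.1.2) hp.2
        · intro h
          refine absurd ?_ h
          rw [Finset.mem_filter, Finset.mem_Icc]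
          exact ⟨⟨le_refl _, by omega⟩, one_dvd _⟩
      rw [h7]
      norm_num
    rw [h2]
    push_cast
    have h3' : ((T.filter (fun p => p ≤ R)).card : ℝ) ≤ R := by exact_mod_cast h3
    linarith
  -- expansion
  have h2 : ∑ n ∈ S, (∑ d ∈ (Icc 1 R).filter (fun d => d ∣ n), lam d) ^ 2 =
      ∑ d₁ ∈ Icc 1 R, ∑ d₂ ∈ Icc 1 R, lam d₁ * lam d₂ *
        (((Finset.Ico a (a + N)).filter fun n => n ≡ c [MOD M] ∧ Nat.lcm d₁ d₂ ∣ n).card : ℝ) := by
    have h3 : ∀ n ∈ S, (∑ d ∈ (Icc 1 R).filter (fun d => d ∣ n), lam d) ^ 2 =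
        ∑ d₁ ∈ Icc 1 R, ∑ d₂ ∈ Icc 1 R, lam d₁ * lam d₂ *
          (if Nat.lcm d₁ d₂ ∣ n then 1 else 0) := by
      intro n hn
      rw [Finset.sum_filter, sq, Finset.sum_mul_sum]
      apply Finset.sum_congr rfl
      intro d₁ _
      apply Finset.sum_congr rfl
      intro d₂ _
      have h4 : Nat.lcm d₁ d₂ ∣ n ↔ d₁ ∣ n ∧ d₂ ∣ n := Nat.lcm_dvd_iff
      by_cases c1 : d₁ ∣ n
      · by_cases c2 : d₂ ∣ n
        · rw [if_pos c1, if_pos c2, if_pos (h4.2 ⟨c1, c2⟩), mul_one]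
        · rw [if_neg c2, if_neg (fun h => c2 (h4.1 h).2), mul_zero, mul_zero]
      · rw [if_neg c1, if_neg (fun h => c1 (h4.1 h).1), mul_zero, zero_mul]
    rw [Finset.sum_congr rfl h3, Finset.sum_comm]
    apply Finset.sum_congr rfl
    intro d₁ _
    rw [Finset.sum_comm]
    apply Finset.sum_congr rfl
    intro d₂ _
    rw [← Finset.mul_sum]
    congr 1
    rw [← Finset.sum_filter, Finset.card_eq_sum_ones, Nat.cast_sum, hS, Finset.filter_filter]
    simp only [Nat.cast_one]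
  have h5 : ∀ d₁ ∈ Icc 1 R, ∀ d₂ ∈ Icc 1 R, lam d₁ * lam d₂ *
        (((Finset.Ico a (a + N)).filter fun n => n ≡ c [MOD M] ∧ Nat.lcm d₁ d₂ ∣ n).card : ℝ) ≤
      (N : ℝ) / M * (lam d₁ * lam d₂ / (Nat.lcm d₁ d₂ : ℝ)) + 1 := by
    intro d₁ h₁ d₂ h₂
    rw [Finset.mem_Icc] at h₁ h₂
    by_cases hz : lam d₁ * lam d₂ = 0
    · rw [hz]
      simp only [zero_mul, zero_div, mul_zero, zero_add]
      positivity
    have hz1 : lam d₁ ≠ 0 := left_ne_zero_of_mul hz
    have hz2 : lam d₂ ≠ 0 := right_ne_zero_of_mul hz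
    have hl0 : 0 < Nat.lcm d₁ d₂ := Nat.lcm_pos h₁.1 h₂.1
    have hcop : Nat.Coprime M (Nat.lcm d₁ d₂) := by
      have e1 := (hlc d₁ hz1).2.2
      have e2 := (hlc d₂ hz2).2.2
      have e3 : Nat.Coprime (d₁ * d₂) M := Nat.Coprime.mul_left e1 e2
      exact (Nat.Coprime.coprime_dvd_left (Nat.lcm_dvd_mul d₁ d₂) e3).symm
    have h6 := card_class_dvd a N M c (Nat.lcm d₁ d₂) hM hl0 hcop
    set X := (((Finset.Ico a (a + N)).filter
      fun n => n ≡ c [MOD M] ∧ Nat.lcm d₁ d₂ ∣ n).card : ℝ) with hX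
    have h7 : |lam d₁ * lam d₂| ≤ 1 := by
      rw [abs_mul]
      exact mul_le_one₀ (hlb d₁) (abs_nonneg _) (hlb d₂)
    have h8 : lam d₁ * lam d₂ * (X - (N : ℝ) / M * (1 / (Nat.lcm d₁ d₂ : ℝ))) ≤ 1 := by
      refine (le_abs_self _).trans ?_
      rw [abs_mul]
      exact mul_le_one₀ h7 (abs_nonneg _) h6
    have h9 : (N : ℝ) / M * (lam d₁ * lam d₂ / (Nat.lcm d₁ d₂ : ℝ)) =
        lam d₁ * lam d₂ * ((N : ℝ) / M * (1 / (Nat.lcm d₁ d₂ : ℝ))) := by ring
    rw [h9]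
    nlinarith
  have h6 : ∑ n ∈ S, (∑ d ∈ (Icc 1 R).filter (fun d => d ∣ n), lam d) ^ 2 ≤
      (N : ℝ) / (M.totient * Real.log R) + (R : ℝ) ^ 2 := by
    rw [h2]
    refine (Finset.sum_le_sum fun d₁ h₁ => Finset.sum_le_sum fun d₂ h₂ => h5 d₁ h₁ d₂ h₂).trans ?_
    simp only [Finset.sum_add_distrib, ← Finset.mul_sum, Finset.sum_const, Nat.card_Icc,
      Nat.add_sub_cancel, nsmul_eq_mul]
    have h7 : (N : ℝ) / M * ∑ d₁ ∈ Icc 1 R, ∑ d₂ ∈ Icc 1 R,
        lam d₁ * lam d₂ / (Nat.lcm d₁ d₂ : ℝ) ≤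
        (N : ℝ) / M * ((M : ℝ) / (M.totient * Real.log R)) :=
      mul_le_mul_of_nonneg_left hq (by positivity)
    have h8 : (N : ℝ) / M * ((M : ℝ) / (M.totient * Real.log R)) =
        (N : ℝ) / (M.totient * Real.log R) := by
      field_simp
    rw [h8] at h7
    have h9 : (R : ℝ) * (R * 1) = (R : ℝ) ^ 2 := by ring
    rw [h9]
    linarith
  linarith

end Pool.Agent.Helper18.CA
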