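import Pool.Agent.Helper18.BV.St

/-!
# Project CA (MP_87fff7_nt): statements on primes in arithmetic progressions

Level of distribution `1/2` with smooth logarithmic weights supported in `[x^(1-ε), x]`, also for
primes twisted by a fixed Dirichlet character.
-/

set_option autoImplicit false

open Finset Filter Topology
open scoped ArithmeticFunction.vonMangoldt ArithmeticFunction.Moebius ArithmeticFunction.zeta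

namespace Pool.Agent.Helper18.CA

open Pool.Agent.Helper18.BV

/-- The twist of an arithmetic function by a Dirichlet character. -/
noncomputable def tw {M : ℕ} (χ : DirichletCharacter ℂ M) (f : ArithmeticFunction ℂ) :
    ArithmeticFunction ℂ :=
  ⟨fun n => f n * χ (n : ZMod M), by simp⟩

theorem tw_apply {M : ℕ} (χ : DirichletCharacter ℂ M) (f : ArithmeticFunction ℂ) (n : ℕ) :
    tw χ f n = f n * χ (n : ZMod M) := rfl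

/-- Type I sums with weights supported in `[x^η, x]`. -/
def TypeOneE : Prop :=
  ∀ g : ℝ → ℝ, IsWt g → ∀ η : ℝ, 0 < η → η < 1 → (∀ v, v ≤ η → g v = 0) →
    ∃ C : ℝ, 0 < C ∧ ∀ x : ℝ, 3 ≤ x →
    ∀ (q : ℕ) [NeZero q] (χ : DirichletCharacter ℂ q), χ ≠ 1 →
    ∀ (M : ℕ) (c : ArithmeticFunction ℂ) (Kc : ℝ), (∀ m ≤ M, ‖c m‖ ≤ Kc) →
      (∀ m, M < m → c m = 0) →
      ‖SS (c * zeC : ArithmeticFunction ℂ) g x χ‖ ≤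
        C * q * M * Kc * Real.log x * x ^ (-η) ∧
      ‖SS (c * D zeC : ArithmeticFunction ℂ) g x χ‖ ≤
        C * q * M * Kc * Real.log x * x ^ (-η)

/-- The multiplicative large sieve. -/
def MLS : Prop :=
  ∃ C : ℝ, 0 < C ∧ ∀ (Q N : ℕ) (a : ℕ → ℂ),
    ∑ q ∈ Icc 1 Q, ((q : ℝ) / q.totient) * ∑ χ ∈ prim q,
      ‖∑ n ∈ Icc 1 N, a n * χ (n : ZMod q)‖ ^ 2 ≤ C * ((N : ℝ) + (Q : ℝ) ^ 2) *
        ∑ n ∈ Icc 1 N, ‖a n‖ ^ 2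

/-- Type II sums, level `1/2`. -/
def TypeTwoE : Prop :=
  ∀ g : ℝ → ℝ, IsWt g → ∃ C : ℝ, 0 < C ∧ ∀ η : ℝ, 0 < η → η < 1 → (∀ v, v ≤ η → g v = 0) →
    ∀ x : ℝ, 3 ≤ x → ∀ (Q0 Q U : ℕ), 1 ≤ Q0 → 1 ≤ U → (Q : ℝ) ≤ x →
    ∀ a b : ArithmeticFunction ℂ, (∀ n ≤ U, a n = 0) → (∀ n ≤ U, b n = 0) →
      (∀ n, ‖a n‖ ≤ 1) → (∀ n : ℕ, (n : ℝ) ≤ x → ‖b n‖ ≤ Real.log x) →
      ∑ q ∈ Ioc Q0 Q, (1 / (q.totient : ℝ)) * ∑ χ ∈ prim q,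
        ‖SS (a * b : ArithmeticFunction ℂ) g x χ‖ ≤
        C * Real.log x ^ 4 * (1 / (Q0 : ℝ) + 1 / Real.sqrt U + (Q : ℝ) * x ^ (-(η / 2)))

/-- Primitive characters of large conductor on average, twisted by a fixed character. -/
def LargeTw : Prop :=
  ∀ ε : ℝ, 0 < ε → ε ≤ 1 / 2 → ∀ g : ℝ → ℝ, IsWt g → (∀ v, v ≤ 1 - ε → g v = 0) →
    ∀ A : ℝ, 0 < A → ∃ B C X0 : ℝ, 0 < B ∧ 0 < C ∧ 3 ≤ X0 ∧ ∀ x : ℝ, X0 ≤ x →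
      ∀ (M : ℕ) [NeZero M] (χ : DirichletCharacter ℂ M), (M : ℝ) ≤ x ^ (ε / 8) →
      ∑ q ∈ (Ioc ⌊Real.log x ^ B⌋₊ ⌊x ^ (1 / 2 - ε)⌋₊).filter (fun q => q.Coprime M),
        (1 / (q.totient : ℝ)) * ∑ ψ ∈ prim q, ‖SS (tw χ LaC) g x ψ‖ ≤ C / Real.log x ^ A

/-- Primes in one residue class for every modulus up to `x ^ (1/2 - ε)`, on average. -/
def BVhalf : Prop :=
  ∀ ε : ℝ, 0 < ε → ε ≤ 1 / 2 → ∀ g : ℝ → ℝ, IsWt g → (∀ v, v ≤ 1 - ε → g v = 0) →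
    ∀ A : ℝ, 0 < A → ∃ C X0 : ℝ, 0 < C ∧ 3 ≤ X0 ∧
    ∀ x : ℝ, X0 ≤ x → ∀ c : ℕ → ℕ, (∀ d, Nat.Coprime (c d) d) →
      ∑ d ∈ Icc 1 ⌊x ^ (1 / 2 - ε)⌋₊,
        |∑ n ∈ (Icc 1 ⌊x⌋₊).filter (fun n => n ≡ c d [MOD d]), Λ n * wt g x n -
          (1 / (d.totient : ℝ)) * ∑ n ∈ Icc 1 ⌊x⌋₊, Λ n * wt g x n| ≤ C / Real.log x ^ A

end Pool.Agent.Helper18.CA
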