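import Pool.Agent.Helper18.BV.WtLemmas
import Pool.Agent.Helper44.MertensInterval
import Pool.Agent.Helper89.SLE.Div

/-!
# Project CA, step 0: auxiliary sums
-/

set_option autoImplicit false

open Finset
open scoped ArithmeticFunction.vonMangoldt

namespace Pool.Agent.Helper18.CA

open Pool.Agent.Helper18.BV

/-- Sums of `1 / φ` with the right constant. -/
def PhiSum (c0 C : ℝ) : Prop := 0 < c0 ∧ 0 < C ∧
  (∀ A B : ℝ, 0 < A → A ≤ B →
    ∑ s ∈ Ioc ⌊A⌋₊ ⌊B⌋₊, (1 : ℝ) / s.totient ≤ c0 * Real.log (B / A) + C) ∧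
  (∀ A B : ℝ, 1 ≤ A → A ≤ B →
    c0 * Real.log (B / A) - C ≤ ∑ s ∈ Ioc ⌊A⌋₊ ⌊B⌋₊, (1 : ℝ) / s.totient)

theorem sum_mult {c0 C : ℝ} (h : PhiSum c0 C) {a b : ℝ} (ha : 0 < a) (hab : a ≤ b) {r : ℕ}
    (hr : r.Prime) (S : Finset ℕ) (hS : ∀ n ∈ S, a < n ∧ (n : ℝ) ≤ b ∧ r ∣ n) :
    ∑ n ∈ S, (1 : ℝ) / n.totient ≤ (1 / ((r : ℝ) - 1)) * (c0 * Real.log (b / a) + C) := by
  classical
  have hr1 : (1 : ℝ) < r := by exact_mod_cast hr.one_lt
  have hr0 : (0 : ℝ) < r := by linarith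
  have h1 : ∀ n ∈ S, (1 : ℝ) / n.totient ≤ (1 / ((r : ℝ) - 1)) * (1 / ((n / r : ℕ).totient : ℝ)) := by
    intro n hn
    obtain ⟨h2, h3, k, hk⟩ := hS n hn
    have hn0 : 0 < n := by
      have : (0 : ℝ) < n := ha.trans h2
      exact_mod_cast this
    have hk0 : 0 < k := Nat.pos_of_ne_zero (by rintro rfl; simp at hk; omega)
    have h4 : n / r = k := by rw [hk]; exact Nat.mul_div_cancel_left k hr.pos
    rw [h4]
    have h5 : r.totient * k.totient ≤ n.totient := by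
      rw [hk]; exact Nat.totient_super_multiplicative r k
    rw [Nat.totient_prime hr] at h5
    have h6 : ((r : ℝ) - 1) * k.totient ≤ n.totient := by
      have h7 : (((r - 1) * k.totient : ℕ) : ℝ) ≤ n.totient := by exact_mod_cast h5
      rw [Nat.cast_mul, Nat.cast_sub hr.one_le, Nat.cast_one] at h7
      exact h7
    have h8 : (0 : ℝ) < k.totient := by exact_mod_cast Nat.totient_pos.2 hk0
    rw [one_div_mul_one_div]
    apply one_div_le_one_div_of_le _ h6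
    have : 0 < (r : ℝ) - 1 := by linarith
    positivity
  refine (Finset.sum_le_sum h1).trans ?_
  rw [← Finset.mul_sum]
  apply mul_le_mul_of_nonneg_left _ (by
    have : 0 < (r : ℝ) - 1 := by linarith
    positivity)
  have hinj : Set.InjOn (fun n => n / r) (S : Set ℕ) := by
    intro n hn n' hn' he
    obtain ⟨_, _, h2⟩ := hS n hn
    obtain ⟨_, _, h3⟩ := hS n' hn'
    simp only at he
    rw [← Nat.div_mul_cancel h2, ← Nat.div_mul_cancel h3, he]
  have h2 : ∑ n ∈ S, (1 : ℝ) / ((n / r : ℕ).totient : ℝ) =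
      ∑ s ∈ S.image (fun n => n / r), (1 : ℝ) / s.totient := by
    rw [Finset.sum_image hinj]
  rw [h2]
  have hdiv : a / r ≤ b / r := div_le_div_of_nonneg_right hab hr0.le
  have h3 := h.2.2.1 (a / r) (b / r) (by positivity) hdiv
  have h4 : b / r / (a / r) = b / a := by field_simp
  rw [h4] at h3
  refine le_trans (Finset.sum_le_sum_of_subset_of_nonneg ?_ (fun _ _ _ => by positivity)) h3
  intro s hs
  obtain ⟨n, hn, rfl⟩ := Finset.mem_image.1 hs
  obtain ⟨h5, h6, h7⟩ := hS n hn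
  have h8 : ((n / r : ℕ) : ℝ) = (n : ℝ) / r := by
    rw [Nat.cast_div h7 hr0.ne']
  rw [Finset.mem_Ioc]
  constructor
  · rw [Nat.floor_lt (by positivity), h8]
    exact div_lt_div_of_pos_right h5 hr0
  · apply Nat.le_floor
    rw [h8]
    exact div_le_div_of_nonneg_right h6 hr0.le

theorem bad_sum {c0 C : ℝ} (h : PhiSum c0 C) {a b : ℝ} (ha : 0 < a) (hab : a ≤ b)
    (P : Finset ℕ) (hP : ∀ r ∈ P, r.Prime) (S : Finset ℕ)
    (hS : ∀ n ∈ S, a < n ∧ (n : ℝ) ≤ b ∧ ∃ r ∈ P, r ∣ n) :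
    ∑ n ∈ S, (1 : ℝ) / n.totient ≤
      (∑ r ∈ P, 1 / ((r : ℝ) - 1)) * (c0 * Real.log (b / a) + C) := by
  classical
  have h1 : ∑ n ∈ S, (1 : ℝ) / n.totient ≤
      ∑ n ∈ S, ∑ r ∈ P, if r ∣ n then (1 : ℝ) / n.totient else 0 := by
    refine Finset.sum_le_sum fun n hn => ?_
    obtain ⟨_, _, r, hr, hrn⟩ := hS n hn
    have h2 := Finset.single_le_sum (f := fun r => if r ∣ n then (1 : ℝ) / n.totient else 0)
      (fun i _ => by
        show (0 : ℝ) ≤ if i ∣ n then (1 : ℝ) / n.totient else 0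
        split_ifs
        · positivity
        · exact le_rfl) hr
    simp only [if_pos hrn] at h2
    exact h2
  refine h1.trans ?_
  rw [Finset.sum_comm, Finset.sum_mul]
  refine Finset.sum_le_sum fun r hr => ?_
  rw [← Finset.sum_filter]
  apply sum_mult h ha hab (hP r hr)
  intro n hn
  rw [Finset.mem_filter] at hn
  obtain ⟨h3, h4, _⟩ := hS n hn.1
  exact ⟨h3, h4, hn.2⟩

theorem prime_sum {θ γ : ℝ} (hθ : 0 < θ) (hγ : θ ≤ γ) : ∃ C X0 : ℝ, 0 < C ∧ 3 ≤ X0 ∧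
    ∀ x : ℝ, X0 ≤ x → ∑ r ∈ (Ioc ⌊x ^ θ⌋₊ ⌊x ^ γ⌋₊).filter Nat.Prime, 1 / ((r : ℝ) - 1) ≤
      Real.log (γ / θ) + C / Real.log x := by
  obtain ⟨C, hC, hM⟩ := Helper44.mertens_interval
  refine ⟨C / θ + 4 / θ, max 3 ((2 : ℝ) ^ (1 / θ)), by positivity, le_max_left _ _, ?_⟩
  intro x hx
  have hx3 : 3 ≤ x := (le_max_left _ _).trans hx
  have hx0 : 0 < x := by linarith
  have hL : 0 < Real.log x := Real.log_pos (by linarith)
  have hx2 : 2 ≤ x ^ θ := by
    calc (2 : ℝ) = ((2 : ℝ) ^ (1 / θ)) ^ θ := by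
          rw [← Real.rpow_mul (by norm_num), one_div_mul_cancel hθ.ne', Real.rpow_one]
      _ ≤ x ^ θ := Real.rpow_le_rpow (by positivity) ((le_max_right _ _).trans hx) hθ.le
  have hle : x ^ θ ≤ x ^ γ := Real.rpow_le_rpow_of_exponent_le (by linarith) hγ
  have h1 := hM (x ^ θ) (x ^ γ) hx2 hle
  rw [Real.log_rpow hx0, Real.log_rpow hx0, mul_div_mul_right _ _ hL.ne'] at h1
  have h2 := (abs_le.1 h1).2
  set a := ⌊x ^ θ⌋₊ with ha
  set b := ⌊x ^ γ⌋₊ with hb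
  have ha2 : 2 ≤ a := Nat.le_floor (by simpa using hx2)
  have h3 : ∑ r ∈ (Ioc a b).filter Nat.Prime, 1 / ((r : ℝ) - 1) ≤
      ∑ r ∈ (Ioc a b).filter Nat.Prime, (1 : ℝ) / r +
        ∑ r ∈ (Ioc a b).filter Nat.Prime, 2 * ((r : ℝ) ^ 2)⁻¹ := by
    rw [← Finset.sum_add_distrib]
    refine Finset.sum_le_sum fun r hr => ?_
    rw [Finset.mem_filter, Finset.mem_Ioc] at hr
    have hr2 : (2 : ℝ) ≤ r := by exact_mod_cast hr.2.two_le
    have hr1 : 0 < (r : ℝ) - 1 := by linarith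
    rw [← one_div, mul_one_div, div_add_div _ _ (by positivity) (by positivity),
      div_le_div_iff₀ hr1 (by positivity)]
    nlinarith
  have h4 : ∑ r ∈ (Ioc a b).filter Nat.Prime, 2 * ((r : ℝ) ^ 2)⁻¹ ≤ 4 / (θ * Real.log x) := by
    have h5 : ∑ r ∈ (Ioc a b).filter Nat.Prime, 2 * ((r : ℝ) ^ 2)⁻¹ ≤
        ∑ r ∈ Ioo a (b + 1), 2 * ((r : ℝ) ^ 2)⁻¹ := by
      refine Finset.sum_le_sum_of_subset_of_nonneg ?_ (fun _ _ _ => by positivity)
      intro r hr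
      rw [Finset.mem_filter, Finset.mem_Ioc] at hr
      rw [Finset.mem_Ioo]
      omega
    rw [← Finset.mul_sum _ _ (2 : ℝ), ← Finset.mul_sum _ _ (2 : ℝ)] at h5
    rw [← Finset.mul_sum _ _ (2 : ℝ)]
    have h6 := sum_Ioo_inv_sq_le (α := ℝ) a (b + 1)
    have h7 : x ^ θ < (a : ℝ) + 1 := Nat.lt_floor_add_one _
    have h8 : θ * Real.log x ≤ x ^ θ := by
      rw [← Real.log_rpow hx0]
      have := Real.log_le_sub_one_of_pos (show 0 < x ^ θ by positivity)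
      linarith
    have h9 : 0 < θ * Real.log x := by positivity
    calc _ ≤ 2 * ∑ r ∈ Ioo a (b + 1), ((r : ℝ) ^ 2)⁻¹ := h5
      _ ≤ 2 * (2 / ((a : ℝ) + 1)) := by linarith
      _ = 4 / ((a : ℝ) + 1) := by ring
      _ ≤ 4 / (θ * Real.log x) := div_le_div_of_nonneg_left (by norm_num) h9 (by linarith)
  have h5 : (C / θ + 4 / θ) / Real.log x = C / (θ * Real.log x) + 4 / (θ * Real.log x) := by
    field_simp
  rw [h5]
  linarith

/-- prime powers which are not primes -/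
theorem card_nonprime (N : ℕ) :
    ((Icc 1 N).filter (fun n => IsPrimePow n ∧ ¬ n.Prime)).card ≤ Nat.sqrt N * Nat.log 2 N := by
  classical
  have hsub : (Icc 1 N).filter (fun n => IsPrimePow n ∧ ¬ n.Prime) ⊆
      (Icc 1 (Nat.sqrt N) ×ˢ Icc 1 (Nat.log 2 N)).image (fun p : ℕ × ℕ => p.1 ^ p.2) := by
    intro n hn
    obtain ⟨h1, h3, h2⟩ := Finset.mem_filter.mp hn
    rw [Finset.mem_Icc] at h1
    obtain ⟨p, k, hp, hk, rfl⟩ := h3
    have hp' : p.Prime := Nat.prime_iff.mpr hp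
    have hk2 : 2 ≤ k := by
      by_contra hcon
      have : k = 1 := by omega
      rw [this, pow_one] at h2
      exact h2 hp'
    refine Finset.mem_image.mpr ⟨(p, k), ?_, rfl⟩
    rw [Finset.mem_product, Finset.mem_Icc, Finset.mem_Icc]
    refine ⟨⟨hp'.one_le, ?_⟩, hk, ?_⟩
    · rw [Nat.le_sqrt]
      calc p * p = p ^ 2 := (sq p).symm
        _ ≤ p ^ k := Nat.pow_le_pow_right hp'.pos hk2
        _ ≤ N := h1.2
    · have h4 : 2 ^ k ≤ N := (Nat.pow_le_pow_left hp'.two_le k).trans h1.2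
      exact Nat.le_log_of_pow_le (by norm_num) h4
  refine (Finset.card_le_card hsub).trans (Finset.card_image_le.trans ?_)
  rw [Finset.card_product, Nat.card_Icc, Nat.card_Icc, Nat.add_sub_cancel, Nat.add_sub_cancel]

end Pool.Agent.Helper18.CA
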