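import Pool.Agent.Helper18.CA.Step0a
import Pool.Agent.Helper18.CA.BT
import Pool.Agent.Helper51.BV.Average

/-!
# Project CA, step 0: the pairs
-/

set_option autoImplicit false

open Finset
open scoped ArithmeticFunction.vonMangoldt

namespace Pool.Agent.Helper18.CA

open Pool.Agent.Helper18.BV

theorem A_lower {c0 C : ℝ} (h : PhiSum c0 C) {a b : ℝ} (ha : 1 ≤ a) (hab : a ≤ b)
    (P : Finset ℕ) (hP : ∀ r ∈ P, r.Prime) :
    c0 * Real.log (b / a) - C - (∑ r ∈ P, 1 / ((r : ℝ) - 1)) * (c0 * Real.log (b / a) + C) ≤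
      ∑ m ∈ (Ioc ⌊a⌋₊ ⌊b⌋₊).filter (fun m => ∀ r ∈ P, ¬ r ∣ m), (1 : ℝ) / m.totient := by
  classical
  have h1 := h.2.2.2 a b ha hab
  have h2 := bad_sum h (by linarith : 0 < a) hab P hP
    ((Ioc ⌊a⌋₊ ⌊b⌋₊).filter (fun m => ¬ ∀ r ∈ P, ¬ r ∣ m)) (by
      intro n hn
      rw [Finset.mem_filter, Finset.mem_Ioc] at hn
      refine ⟨(Nat.floor_lt (by linarith)).1 hn.1.1, ?_, ?_⟩
      · exact (Nat.cast_le.2 hn.1.2).trans (Nat.floor_le (by linarith))
      · have h3 := hn.2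
        push Not at h3
        exact h3)
  have h3 := Finset.sum_filter_add_sum_filter_not (Ioc ⌊a⌋₊ ⌊b⌋₊) (fun m => ∀ r ∈ P, ¬ r ∣ m)
    (fun m => (1 : ℝ) / m.totient)
  linarith

theorem wt_zero_of {g : ℝ → ℝ} {σ : ℝ} (hσ : ∀ v, v ≤ σ → g v = 0) {x : ℝ} (hx : 3 ≤ x) {n : ℕ}
    (hn : (n : ℝ) ≤ x ^ σ) : wt g x n = 0 := by
  rcases Nat.eq_zero_or_pos n with h0 | h0
  · subst h0; unfold wt; simp
  have hlog : 0 < Real.log x := Real.log_pos (by linarith)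
  have hn0 : (0 : ℝ) < n := by exact_mod_cast h0
  unfold wt
  rw [hσ, zero_div]
  rw [div_le_iff₀ hlog, ← Real.log_rpow (by linarith)]
  exact Real.log_le_log hn0 hn

theorem wt_le_of {g : ℝ → ℝ} (hg1 : ∀ v, g v ≤ 1) {σ : ℝ} (hσ : ∀ v, v ≤ σ → g v = 0) {x : ℝ}
    (hx : 3 ≤ x) (n : ℕ) : wt g x n ≤ 1 / x ^ σ := by
  have hxs : 0 < x ^ σ := Real.rpow_pos_of_pos (by linarith) _
  by_cases h : (n : ℝ) ≤ x ^ σ
  · rw [wt_zero_of hσ hx h]; positivity
  · rw [not_le] at h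
    unfold wt
    exact div_le_div₀ zero_le_one (hg1 _) hxs h.le

/-- The contribution of the prime powers. -/
theorem np_small {t : ℝ} (ht : 0 < t) (ht1 : t ≤ 1 / 2) : ∃ X0 : ℝ, 3 ≤ X0 ∧ ∀ x : ℝ, X0 ≤ x →
    ∀ g : ℝ → ℝ, IsWt g → (∀ v, g v ≤ 1) → (∀ v, v ≤ 1 - t ^ 2 → g v = 0) →
    ∀ S : Finset ℕ, (S.card : ℝ) ≤ x ^ (1 / 2 - t) →
    ∑ m ∈ S, ∑ n ∈ (Icc 1 ⌊x⌋₊).filter (fun n => n ≡ 1 [MOD m] ∧ ¬ n.Prime), Λ n * wt g x n ≤
      1 := by
  classical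
  have ht2 : 0 < t - t ^ 2 := by nlinarith
  have hev : ∀ᶠ x : ℝ in Filter.atTop, 2 * Real.log x ^ (2 : ℝ) ≤ x ^ (t - t ^ 2) := by
    have h := isLittleO_log_rpow_rpow_atTop (2 : ℝ) ht2
    have h' := h.bound (by norm_num : (0 : ℝ) < 1 / 2)
    filter_upwards [h', Filter.eventually_ge_atTop (1 : ℝ)] with x hx hx1
    rw [Real.norm_of_nonneg (Real.rpow_nonneg (Real.log_nonneg hx1) _),
      Real.norm_of_nonneg (Real.rpow_nonneg (by linarith) _)] at hx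
    linarith
  obtain ⟨X1, hX1⟩ := Filter.eventually_atTop.1 hev
  refine ⟨max 3 X1, le_max_left _ _, ?_⟩
  intro x hx g hg hg1 hσ S hS
  have hx3 : 3 ≤ x := (le_max_left _ _).trans hx
  have hx0 : 0 < x := by linarith
  have he := hX1 x ((le_max_right _ _).trans hx)
  have hlog : 0 < Real.log x := Real.log_pos (by linarith)
  set T := (Icc 1 ⌊x⌋₊).filter (fun n => IsPrimePow n ∧ ¬ n.Prime) with hT
  have h1 : ∀ m ∈ S, ∑ n ∈ (Icc 1 ⌊x⌋₊).filter (fun n => n ≡ 1 [MOD m] ∧ ¬ n.Prime),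
      Λ n * wt g x n ≤ T.card * (Real.log x * (1 / x ^ (1 - t ^ 2))) := by
    intro m _
    have h2 : ∑ n ∈ (Icc 1 ⌊x⌋₊).filter (fun n => n ≡ 1 [MOD m] ∧ ¬ n.Prime),
        Λ n * wt g x n ≤ ∑ n ∈ T, Λ n * wt g x n := by
      have h3 : ∑ n ∈ ((Icc 1 ⌊x⌋₊).filter (fun n => n ≡ 1 [MOD m] ∧ ¬ n.Prime)).filter
          (fun n => IsPrimePow n), Λ n * wt g x n =
          ∑ n ∈ (Icc 1 ⌊x⌋₊).filter (fun n => n ≡ 1 [MOD m] ∧ ¬ n.Prime), Λ n * wt g x n := by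
        apply Finset.sum_filter_of_ne
        intro n _ hne
        by_contra hcon
        apply hne
        rw [ArithmeticFunction.vonMangoldt_eq_zero_iff.mpr hcon, zero_mul]
      rw [← h3]
      refine Finset.sum_le_sum_of_subset_of_nonneg ?_ (fun n _ _ =>
        mul_nonneg ArithmeticFunction.vonMangoldt_nonneg (wt_nonneg hg _ _))
      intro n hn
      rw [Finset.mem_filter, Finset.mem_filter] at hn
      rw [hT, Finset.mem_filter]
      exact ⟨hn.1.1, hn.2, hn.1.2.2⟩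
    refine h2.trans ?_
    have h3 : ∀ n ∈ T, Λ n * wt g x n ≤ Real.log x * (1 / x ^ (1 - t ^ 2)) := by
      intro n hn
      rw [hT, Finset.mem_filter, Finset.mem_Icc] at hn
      have hn1 : (1 : ℝ) ≤ n := by exact_mod_cast hn.1.1
      have hnx : (n : ℝ) ≤ x := (Nat.cast_le.mpr hn.1.2).trans (Nat.floor_le (by linarith))
      have hL : Λ n ≤ Real.log x := by
        refine (ArithmeticFunction.vonMangoldt_le_log (n := n)).trans ?_
        exact Real.log_le_log (by linarith) hnx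
      exact mul_le_mul hL (wt_le_of hg1 hσ hx3 n) (wt_nonneg hg _ _) hlog.le
    refine (Finset.sum_le_card_nsmul _ _ _ h3).trans (le_of_eq (nsmul_eq_mul _ _))
  refine (Finset.sum_le_card_nsmul _ _ _ h1).trans ?_
  rw [nsmul_eq_mul]
  have hTc : (T.card : ℝ) ≤ x ^ (1 / 2 : ℝ) * (2 * Real.log x) := by
    have h4 : (T.card : ℝ) ≤ (Nat.sqrt ⌊x⌋₊ : ℝ) * (Nat.log 2 ⌊x⌋₊ : ℕ) := by
      exact_mod_cast card_nonprime ⌊x⌋₊
    have h5 : ((Nat.sqrt ⌊x⌋₊ : ℕ) : ℝ) ≤ x ^ (1 / 2 : ℝ) := by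
      rw [← Real.sqrt_eq_rpow]
      refine (Real.nat_sqrt_le_real_sqrt).trans (Real.sqrt_le_sqrt (Nat.floor_le hx0.le))
    have h6 := Helper51.BV.natlog_le hx3
    exact h4.trans (mul_le_mul h5 h6 (Nat.cast_nonneg _) (by positivity))
  have hx12 : 0 < x ^ (1 - t ^ 2) := by positivity
  calc (S.card : ℝ) * (T.card * (Real.log x * (1 / x ^ (1 - t ^ 2))))
      ≤ x ^ (1 / 2 - t) * (x ^ (1 / 2 : ℝ) * (2 * Real.log x) *
          (Real.log x * (1 / x ^ (1 - t ^ 2)))) := by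
        apply mul_le_mul hS _ (by positivity) (by positivity)
        exact mul_le_mul_of_nonneg_right hTc (by positivity)
    _ = (x ^ (1 / 2 - t) * x ^ (1 / 2 : ℝ)) * (2 * Real.log x ^ 2) / x ^ (1 - t ^ 2) := by ring
    _ = x ^ (1 - t) * (2 * Real.log x ^ 2) / x ^ (1 - t ^ 2) := by
        rw [← Real.rpow_add hx0]; congr 3; ring
    _ ≤ 1 := by
        rw [div_le_one hx12]
        have h7 : x ^ (1 - t ^ 2) = x ^ (1 - t) * x ^ (t - t ^ 2) := by
          rw [← Real.rpow_add hx0]; congr 1; ring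
        rw [h7]
        apply mul_le_mul_of_nonneg_left _ (by positivity)
        rw [Real.rpow_two] at he
        exact he

/-- The pairs `(m, p)` for which `(p - 1) / m` has a prime factor in `P`. -/
theorem bad_upper {c0 C : ℝ} (h : PhiSum c0 C) {t : ℝ} (ht : 0 < t) (ht1 : t ≤ 1 / 100) :
    ∃ X0 : ℝ, 3 ≤ X0 ∧ ∀ x : ℝ, X0 ≤ x →
    ∀ P : Finset ℕ, (∀ r ∈ P, r.Prime) → ∀ S : Finset (ℕ × ℕ),
      (∀ s ∈ S, x ^ (1 / 2 - 2 * t) < s.1 ∧ (s.1 : ℝ) ≤ x ^ (1 / 2 - t) ∧ s.2.Prime ∧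
        x ^ (1 - t ^ 2) < s.2 ∧ (s.2 : ℝ) ≤ x ∧ s.1 ∣ s.2 - 1 ∧ ∃ r ∈ P, r ∣ (s.2 - 1) / s.1) →
      ∑ s ∈ S, Real.log s.2 / s.2 ≤ (2 + t) / (1 / 2 - 3 * t) * (t ^ 2 * Real.log x + 2) *
        ((∑ r ∈ P, 1 / ((r : ℝ) - 1)) * (c0 * ((t + t ^ 2) * Real.log x + 1) + C)) := by
  classical
  obtain ⟨X0, hX0, hbt⟩ := bt_log t (1 / 2 + 2 * t) (1 - t ^ 2) 1 ht (by linarith) (by linarith)
    (by nlinarith) (by nlinarith)
  refine ⟨X0, hX0, ?_⟩
  intro x hx P hP S hS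
  have hx3 : 3 ≤ x := hX0.trans hx
  have hx0 : 0 < x := by linarith
  have hlog : 0 < Real.log x := Real.log_pos (by linarith)
  set a' : ℝ := x ^ (1 / 2 + t - t ^ 2) / 2 with ha'
  set b' : ℝ := x ^ (1 / 2 + 2 * t) with hb'
  have ha'0 : 0 < a' := by positivity
  have hab' : a' ≤ b' := by
    have h1 : x ^ (1 / 2 + t - t ^ 2) ≤ b' :=
      Real.rpow_le_rpow_of_exponent_le (by linarith) (by nlinarith)
    have h2 : 0 < x ^ (1 / 2 + t - t ^ 2) := by positivity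
    rw [ha']
    linarith
  set N := (Ioc ⌊a'⌋₊ ⌊b'⌋₊).filter (fun n => ∃ r ∈ P, r ∣ n) with hN
  set f : ℕ × ℕ → (Σ _ : ℕ, ℕ) := fun s => ⟨(s.2 - 1) / s.1, s.2⟩ with hf
  have hs0 : ∀ s ∈ S, 0 < s.1 ∧ 2 ≤ s.2 := by
    intro s hs
    obtain ⟨h1, h2, h3, _⟩ := hS s hs
    constructor
    · have : (0 : ℝ) < s.1 := lt_trans (by positivity) h1
      exact_mod_cast this
    · exact h3.two_le
  have hinj : Set.InjOn f (S : Set (ℕ × ℕ)) := by
    rintro ⟨m, p⟩ h1 ⟨m', p'⟩ h2 he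
    simp only [hf, Sigma.mk.injEq, heq_eq_eq] at he
    obtain ⟨he1, he2⟩ := he
    subst he2
    have d1 := (hS _ h1).2.2.2.2.2.1
    have d2 := (hS _ h2).2.2.2.2.2.1
    simp only at d1 d2
    have p1 := (hs0 _ h1)
    have p2 := (hs0 _ h2)
    simp only at p1 p2
    have e1 : (p - 1) / m * m = p - 1 := Nat.div_mul_cancel d1
    have e2 : (p - 1) / m' * m' = p - 1 := Nat.div_mul_cancel d2
    have hq : 0 < (p - 1) / m := Nat.div_pos (Nat.le_of_dvd (by omega) d1) p1.1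
    rw [he1] at e1 hq
    have : (p - 1) / m' * m = (p - 1) / m' * m' := by rw [e1, e2]
    have := Nat.eq_of_mul_eq_mul_left hq this
    rw [this]
  have h1 : ∑ s ∈ S, Real.log s.2 / s.2 = ∑ s ∈ S.image f, Real.log s.2 / s.2 := by
    rw [Finset.sum_image hinj]
  rw [h1]
  have hsub : S.image f ⊆ N.sigma (fun n => (Ioc ⌊x ^ (1 - t ^ 2)⌋₊ ⌊x ^ (1 : ℝ)⌋₊).filter
      (fun p => p.Prime ∧ p ≡ 1 [MOD n])) := by
    intro y hy
    obtain ⟨⟨m, p⟩, hs, rfl⟩ := Finset.mem_image.1 hy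
    obtain ⟨h1, h2, h3, h4, h5, h6, r, hr, hr'⟩ := hS _ hs
    simp only at h1 h2 h3 h4 h5 h6 hr'
    have p1 := (hs0 _ hs)
    simp only at p1
    have hm0 : (0 : ℝ) < m := by exact_mod_cast p1.1
    have e1 : (p - 1) / m * m = p - 1 := Nat.div_mul_cancel h6
    have e2 : (((p - 1) / m : ℕ) : ℝ) * m = (p : ℝ) - 1 := by
      rw [← Nat.cast_mul, e1, Nat.cast_sub (by omega), Nat.cast_one]
    have hdvd : (p - 1) / m ∣ p - 1 := ⟨m, e1.symm⟩
    refine Finset.mem_sigma.2 ⟨?_, Finset.mem_filter.2 ⟨Finset.mem_Ioc.2 ⟨?_, ?_⟩, h3, ?_⟩⟩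
    · rw [hN]
      refine Finset.mem_filter.2 ⟨Finset.mem_Ioc.2 ⟨?_, ?_⟩, r, hr, hr'⟩
      · rw [Nat.floor_lt ha'0.le]
        have h7 : x ^ (1 - t ^ 2) / 2 < (p : ℝ) - 1 := by
          have h8 : 2 ≤ x ^ (1 - t ^ 2) := by
            have h9 : (2 : ℝ) ^ (1 : ℝ) ≤ x ^ (1 - t ^ 2) := by
              calc (2 : ℝ) ^ (1 : ℝ) = 2 := by norm_num
                _ ≤ x ^ (3 / 4 : ℝ) := by
                  have h10 : (2 : ℝ) = ((2 : ℝ) ^ (4 / 3 : ℝ)) ^ (3 / 4 : ℝ) := by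
                    rw [← Real.rpow_mul (by norm_num)]; norm_num
                  rw [h10]
                  apply Real.rpow_le_rpow (by positivity) _ (by norm_num)
                  have h11 : (2 : ℝ) ^ (4 / 3 : ℝ) ≤ 3 := by
                    have h12 : ((2 : ℝ) ^ (4 / 3 : ℝ)) ^ 3 ≤ 3 ^ 3 := by
                      rw [← Real.rpow_natCast, ← Real.rpow_mul (by norm_num)]
                      norm_num
                    exact le_of_pow_le_pow_left₀ (by norm_num) (by norm_num) h12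
                  linarith
                _ ≤ x ^ (1 - t ^ 2) :=
                  Real.rpow_le_rpow_of_exponent_le (by linarith) (by nlinarith)
            simpa using h9
          linarith
        have h8 : a' * m ≤ x ^ (1 - t ^ 2) / 2 := by
          calc a' * m ≤ a' * x ^ (1 / 2 - t) := mul_le_mul_of_nonneg_left h2 ha'0.le
            _ = x ^ (1 - t ^ 2) / 2 := by
              rw [ha', div_mul_eq_mul_div, ← Real.rpow_add hx0]
              congr 2; ring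
        have h9 : a' * m < (((p - 1) / m : ℕ) : ℝ) * m := by rw [e2]; linarith
        exact lt_of_mul_lt_mul_right h9 hm0.le
      · apply Nat.le_floor
        have h7 : (((p - 1) / m : ℕ) : ℝ) * m ≤ b' * m := by
          rw [e2]
          calc (p : ℝ) - 1 ≤ x := by linarith
            _ = b' * x ^ (1 / 2 - 2 * t) := by
              rw [hb', ← Real.rpow_add hx0]
              ring_nf
              rw [Real.rpow_one]
            _ ≤ b' * m := mul_le_mul_of_nonneg_left h1.le (by positivity)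
        exact le_of_mul_le_mul_right h7 hm0
    · rw [Nat.floor_lt (by positivity)]; exact h4
    · apply Nat.le_floor; rw [Real.rpow_one]; exact h5
    · exact ((Nat.modEq_iff_dvd' (by omega)).2 hdvd).symm
  have h2 : ∑ s ∈ S.image f, Real.log s.2 / s.2 ≤ ∑ n ∈ N,
      ∑ p ∈ (Ioc ⌊x ^ (1 - t ^ 2)⌋₊ ⌊x ^ (1 : ℝ)⌋₊).filter
      (fun p => p.Prime ∧ p ≡ 1 [MOD n]), Real.log p / p := by
    refine (Finset.sum_le_sum_of_subset_of_nonneg hsub (fun y _ _ =>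
      div_nonneg (Real.log_natCast_nonneg _) (Nat.cast_nonneg _))).trans (le_of_eq ?_)
    exact Finset.sum_sigma _ _ _
  refine h2.trans ?_
  have hκ0 : 0 < 1 / 2 - 3 * t := by linarith
  have h3 : ∀ n ∈ N, ∑ p ∈ (Ioc ⌊x ^ (1 - t ^ 2)⌋₊ ⌊x ^ (1 : ℝ)⌋₊).filter
      (fun p => p.Prime ∧ p ≡ 1 [MOD n]), Real.log p / p ≤
      ((2 + t) / (1 / 2 - 3 * t) * (t ^ 2 * Real.log x + 2)) * (1 / (n.totient : ℝ)) := by
    intro n hn
    have hn' := Finset.mem_Ioc.1 (Finset.mem_filter.1 hn).1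
    have hn1 : 1 ≤ n := by omega
    have hnb : (n : ℝ) ≤ x ^ (1 / 2 + 2 * t) :=
      (Nat.cast_le.2 hn'.2).trans (Nat.floor_le (by positivity))
    refine (hbt x hx n 1 hn1 hnb).trans ?_
    have e1 : (1 - t ^ 2) / (1 - t ^ 2 - (1 / 2 + 2 * t)) ≤ 1 / (1 / 2 - 3 * t) :=
      div_le_div₀ zero_le_one (by nlinarith) hκ0 (by nlinarith)
    have e2 : (1 - (1 - t ^ 2)) * Real.log x + 2 = t ^ 2 * Real.log x + 2 := by ring
    rw [e2]
    have e3 : 0 < t ^ 2 * Real.log x + 2 := by positivity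
    calc (2 + t) * ((1 - t ^ 2) / (1 - t ^ 2 - (1 / 2 + 2 * t))) * (t ^ 2 * Real.log x + 2) /
          (n.totient : ℝ) ≤ (2 + t) * (1 / (1 / 2 - 3 * t)) * (t ^ 2 * Real.log x + 2) /
          (n.totient : ℝ) := by gcongr
      _ = _ := by ring
  refine (Finset.sum_le_sum h3).trans ?_
  rw [← Finset.mul_sum]
  apply mul_le_mul_of_nonneg_left _ (by positivity)
  have h4 := bad_sum h ha'0 hab' P hP N (by
    intro n hn
    have hn' := Finset.mem_filter.1 hn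
    have hn'' := Finset.mem_Ioc.1 hn'.1
    refine ⟨(Nat.floor_lt ha'0.le).1 hn''.1, (Nat.cast_le.2 hn''.2).trans
      (Nat.floor_le (by positivity)), hn'.2⟩)
  refine h4.trans ?_
  have hS0 : 0 ≤ ∑ r ∈ P, 1 / ((r : ℝ) - 1) := by
    refine Finset.sum_nonneg fun r hr => ?_
    have : (1 : ℝ) < r := by exact_mod_cast (hP r hr).one_lt
    have : 0 < (r : ℝ) - 1 := by linarith
    positivity
  apply mul_le_mul_of_nonneg_left _ hS0
  have h5 : Real.log (b' / a') ≤ (t + t ^ 2) * Real.log x + 1 := by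
    have h6 : b' / a' = 2 * x ^ (t + t ^ 2) := by
      have h7 : x ^ (1 / 2 + 2 * t) = x ^ (t + t ^ 2) * x ^ (1 / 2 + t - t ^ 2) := by
        rw [← Real.rpow_add hx0]; congr 1; ring
      rw [ha', hb', h7]
      have h8 : 0 < x ^ (1 / 2 + t - t ^ 2) := by positivity
      field_simp
    rw [h6, Real.log_mul (by norm_num) (by positivity), Real.log_rpow hx0]
    have := Real.log_two_lt_d9
    linarith
  have := mul_le_mul_of_nonneg_left h5 h.1.le
  linarith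

end Pool.Agent.Helper18.CA
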