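import Pool.Agent.Helper18.CA.Step0b
import Pool.Agent.Helper18.CA.St
import Pool.Agent.Helper34.CA.St
import Pool.Agent.Helper5.CA.SmDef

/-!
# Project CA, step 0: smooth shifted primes beyond the square root
-/

set_option autoImplicit false

open Finset Filter Topology
open scoped ArithmeticFunction.vonMangoldt

namespace Pool.Agent.Helper18.CA

open Pool.Agent.Helper18.BV

/-- The parameter `t`. -/
theorem exists_t {lam η d : ℝ} (hlam : 5 * lam < 1) (hη : 0 < η) (hd : 0 < d) :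
    ∃ t : ℝ, 0 < t ∧ t ≤ 1 / 100 ∧ t ≤ η / 8 ∧ t ≤ d ∧
      0 < (1 - t) * (1 - lam - t) - (2 + t) / (1 / 2 - 3 * t) * (1 + t) * (lam + 5 * t) := by
  have hc : ContinuousAt (fun t : ℝ =>
      (1 - t) * (1 - lam - t) - (2 + t) / (1 / 2 - 3 * t) * (1 + t) * (lam + 5 * t)) 0 := by
    have : (1 / 2 - 3 * (0 : ℝ)) ≠ 0 := by norm_num
    fun_prop (disch := assumption)
  have h0 : 0 < (1 - (0 : ℝ)) * (1 - lam - 0) -
      (2 + 0) / (1 / 2 - 3 * 0) * (1 + 0) * (lam + 5 * 0) := by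
    norm_num
    linarith
  have hev := hc.eventually (lt_mem_nhds h0)
  rw [Metric.eventually_nhds_iff] at hev
  obtain ⟨e, he, hev⟩ := hev
  refine ⟨min (min (1 / 100) (η / 8)) (min d (e / 2)), by positivity, ?_, ?_, ?_, ?_⟩
  · exact (min_le_left _ _).trans (min_le_left _ _)
  · exact (min_le_left _ _).trans (min_le_right _ _)
  · exact (min_le_right _ _).trans (min_le_left _ _)
  · apply hev
    rw [Real.dist_eq, sub_zero, abs_of_pos (by positivity)]
    have : min (min (1 / 100) (η / 8)) (min d (e / 2)) ≤ e / 2 :=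
      (min_le_right _ _).trans (min_le_right _ _)
    linarith

/-- The main term beats the error terms. -/
theorem numerics {c0 C C1 C2 C4 K t lam : ℝ} (hc0 : 0 < c0) (ht : 0 < t)
    (hF : 0 < (1 - t) * (1 - lam - t) - K * (1 + t) * (lam + 5 * t)) :
    ∃ L0 : ℝ, 1 ≤ L0 ∧ ∀ L : ℝ, L0 ≤ L → 1 ≤ (1 - t) * t ^ 2 * L *
      (c0 * (t * L) - C - (lam + C1 / L + t) * (c0 * (t * L) + C)) - C4 / L - 1 -
      K * (t ^ 2 * L + 2) *
        ((lam + 4 * t + C2 / L + t) * (c0 * ((t + t ^ 2) * L + 1) + C)) := by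
  set Ψ : ℝ → ℝ := fun u => (1 - t) * t ^ 2 *
      (c0 * t - C * u - (lam + C1 * u + t) * (c0 * t + C * u)) - C4 * u ^ 3 - u ^ 2 -
      K * (t ^ 2 + 2 * u) *
        ((lam + 4 * t + C2 * u + t) * (c0 * ((t + t ^ 2) + u) + C * u)) with hΨ
  have hc : ContinuousAt Ψ 0 := by
    rw [hΨ]; fun_prop
  have h0 : Ψ 0 = c0 * t ^ 3 * ((1 - t) * (1 - lam - t) - K * (1 + t) * (lam + 5 * t)) := by
    rw [hΨ]; ring
  have h1 : 0 < Ψ 0 := by rw [h0]; positivity
  have hev := hc.eventually (lt_mem_nhds (show Ψ 0 / 2 < Ψ 0 by linarith))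
  rw [Metric.eventually_nhds_iff] at hev
  obtain ⟨e, he, hev⟩ := hev
  refine ⟨max (max 1 (2 / e)) (2 / Ψ 0), (le_max_left _ _).trans (le_max_left _ _), ?_⟩
  intro L hL
  have hL1 : 1 ≤ L := ((le_max_left _ _).trans (le_max_left _ _)).trans hL
  have hLe : 2 / e ≤ L := ((le_max_right _ _).trans (le_max_left _ _)).trans hL
  have hLΨ : 2 / Ψ 0 ≤ L := (le_max_right _ _).trans hL
  have hL0 : 0 < L := by linarith
  have h2 : Ψ 0 / 2 < Ψ (1 / L) := by
    apply hev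
    rw [Real.dist_eq, sub_zero, abs_of_pos (by positivity), one_div_lt hL0 he]
    have : 1 / e < 2 / e := div_lt_div_of_pos_right (by norm_num) he
    linarith
  have h3 : 1 ≤ L ^ 2 * Ψ (1 / L) := by
    have h4 : 1 ≤ L * (Ψ 0 / 2) := by
      rw [div_le_iff₀ h1] at hLΨ
      linarith
    have h5 : L * (Ψ 0 / 2) ≤ L * (L * (Ψ 0 / 2)) := by
      have : 0 ≤ L * (Ψ 0 / 2) := by positivity
      nlinarith
    have h6 : L ^ 2 * (Ψ 0 / 2) ≤ L ^ 2 * Ψ (1 / L) :=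
      mul_le_mul_of_nonneg_left h2.le (by positivity)
    have h7 : L * (L * (Ψ 0 / 2)) = L ^ 2 * (Ψ 0 / 2) := by ring
    linarith
  refine h3.trans (le_of_eq ?_)
  rw [hΨ]
  field_simp

theorem sum_inv_R {B : ℕ} {t : ℝ} (ht : 0 < t) {R : Finset ℕ} (hR : R.card ≤ B)
    (hR2 : ∀ q ∈ R, q.Prime ∧ ⌈(B : ℝ) / t⌉₊ + 2 ≤ q) : ∑ r ∈ R, 1 / ((r : ℝ) - 1) ≤ t := by
  have hB : (0 : ℝ) ≤ B := Nat.cast_nonneg B
  have h1 : ∀ r ∈ R, 1 / ((r : ℝ) - 1) ≤ t / ((B : ℝ) + t) := by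
    intro r hr
    have h2 : (((⌈(B : ℝ) / t⌉₊ + 2 : ℕ)) : ℝ) ≤ r := by exact_mod_cast (hR2 r hr).2
    push_cast at h2
    have h3 : (B : ℝ) / t ≤ ⌈(B : ℝ) / t⌉₊ := Nat.le_ceil _
    have h4 : (B : ℝ) / t + 1 ≤ (r : ℝ) - 1 := by linarith
    have h5 : ((B : ℝ) + t) / t ≤ (r : ℝ) - 1 := by
      rw [add_div, div_self ht.ne']; exact h4
    have h6 : 0 < ((B : ℝ) + t) / t := by positivity
    calc 1 / ((r : ℝ) - 1) ≤ 1 / (((B : ℝ) + t) / t) := one_div_le_one_div_of_le h6 h5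
      _ = t / ((B : ℝ) + t) := by rw [one_div_div]
  refine (Finset.sum_le_card_nsmul _ _ _ h1).trans ?_
  rw [nsmul_eq_mul]
  have h2 : (R.card : ℝ) ≤ B := by exact_mod_cast hR
  calc (R.card : ℝ) * (t / ((B : ℝ) + t)) ≤ B * (t / ((B : ℝ) + t)) :=
        mul_le_mul_of_nonneg_right h2 (by positivity)
    _ = t * (B / ((B : ℝ) + t)) := by ring
    _ ≤ t * 1 := by
        apply mul_le_mul_of_nonneg_left _ ht.le
        rw [div_le_one (by positivity)]
        linarith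
    _ = t := mul_one t

theorem sum_union_le (P R : Finset ℕ) (hP : ∀ r ∈ P, r.Prime) (hR : ∀ r ∈ R, r.Prime) :
    ∑ r ∈ P ∪ R, 1 / ((r : ℝ) - 1) ≤ ∑ r ∈ P, 1 / ((r : ℝ) - 1) + ∑ r ∈ R, 1 / ((r : ℝ) - 1) := by
  rw [← Finset.sum_union_inter]
  apply le_add_of_nonneg_right
  refine Finset.sum_nonneg fun r hr => ?_
  have : (1 : ℝ) < r := by exact_mod_cast (hP r (Finset.mem_inter.1 hr).1).one_lt
  have : 0 < (r : ℝ) - 1 := by linarith
  positivity

/-- Smooth shifted primes beyond the square root, avoiding a small set of primes. -/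
theorem smoothR {c0 C : ℝ} (hΦ : PhiSum c0 C) (hG : Helper34.CA.GoodWt) (hBV : BVhalf) (θ : ℝ)
    (hθ0 : 0 < θ) (hθ : θ < 1 / 2) (hlam : 5 * Real.log (1 / (2 * θ)) < 1) :
    Helper5.CA.Smooth θ := by
  classical
  intro B η hη
  set lam := Real.log (1 / (2 * θ)) with hlamdef
  obtain ⟨t, ht0, ht1, htη, htd, hF⟩ := exists_t (d := (1 / 2 - θ) / 2) hlam hη (by linarith)
  have hc0 := hΦ.1
  have hC0 := hΦ.2.1
  set K : ℝ := (2 + t) / (1 / 2 - 3 * t) with hK
  have hK0 : 0 < K := by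
    rw [hK]; apply div_pos <;> linarith
  have htt : 0 < t ^ 2 := by positivity
  have htt1 : t ^ 2 ≤ t / 100 := by nlinarith
  obtain ⟨g, hg, hg1, X3, hX3, hmass⟩ := hG (t ^ 2) t htt (by linarith) ht0 (by linarith)
  have hgw : IsWt g := hg.isWt (by linarith)
  have hσ : ∀ v, v ≤ 1 - t ^ 2 → g v = 0 := by
    intro v hv
    by_contra hne
    have := hg.supp (subset_tsupport g hne)
    linarith [this.1]
  obtain ⟨C1, X1, hC1, hX1, hp1⟩ := prime_sum (γ := 1 / 2 - t) hθ0 (by linarith)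
  obtain ⟨C2, X2, hC2, hX2, hp2⟩ := prime_sum (γ := 1 / 2 + 2 * t) hθ0 (by linarith)
  obtain ⟨C4, X4, hC4, hX4, hbv⟩ := hBV t ht0 (by linarith) g hgw
    (fun v hv => hσ v (by linarith)) 1 one_pos
  obtain ⟨X5, hX5, hnp⟩ := np_small ht0 (by linarith)
  obtain ⟨X6, hX6, hbad⟩ := bad_upper hΦ ht0 ht1
  obtain ⟨C7, hC7, hdiv⟩ := Helper89.SLE.divisor_bound t ht0
  obtain ⟨L0, hL0, hnum⟩ := numerics (C := C) (C1 := C1) (C2 := C2) (C4 := C4) hc0 ht0 hF
  have hev : ∀ᶠ x : ℝ in atTop, C7 * Real.log x ≤ x ^ (η / 2) := by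
    have h := isLittleO_log_rpow_atTop (by positivity : 0 < η / 2)
    have h' := h.bound (by positivity : (0 : ℝ) < 1 / C7)
    filter_upwards [h', Filter.eventually_ge_atTop (1 : ℝ)] with x hx hx1
    rw [Real.norm_of_nonneg (Real.log_nonneg hx1),
      Real.norm_of_nonneg (Real.rpow_nonneg (by linarith) _)] at hx
    have h7 : 0 < C7 := by linarith
    calc C7 * Real.log x ≤ C7 * (1 / C7 * x ^ (η / 2)) := mul_le_mul_of_nonneg_left hx h7.le
      _ = x ^ (η / 2) := by field_simp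
  obtain ⟨X8, hX8⟩ := Filter.eventually_atTop.1 hev
  set XX : ℝ := max (max (max X1 X2) (max X3 X4)) (max (max X5 X6) (max X8 (Real.exp L0))) with hXX
  refine ⟨⌈(B : ℝ) / t⌉₊ + 2, ⌈XX⌉₊, ?_⟩
  intro z hz R hRB hR
  set x : ℝ := (z : ℝ) with hx
  have hxX : XX ≤ x := (Nat.le_ceil XX).trans (by rw [hx]; exact_mod_cast hz)
  have hxX1 : X1 ≤ x := (le_trans (le_trans (le_max_left _ _) (le_max_left _ _))
    (le_max_left _ _)).trans hxX
  have hxX2 : X2 ≤ x := (le_trans (le_trans (le_max_right _ _) (le_max_left _ _))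
    (le_max_left _ _)).trans hxX
  have hxX3 : X3 ≤ x := (le_trans (le_trans (le_max_left _ _) (le_max_right _ _))
    (le_max_left _ _)).trans hxX
  have hxX4 : X4 ≤ x := (le_trans (le_trans (le_max_right _ _) (le_max_right _ _))
    (le_max_left _ _)).trans hxX
  have hxX5 : X5 ≤ x := (le_trans (le_trans (le_max_left _ _) (le_max_left _ _))
    (le_max_right _ _)).trans hxX
  have hxX6 : X6 ≤ x := (le_trans (le_trans (le_max_right _ _) (le_max_left _ _))
    (le_max_right _ _)).trans hxX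
  have hxX8 : X8 ≤ x := (le_trans (le_trans (le_max_left _ _) (le_max_right _ _))
    (le_max_right _ _)).trans hxX
  have hxL : Real.exp L0 ≤ x := (le_trans (le_trans (le_max_right _ _) (le_max_right _ _))
    (le_max_right _ _)).trans hxX
  have hx3 : 3 ≤ x := hX1.trans hxX1
  have hx0 : 0 < x := by linarith
  have hx1 : 1 ≤ x := by linarith
  set L := Real.log x with hL
  have hLL : L0 ≤ L := (Real.le_log_iff_exp_le hx0).2 hxL
  have hL1 : 1 ≤ L := hL0.trans hLL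
  have hLpos : 0 < L := by linarith
  have hfl : ⌊x⌋₊ = z := by rw [hx]; exact Nat.floor_natCast z
  -- the sets of primes
  set Q1 := (Ioc ⌊x ^ θ⌋₊ ⌊x ^ (1 / 2 - t)⌋₊).filter Nat.Prime with hQ1
  set Q2 := (Ioc ⌊x ^ θ⌋₊ ⌊x ^ (1 / 2 + 2 * t)⌋₊).filter Nat.Prime with hQ2
  set P1 := Q1 ∪ R with hP1
  set P2 := Q2 ∪ R with hP2
  have hRp : ∀ r ∈ R, r.Prime := fun r hr => (hR r hr).1
  have hQ1p : ∀ r ∈ Q1, r.Prime := fun r hr => (Finset.mem_filter.1 hr).2
  have hQ2p : ∀ r ∈ Q2, r.Prime := fun r hr => (Finset.mem_filter.1 hr).2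
  have hP1p : ∀ r ∈ P1, r.Prime := by
    intro r hr
    rcases Finset.mem_union.1 hr with h | h
    · exact hQ1p r h
    · exact hRp r h
  have hP2p : ∀ r ∈ P2, r.Prime := by
    intro r hr
    rcases Finset.mem_union.1 hr with h | h
    · exact hQ2p r h
    · exact hRp r h
  have hsR := sum_inv_R ht0 hRB hR
  have hS1 : ∑ r ∈ P1, 1 / ((r : ℝ) - 1) ≤ lam + C1 / L + t := by
    have h1 := sum_union_le Q1 R hQ1p hRp
    have h2 := hp1 x hxX1
    have h3 : Real.log ((1 / 2 - t) / θ) ≤ lam := by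
      rw [hlamdef]
      apply Real.log_le_log (by apply div_pos <;> linarith)
      rw [div_le_div_iff₀ hθ0 (by positivity)]
      nlinarith
    linarith
  have hS2 : ∑ r ∈ P2, 1 / ((r : ℝ) - 1) ≤ lam + 4 * t + C2 / L + t := by
    have h1 := sum_union_le Q2 R hQ2p hRp
    have h2 := hp2 x hxX2
    have h3 : Real.log ((1 / 2 + 2 * t) / θ) ≤ lam + 4 * t := by
      have h4 : (1 / 2 + 2 * t) / θ = (1 / (2 * θ)) * (1 + 4 * t) := by
        field_simp
        ring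
      rw [h4, Real.log_mul (by positivity) (by positivity), ← hlamdef]
      have := Real.log_le_sub_one_of_pos (show 0 < 1 + 4 * t by positivity)
      linarith
    linarith
  have hS1n : 0 ≤ ∑ r ∈ P1, 1 / ((r : ℝ) - 1) := by
    refine Finset.sum_nonneg fun r hr => ?_
    have : (1 : ℝ) < r := by exact_mod_cast (hP1p r hr).one_lt
    have : 0 < (r : ℝ) - 1 := by linarith
    positivity
  -- the set of the divisors `m`
  set a : ℝ := x ^ (1 / 2 - 2 * t) with ha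
  set b : ℝ := x ^ (1 / 2 - t) with hb
  have ha1 : 1 ≤ a := Real.one_le_rpow hx1 (by linarith)
  have hab : a ≤ b := Real.rpow_le_rpow_of_exponent_le hx1 (by linarith)
  have hba : Real.log (b / a) = t * L := by
    rw [ha, hb, ← Real.rpow_sub hx0, Real.log_rpow hx0]
    ring
  set MM := (Ioc ⌊a⌋₊ ⌊b⌋₊).filter (fun m => ∀ r ∈ P1, ¬ r ∣ m) with hMM
  have hMMb : ∀ m ∈ MM, a < m ∧ (m : ℝ) ≤ b ∧ ∀ r ∈ P1, ¬ r ∣ m := by
    intro m hm
    rw [hMM, Finset.mem_filter, Finset.mem_Ioc] at hm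
    exact ⟨(Nat.floor_lt (by linarith)).1 hm.1.1,
      (Nat.cast_le.2 hm.1.2).trans (Nat.floor_le (by linarith)), hm.2⟩
  have hMMcard : (MM.card : ℝ) ≤ x ^ (1 / 2 - t) := by
    have h1 : MM.card ≤ ⌊b⌋₊ := by
      refine (Finset.card_le_card (Finset.filter_subset _ _)).trans ?_
      rw [Nat.card_Ioc]
      exact Nat.sub_le _ _
    exact (Nat.cast_le.2 h1).trans (Nat.floor_le (by linarith))
  have hA := A_lower hΦ ha1 hab P1 hP1p
  rw [← hMM, hba] at hA
  set AA : ℝ := ∑ m ∈ MM, (1 : ℝ) / m.totient with hAA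
  have hAA0 : 0 ≤ AA := Finset.sum_nonneg fun _ _ => by positivity
  have hA' : c0 * (t * L) - C - (lam + C1 / L + t) * (c0 * (t * L) + C) ≤ AA := by
    have h1 : (∑ r ∈ P1, 1 / ((r : ℝ) - 1)) * (c0 * (t * L) + C) ≤
        (lam + C1 / L + t) * (c0 * (t * L) + C) :=
      mul_le_mul_of_nonneg_right hS1 (by positivity)
    linarith
  -- the total mass
  set Mz : ℝ := ∑ n ∈ Icc 1 ⌊x⌋₊, Λ n * wt g x n with hMz
  have hMz1 : (1 - t) * t ^ 2 * L ≤ Mz := hmass x hxX3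
  have hMz0 : 0 ≤ Mz := by
    refine le_trans ?_ hMz1
    have : 0 ≤ 1 - t := by linarith
    positivity
  have hprod : (1 - t) * t ^ 2 * L * (c0 * (t * L) - C - (lam + C1 / L + t) * (c0 * (t * L) + C)) ≤
      Mz * AA := by
    have h1 : 0 ≤ (1 - t) * t ^ 2 * L := by
      have : 0 ≤ 1 - t := by linarith
      positivity
    calc _ ≤ (1 - t) * t ^ 2 * L * AA := mul_le_mul_of_nonneg_left hA' h1
      _ ≤ Mz * AA := mul_le_mul_of_nonneg_right hMz1 hAA0
  -- Bombieri-Vinogradov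
  have hbvx := hbv x hxX4 (fun _ => 1) (fun d => Nat.coprime_one_left d)
  set T0 : ℝ := ∑ m ∈ MM, ∑ n ∈ (Icc 1 ⌊x⌋₊).filter (fun n => n ≡ 1 [MOD m]), Λ n * wt g x n
    with hT0
  have hT : Mz * AA - C4 / L ≤ T0 := by
    have h1 : Mz * AA - T0 ≤ C4 / L := by
      calc Mz * AA - T0 = ∑ m ∈ MM, ((1 / (m.totient : ℝ)) * Mz -
            ∑ n ∈ (Icc 1 ⌊x⌋₊).filter (fun n => n ≡ 1 [MOD m]), Λ n * wt g x n) := by
            rw [Finset.sum_sub_distrib, ← Finset.sum_mul, hAA, mul_comm]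
        _ ≤ ∑ m ∈ MM, |∑ n ∈ (Icc 1 ⌊x⌋₊).filter (fun n => n ≡ 1 [MOD m]), Λ n * wt g x n -
            (1 / (m.totient : ℝ)) * Mz| := by
            refine Finset.sum_le_sum fun m _ => ?_
            rw [abs_sub_comm]
            exact le_abs_self _
        _ ≤ ∑ m ∈ Icc 1 ⌊x ^ (1 / 2 - t)⌋₊,
            |∑ n ∈ (Icc 1 ⌊x⌋₊).filter (fun n => n ≡ 1 [MOD m]), Λ n * wt g x n -
            (1 / (m.totient : ℝ)) * Mz| := by
            refine Finset.sum_le_sum_of_subset_of_nonneg ?_ (fun _ _ _ => abs_nonneg _)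
            intro m hm
            rw [hMM, Finset.mem_filter, Finset.mem_Ioc] at hm
            exact Finset.mem_Icc.2 ⟨by omega, hm.1.2⟩
        _ ≤ C4 / L := by
            rw [Real.rpow_one] at hbvx
            exact hbvx
    linarith
  -- the pairs
  set Pr : Finset (ℕ × ℕ) := (MM ×ˢ Icc 1 z).filter (fun s => s.2.Prime ∧ s.2 ≡ 1 [MOD s.1])
    with hPr
  set W : ℕ × ℕ → ℝ := fun s => Λ s.2 * wt g x s.2 with hW
  have hW0 : ∀ s, 0 ≤ W s := fun s =>
    mul_nonneg ArithmeticFunction.vonMangoldt_nonneg (wt_nonneg hgw _ _)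
  have hTP : T0 ≤ ∑ s ∈ Pr, W s + 1 := by
    have h1 := hnp x hxX5 g hgw hg1 hσ MM hMMcard
    have h2 : ∑ s ∈ Pr, W s = ∑ m ∈ MM, ∑ n ∈ (Icc 1 ⌊x⌋₊).filter
        (fun n => n ≡ 1 [MOD m] ∧ n.Prime), Λ n * wt g x n := by
      rw [hPr, Finset.sum_filter, Finset.sum_product, hfl]
      refine Finset.sum_congr rfl fun m _ => ?_
      rw [← Finset.sum_filter]
      refine Finset.sum_congr ?_ fun _ _ => rfl
      ext n
      simp only [Finset.mem_filter]
      tauto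
    have h3 : T0 = ∑ m ∈ MM, ∑ n ∈ (Icc 1 ⌊x⌋₊).filter
        (fun n => n ≡ 1 [MOD m] ∧ n.Prime), Λ n * wt g x n +
        ∑ m ∈ MM, ∑ n ∈ (Icc 1 ⌊x⌋₊).filter (fun n => n ≡ 1 [MOD m] ∧ ¬ n.Prime),
          Λ n * wt g x n := by
      rw [hT0, ← Finset.sum_add_distrib]
      refine Finset.sum_congr rfl fun m _ => ?_
      rw [← Finset.sum_filter_add_sum_filter_not ((Icc 1 ⌊x⌋₊).filter (fun n => n ≡ 1 [MOD m]))
        (fun n => n.Prime), Finset.filter_filter, Finset.filter_filter]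
    rw [h3, h2]
    linarith
  set Gd := Pr.filter (fun s => ∀ r ∈ P2, ¬ r ∣ (s.2 - 1) / s.1) with hGd
  set Bd := Pr.filter (fun s => ¬ ∀ r ∈ P2, ¬ r ∣ (s.2 - 1) / s.1) with hBd
  have hsplit : ∑ s ∈ Pr, W s = ∑ s ∈ Gd, W s + ∑ s ∈ Bd, W s :=
    (Finset.sum_filter_add_sum_filter_not Pr (fun s => ∀ r ∈ P2, ¬ r ∣ (s.2 - 1) / s.1) W).symm
  have hPrm : ∀ s ∈ Pr, s.1 ∈ MM ∧ 1 ≤ s.2 ∧ s.2 ≤ z ∧ s.2.Prime ∧ s.1 ∣ s.2 - 1 := by
    intro s hs
    rw [hPr, Finset.mem_filter, Finset.mem_product, Finset.mem_Icc] at hs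
    exact ⟨hs.1.1, hs.1.2.1, hs.1.2.2, hs.2.1, (Nat.modEq_iff_dvd' hs.1.2.1).1 hs.2.2.symm⟩
  -- the bad pairs
  have hBdle : ∑ s ∈ Bd, W s ≤ K * (t ^ 2 * L + 2) *
      ((lam + 4 * t + C2 / L + t) * (c0 * ((t + t ^ 2) * L + 1) + C)) := by
    set Bd' := Bd.filter (fun s => x ^ (1 - t ^ 2) < (s.2 : ℝ)) with hBd'
    have h1 : ∑ s ∈ Bd, W s = ∑ s ∈ Bd', W s := by
      symm
      apply Finset.sum_filter_of_ne
      intro s _ hne
      by_contra hcon
      push Not at hcon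
      apply hne
      simp only [hW]
      rw [wt_zero_of hσ hx3 hcon, mul_zero]
    have h2 : ∑ s ∈ Bd', W s ≤ ∑ s ∈ Bd', Real.log s.2 / s.2 := by
      refine Finset.sum_le_sum fun s hs => ?_
      have hs' := hPrm s (Finset.mem_filter.1 (Finset.mem_filter.1 hs).1).1
      simp only [hW]
      rw [ArithmeticFunction.vonMangoldt_apply_prime hs'.2.2.2.1]
      unfold wt
      rw [← mul_div_assoc]
      apply div_le_div_of_nonneg_right _ (Nat.cast_nonneg _)
      exact mul_le_of_le_one_right (Real.log_natCast_nonneg _) (hg1 _)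
    have h3 := hbad x hxX6 P2 hP2p Bd' (by
      intro s hs
      have hsB := Finset.mem_filter.1 (Finset.mem_filter.1 hs).1
      have hs' := hPrm s hsB.1
      have hm := hMMb s.1 hs'.1
      have h4 := hsB.2
      push Not at h4
      refine ⟨hm.1, hm.2.1, hs'.2.2.2.1, (Finset.mem_filter.1 hs).2, ?_, hs'.2.2.2.2, h4⟩
      rw [hx]
      exact_mod_cast hs'.2.2.1)
    rw [h1]
    refine h2.trans (h3.trans ?_)
    apply mul_le_mul_of_nonneg_left _ (by positivity)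
    exact mul_le_mul_of_nonneg_right hS2 (by positivity)
  have hGdle : 1 ≤ ∑ s ∈ Gd, W s := by
    have h1 := hnum L hLL
    linarith
  -- the good pairs
  have hGs : ∀ s ∈ Gd, s.2 ∈ Helper5.CA.smp z (x ^ θ) R := by
    intro s hs
    have hsG := Finset.mem_filter.1 hs
    have hs' := hPrm s hsG.1
    have hm := hMMb s.1 hs'.1
    rw [Helper5.CA.mem_smp]
    refine ⟨⟨hs'.2.1, hs'.2.2.1⟩, hs'.2.2.2.1, ?_⟩
    intro q hq hqd
    have hm0 : 0 < s.1 := by
      have : (0 : ℝ) < s.1 := by linarith [hm.1]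
      exact_mod_cast this
    have hm0' : (0 : ℝ) < s.1 := by exact_mod_cast hm0
    have hp2 : 2 ≤ s.2 := hs'.2.2.2.1.two_le
    have e1 : (s.2 - 1) / s.1 * s.1 = s.2 - 1 := Nat.div_mul_cancel hs'.2.2.2.2
    have hn0 : 0 < (s.2 - 1) / s.1 := Nat.div_pos (Nat.le_of_dvd (by omega) hs'.2.2.2.2) hm0
    have hnle : (((s.2 - 1) / s.1 : ℕ) : ℝ) ≤ x ^ (1 / 2 + 2 * t) := by
      have e2 : (((s.2 - 1) / s.1 : ℕ) : ℝ) * s.1 = (s.2 : ℝ) - 1 := by
        rw [← Nat.cast_mul, e1, Nat.cast_sub (by omega), Nat.cast_one]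
      have h7 : (((s.2 - 1) / s.1 : ℕ) : ℝ) * s.1 ≤ x ^ (1 / 2 + 2 * t) * s.1 := by
        rw [e2]
        have hsz : (s.2 : ℝ) ≤ x := by rw [hx]; exact_mod_cast hs'.2.2.1
        calc (s.2 : ℝ) - 1 ≤ x := by linarith
          _ = x ^ (1 / 2 + 2 * t) * a := by
            rw [ha, ← Real.rpow_add hx0]
            ring_nf
            rw [Real.rpow_one]
          _ ≤ x ^ (1 / 2 + 2 * t) * s.1 := mul_le_mul_of_nonneg_left hm.1.le (by positivity)
      exact le_of_mul_le_mul_right h7 hm0'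
    rw [← e1] at hqd
    by_contra hcon
    rw [not_and_or, not_not] at hcon
    rcases (Nat.Prime.dvd_mul hq).1 hqd with h | h
    · -- `q` divides `(p - 1) / m`
      apply hsG.2 q _ h
      rw [hP2, Finset.mem_union]
      rcases hcon with h1 | h1
      · left
        rw [hQ2, Finset.mem_filter, Finset.mem_Ioc]
        rw [not_le] at h1
        refine ⟨⟨(Nat.floor_lt (by positivity)).2 h1, Nat.le_floor ?_⟩, hq⟩
        have h2 : q ≤ (s.2 - 1) / s.1 := Nat.le_of_dvd hn0 h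
        exact (Nat.cast_le.2 h2).trans hnle
      · right; exact h1
    · apply hm.2.2 q _ h
      rw [hP1, Finset.mem_union]
      rcases hcon with h1 | h1
      · left
        rw [hQ1, Finset.mem_filter, Finset.mem_Ioc]
        rw [not_le] at h1
        refine ⟨⟨(Nat.floor_lt (by positivity)).2 h1, Nat.le_floor ?_⟩, hq⟩
        have h2 : q ≤ s.1 := Nat.le_of_dvd hm0 h
        exact (Nat.cast_le.2 h2).trans hm.2.1
      · right; exact h1
  have hGc : (Gd.card : ℝ) ≤ (Helper5.CA.smp z (x ^ θ) R).card * (C7 * x ^ t) := by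
    have h1 : Gd.card ≤ ((Helper5.CA.smp z (x ^ θ) R).sigma (fun p => (p - 1).divisors)).card := by
      apply Finset.card_le_card_of_injOn (fun s => (⟨s.2, s.1⟩ : Σ _ : ℕ, ℕ))
      · intro s hs
        have hs0 := Finset.mem_coe.1 hs
        have hs' := hPrm s (Finset.mem_filter.1 hs0).1
        have hp2 : 2 ≤ s.2 := hs'.2.2.2.1.two_le
        rw [Finset.mem_coe, Finset.mem_sigma]
        exact ⟨hGs s hs0, Nat.mem_divisors.2 ⟨hs'.2.2.2.2, by
          show s.2 - 1 ≠ 0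
          omega⟩⟩
      · rintro ⟨m, p⟩ _ ⟨m', p'⟩ _ he
        simp only [Sigma.mk.injEq, heq_eq_eq] at he
        rw [he.1, he.2]
    rw [Finset.card_sigma] at h1
    have h2 : ∀ p ∈ Helper5.CA.smp z (x ^ θ) R, (((p - 1).divisors.card : ℕ) : ℝ) ≤ C7 * x ^ t := by
      intro p hp
      rw [Helper5.CA.mem_smp] at hp
      have hp2 : 2 ≤ p := hp.2.1.two_le
      refine (hdiv (p - 1) (by omega)).trans ?_
      apply mul_le_mul_of_nonneg_left _ (by linarith)
      apply Real.rpow_le_rpow (Nat.cast_nonneg _) _ ht0.le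
      rw [hx]
      exact_mod_cast (Nat.sub_le p 1).trans hp.1.2
    have h3 : (Gd.card : ℝ) ≤ ∑ p ∈ Helper5.CA.smp z (x ^ θ) R, (((p - 1).divisors.card : ℕ) : ℝ) := by
      exact_mod_cast h1
    refine h3.trans ((Finset.sum_le_card_nsmul _ _ _ h2).trans (le_of_eq (nsmul_eq_mul _ _)))
  have hWle : ∀ s ∈ Gd, W s ≤ L * (1 / x ^ (1 - t ^ 2)) := by
    intro s hs
    have hs' := hPrm s (Finset.mem_filter.1 hs).1
    simp only [hW]
    rw [ArithmeticFunction.vonMangoldt_apply_prime hs'.2.2.2.1]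
    have h1 : Real.log s.2 ≤ L := by
      apply Real.log_le_log (by exact_mod_cast hs'.2.1)
      rw [hx]
      exact_mod_cast hs'.2.2.1
    exact mul_le_mul h1 (wt_le_of hg1 hσ hx3 _) (wt_nonneg hgw _ _) hLpos.le
  have hfin : 1 ≤ ((Helper5.CA.smp z (x ^ θ) R).card * (C7 * x ^ t)) *
      (L * (1 / x ^ (1 - t ^ 2))) := by
    refine hGdle.trans ((Finset.sum_le_card_nsmul _ _ _ hWle).trans ?_)
    rw [nsmul_eq_mul]
    exact mul_le_mul_of_nonneg_right hGc (by positivity)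
  have h8 := hX8 x hxX8
  rw [← hL] at h8
  have hxt : 0 < x ^ (1 - t ^ 2) := by positivity
  set cc : ℝ := ((Helper5.CA.smp z (x ^ θ) R).card : ℝ) with hcc
  have hcc0 : 0 ≤ cc := Nat.cast_nonneg _
  have h9 : x ^ (1 - t ^ 2) ≤ cc * (x ^ t * x ^ (η / 2)) := by
    have h10 : x ^ (1 - t ^ 2) * 1 ≤ x ^ (1 - t ^ 2) *
        ((cc * (C7 * x ^ t)) * (L * (1 / x ^ (1 - t ^ 2)))) :=
      mul_le_mul_of_nonneg_left hfin hxt.le
    rw [mul_one] at h10
    refine h10.trans (le_trans (le_of_eq ?_) (mul_le_mul_of_nonneg_left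
      (mul_le_mul_of_nonneg_left h8 (by positivity : 0 ≤ x ^ t)) hcc0))
    field_simp
  have h11 : x ^ (1 - η) * (x ^ t * x ^ (η / 2)) ≤ x ^ (1 - t ^ 2) := by
    rw [← Real.rpow_add hx0, ← Real.rpow_add hx0]
    apply Real.rpow_le_rpow_of_exponent_le hx1
    nlinarith
  have h12 : x ^ (1 - η) * (x ^ t * x ^ (η / 2)) ≤ cc * (x ^ t * x ^ (η / 2)) := h11.trans h9
  exact le_of_mul_le_mul_right h12 (by positivity)

end Pool.Agent.Helper18.CA
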