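import Pool.Agent.Helper18.CA.St
import Pool.Agent.Helper96.BV.Large

/-!
# Project CA: twists by a Dirichlet character
-/

set_option autoImplicit false

open Finset Filter Topology

namespace Pool.Agent.Helper18.CA

open Pool.Agent.Helper18.BV Pool.Agent.Helper96.BV

theorem tw_mul {M : ℕ} (χ : DirichletCharacter ℂ M) (a b : ArithmeticFunction ℂ) :
    tw χ (a * b) = tw χ a * tw χ b := by
  ext n
  rw [tw_apply, ArithmeticFunction.mul_apply, ArithmeticFunction.mul_apply, Finset.sum_mul]
  refine Finset.sum_congr rfl fun p hp => ?_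
  rw [tw_apply, tw_apply]
  have h := (Nat.mem_divisorsAntidiagonal.1 hp).1
  rw [← h]
  push_cast
  rw [map_mul]
  ring

/-- The product of two characters, modulo the product of the moduli. -/
noncomputable def pr {M q : ℕ} (χ : DirichletCharacter ℂ M) (ψ : DirichletCharacter ℂ q) :
    DirichletCharacter ℂ (M * q) :=
  DirichletCharacter.changeLevel (dvd_mul_right M q) χ *
    DirichletCharacter.changeLevel (dvd_mul_left q M) ψ

theorem pr_apply {M q : ℕ} (χ : DirichletCharacter ℂ M) (ψ : DirichletCharacter ℂ q) (n : ℕ) :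
    pr χ ψ (n : ZMod (M * q)) = χ (n : ZMod M) * ψ (n : ZMod q) := by
  unfold pr
  rw [MulChar.mul_apply]
  by_cases h : IsUnit ((n : ZMod (M * q)))
  · obtain ⟨u, hu⟩ := h
    rw [← hu]
    rw [DirichletCharacter.changeLevel_eq_cast_of_dvd, DirichletCharacter.changeLevel_eq_cast_of_dvd]
    rw [hu]
    rw [ZMod.cast_natCast (dvd_mul_right M q), ZMod.cast_natCast (dvd_mul_left q M)]
  · rw [MulChar.map_nonunit _ h, zero_mul]
    rw [ZMod.isUnit_iff_coprime, Nat.coprime_mul_iff_right, not_and_or] at h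
    rcases h with h | h
    · rw [χ.map_nonunit (by rwa [ZMod.isUnit_iff_coprime]), zero_mul]
    · rw [ψ.map_nonunit (by rwa [ZMod.isUnit_iff_coprime]), mul_zero]

theorem SS_tw {M q : ℕ} (χ : DirichletCharacter ℂ M) (ψ : DirichletCharacter ℂ q)
    (f : ArithmeticFunction ℂ) (g : ℝ → ℝ) (x : ℝ) :
    SS (tw χ f) g x ψ = SS f g x (pr χ ψ) := by
  unfold SS
  refine Finset.sum_congr rfl fun n _ => ?_
  rw [tw_apply, pr_apply]
  ring

/-- The product of a character and a primitive character of coprime modulus is nontrivial. -/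
theorem pr_ne_one {M q : ℕ} [NeZero M] (hq : 1 < q) (hc : q.Coprime M) (χ : DirichletCharacter ℂ M)
    {ψ : DirichletCharacter ℂ q} (hψ : ψ ∈ prim q) : pr χ ψ ≠ 1 := by
  intro h
  apply ne_one_of_prim hq hψ
  have : NeZero q := ⟨by omega⟩
  have : NeZero (M * q) := ⟨Nat.mul_ne_zero (NeZero.ne M) (by omega)⟩
  ext u
  rw [MulChar.one_apply_coe]
  obtain ⟨k, hk1, hk2⟩ := Nat.chineseRemainder hc ((u : ZMod q)).val 1
  have hkq : ((k : ℕ) : ZMod q) = (u : ZMod q) := by
    have := (ZMod.natCast_eq_natCast_iff _ _ _).2 hk1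
    rw [this, ZMod.natCast_val, ZMod.cast_id]
  have hkM : ((k : ℕ) : ZMod M) = 1 := by
    have := (ZMod.natCast_eq_natCast_iff _ _ _).2 hk2
    rw [this, Nat.cast_one]
  have h1 := pr_apply χ ψ k
  rw [hkq, hkM, map_one, one_mul, h] at h1
  rw [← h1]
  apply MulChar.one_apply
  rw [ZMod.isUnit_iff_coprime, Nat.coprime_mul_iff_right]
  constructor
  · rw [← ZMod.isUnit_iff_coprime, hkM]
    exact isUnit_one
  · rw [← ZMod.isUnit_iff_coprime, hkq]
    exact u.isUnit

end Pool.Agent.Helper18.CA
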